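import Pool.Agent.Helper64.WRT.Trig

open scoped Matrix Kronecker Topology
open Filter

namespace Pool.Agent.Helper64.WRT

noncomputable section

section

variable {r : ℕ}

/-- cotangent of `π m / 2 r` -/
def ct (r m : ℕ) : ℝ := Real.cos (Real.pi * m / (2 * r)) / Real.sin (Real.pi * m / (2 * r))

theorem WW_eq_reflect (hr : 2 ≤ r) :
    WW r = ∑ c ∈ Finset.range (r - 1), (1 + (-1) ^ c) / 2 * ct r (c + 1) := by
  have hr0 : (r : ℝ) ≠ 0 := by
    have : r ≠ 0 := by omega
    exact_mod_cast this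
  rw [WW, Fin.sum_univ_eq_sum_range (fun c => par r ((c : ℕ) + 1) *
    Real.tan (hf r ((c : ℕ) + 1)) / 2), ← Finset.sum_range_reflect]
  refine Finset.sum_congr rfl fun c hc => ?_
  have hc' := Finset.mem_range.mp hc
  have e1 : (((r - 1 - 1 - c : ℕ) : ℤ) + 1) = (r : ℤ) - (c + 1) := by omega
  rw [e1]
  have e2 : hf r ((r : ℤ) - (c + 1)) = Real.pi / 2 - Real.pi * ((c + 1 : ℕ) : ℝ) / (2 * r) := by
    rw [hf]; push_cast; field_simp
  have e3 : par r ((r : ℤ) - (c + 1)) = 1 + (-1) ^ c := by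
    rw [par]
    have : (r : ℤ) + ((r : ℤ) - (c + 1) - 1) = 2 * ((r : ℤ) - 1 - c) + c := by ring
    rw [this, zpow_add₀ (by norm_num), zpow_mul, zpow_natCast]
    norm_num
  rw [e2, e3, ct, Real.tan_pi_div_two_sub, Real.tan_eq_sin_div_cos, inv_div]
  ring

theorem WW_eq_cot (hr : 2 ≤ r) : WW r = ∑ j ∈ Finset.range (r / 2), ct r (2 * j + 1) := by
  rw [WW_eq_reflect hr]
  symm
  apply Finset.sum_of_injOn (fun j => 2 * j)
  · intro a _ b _ h
    simp only at h
    omega
  · intro a ha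
    have := Finset.mem_range.mp (Finset.mem_coe.mp ha)
    apply Finset.mem_coe.mpr
    apply Finset.mem_range.mpr
    simp only
    omega
  · intro c hc hc2
    have hodd : Odd c := by
      by_contra he
      rw [Nat.not_odd_iff_even] at he
      obtain ⟨d, hd⟩ := he
      apply hc2
      refine ⟨d, ?_, by simp only; omega⟩
      have := Finset.mem_range.mp hc
      apply Finset.mem_coe.mpr
      apply Finset.mem_range.mpr
      omega
    rw [hodd.neg_one_pow]
    ring
  · intro j _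
    simp

theorem ct_bounds (m : ℕ) (h0 : 0 < m) (h1 : m < r) :
    2 * r / (Real.pi * m) - 1 ≤ ct r m ∧ ct r m ≤ 2 * r / (Real.pi * m) := by
  have hr0 : (0 : ℝ) < r := by
    have : 0 < r := by omega
    exact_mod_cast this
  have hm : (0 : ℝ) < m := by exact_mod_cast h0
  have hmr : (m : ℝ) < r := by exact_mod_cast h1
  set θ := Real.pi * m / (2 * r) with hθ
  have hpos : 0 < θ := by positivity
  have hlt : θ < Real.pi / 2 := by
    rw [hθ, div_lt_iff₀ (by positivity)]
    nlinarith [Real.pi_pos]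
  have hinv : 2 * r / (Real.pi * m) = 1 / θ := by
    rw [hθ]; field_simp
  have hsin : 0 < Real.sin θ := Real.sin_pos_of_pos_of_lt_pi hpos (by linarith [Real.pi_pos])
  have hcos : 0 < Real.cos θ := Real.cos_pos_of_mem_Ioo ⟨by linarith, hlt⟩
  rw [hinv]
  have hct : ct r m = Real.cos θ / Real.sin θ := rfl
  rw [hct]
  constructor
  · have h2 := Real.one_sub_sq_div_two_le_cos (x := θ)
    have h3 := Real.sin_le hpos.le
    have h4 : (1 - θ ^ 2 / 2) / θ ≤ Real.cos θ / θ := by
      apply div_le_div_of_nonneg_right h2 hpos.le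
    have h5 : Real.cos θ / θ ≤ Real.cos θ / Real.sin θ :=
      div_le_div_of_nonneg_left hcos.le hsin h3
    have h6 : (1 - θ ^ 2 / 2) / θ = 1 / θ - θ / 2 := by field_simp
    have h7 : θ / 2 ≤ 1 := by linarith [Real.pi_le_four]
    linarith
  · rw [div_le_div_iff₀ hsin hpos]
    have := Real.le_tan hpos.le hlt
    rw [Real.tan_eq_sin_div_cos, le_div_iff₀ hcos] at this
    linarith

theorem oddsum_lower (n : ℕ) : Real.log (n + 1) / 2 ≤ ∑ j ∈ Finset.range n, (1 : ℝ) / (2 * j + 1) := by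
  have h := log_add_one_le_harmonic n
  have h1 : ((harmonic n : ℚ) : ℝ) / 2 ≤ ∑ j ∈ Finset.range n, (1 : ℝ) / (2 * j + 1) := by
    rw [harmonic]
    push_cast
    rw [Finset.sum_div]
    refine Finset.sum_le_sum fun j _ => ?_
    rw [inv_eq_one_div, div_div]
    apply one_div_le_one_div_of_le
    · positivity
    · linarith
  push_cast at h
  linarith

theorem oddsum_upper (n : ℕ) (hn : 0 < n) :
    ∑ j ∈ Finset.range n, (1 : ℝ) / (2 * j + 1) ≤ 3 / 2 + Real.log n / 2 := by
  have h := harmonic_le_one_add_log n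
  obtain ⟨m, rfl⟩ : ∃ m, n = m + 1 := ⟨n - 1, by omega⟩
  have h1 : ∑ j ∈ Finset.range (m + 1), (1 : ℝ) / (2 * j + 1) ≤ 1 + ((harmonic (m + 1) : ℚ) : ℝ) / 2 := by
    rw [Finset.sum_range_succ', harmonic, Finset.sum_range_succ]
    push_cast
    have h2 : ∑ k ∈ Finset.range m, (1 : ℝ) / (2 * ((k : ℝ) + 1) + 1) ≤
        (∑ x ∈ Finset.range m, ((x : ℝ) + 1)⁻¹) / 2 := by
      rw [Finset.sum_div]
      refine Finset.sum_le_sum fun j _ => ?_
      rw [inv_eq_one_div, div_div]
      apply one_div_le_one_div_of_le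
      · positivity
      · linarith
    have h3 : (0 : ℝ) ≤ ((m : ℝ) + 1)⁻¹ := by positivity
    have h4 : (1 : ℝ) / (2 * 0 + 1) = 1 := by norm_num
    rw [h4]
    linarith
  linarith

theorem WW_lower (hr : 2 ≤ r) : r * (Real.log r - Real.log 2) / Real.pi - r ≤ WW r := by
  have hr0 : (0 : ℝ) < r := by
    have : 0 < r := by omega
    exact_mod_cast this
  have hpi := Real.pi_pos
  rw [WW_eq_cot hr]
  have h1 : ∑ j ∈ Finset.range (r / 2), (2 * r / (Real.pi * ((2 * j + 1 : ℕ) : ℝ)) - 1) ≤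
      ∑ j ∈ Finset.range (r / 2), ct r (2 * j + 1) := by
    refine Finset.sum_le_sum fun j hj => ?_
    have := Finset.mem_range.mp hj
    exact (ct_bounds (2 * j + 1) (by omega) (by omega)).1
  refine le_trans ?_ h1
  rw [Finset.sum_sub_distrib]
  simp only [Finset.sum_const, Finset.card_range, nsmul_eq_mul, mul_one]
  have h2 : ∑ j ∈ Finset.range (r / 2), 2 * (r : ℝ) / (Real.pi * ((2 * j + 1 : ℕ) : ℝ)) =
      2 * r / Real.pi * ∑ j ∈ Finset.range (r / 2), (1 : ℝ) / (2 * j + 1) := by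
    rw [Finset.mul_sum]
    refine Finset.sum_congr rfl fun j _ => ?_
    push_cast
    field_simp
  rw [h2]
  have h3 := oddsum_lower (r / 2)
  have h4 : Real.log r - Real.log 2 ≤ Real.log (((r / 2 : ℕ) : ℝ) + 1) := by
    rw [← Real.log_div hr0.ne' (by norm_num)]
    apply Real.log_le_log (by positivity)
    have : r ≤ 2 * (r / 2) + 1 := by omega
    have : (r : ℝ) ≤ 2 * ((r / 2 : ℕ) : ℝ) + 1 := by exact_mod_cast this
    linarith
  have h5 : 2 * r / Real.pi * ((Real.log r - Real.log 2) / 2) ≤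
      2 * r / Real.pi * ∑ j ∈ Finset.range (r / 2), (1 : ℝ) / (2 * j + 1) := by
    apply mul_le_mul_of_nonneg_left _ (by positivity)
    linarith
  have h6 : ((r / 2 : ℕ) : ℝ) ≤ r := by
    have : r / 2 ≤ r := Nat.div_le_self _ _
    exact_mod_cast this
  have h7 : 2 * r / Real.pi * ((Real.log r - Real.log 2) / 2) =
      r * (Real.log r - Real.log 2) / Real.pi := by ring
  linarith

theorem WW_upper (hr : 2 ≤ r) : WW r ≤ r * (3 + Real.log r) / Real.pi := by
  have hr0 : (0 : ℝ) < r := by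
    have : 0 < r := by omega
    exact_mod_cast this
  have hpi := Real.pi_pos
  rw [WW_eq_cot hr]
  have h1 : ∑ j ∈ Finset.range (r / 2), ct r (2 * j + 1) ≤
      ∑ j ∈ Finset.range (r / 2), 2 * r / (Real.pi * ((2 * j + 1 : ℕ) : ℝ)) := by
    refine Finset.sum_le_sum fun j hj => ?_
    have := Finset.mem_range.mp hj
    exact (ct_bounds (2 * j + 1) (by omega) (by omega)).2
  refine le_trans h1 ?_
  have h2 : ∑ j ∈ Finset.range (r / 2), 2 * (r : ℝ) / (Real.pi * ((2 * j + 1 : ℕ) : ℝ)) =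
      2 * r / Real.pi * ∑ j ∈ Finset.range (r / 2), (1 : ℝ) / (2 * j + 1) := by
    rw [Finset.mul_sum]
    refine Finset.sum_congr rfl fun j _ => ?_
    push_cast
    field_simp
  rw [h2]
  have h3 := oddsum_upper (r / 2) (by omega)
  have h4 : Real.log ((r / 2 : ℕ) : ℝ) ≤ Real.log r := by
    apply Real.log_le_log
    · have : 0 < r / 2 := by omega
      exact_mod_cast this
    · have : r / 2 ≤ r := Nat.div_le_self _ _
      exact_mod_cast this
  have h5 : 2 * r / Real.pi * ∑ j ∈ Finset.range (r / 2), (1 : ℝ) / (2 * j + 1) ≤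
      2 * r / Real.pi * ((3 + Real.log r) / 2) := by
    apply mul_le_mul_of_nonneg_left _ (by positivity)
    linarith
  have h7 : 2 * r / Real.pi * ((3 + Real.log r) / 2) =
      r * (3 + Real.log r) / Real.pi := by ring
  linarith

theorem tendsto_WW : Tendsto (fun r : ℕ => WW r / (r * Real.log r)) atTop (𝓝 (1 / Real.pi)) := by
  have hlog : Tendsto (fun r : ℕ => Real.log r) atTop atTop :=
    Real.tendsto_log_atTop.comp tendsto_natCast_atTop_atTop
  have hpi := Real.pi_pos
  have hlow : Tendsto (fun r : ℕ => 1 / Real.pi - (Real.log 2 / Real.pi + 1) / Real.log r) atTop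
      (𝓝 (1 / Real.pi)) := by
    have := (tendsto_const_nhds (x := Real.log 2 / Real.pi + 1)).div_atTop hlog
    simpa using (tendsto_const_nhds (x := 1 / Real.pi)).sub this
  have hup : Tendsto (fun r : ℕ => 1 / Real.pi + (3 / Real.pi) / Real.log r) atTop
      (𝓝 (1 / Real.pi)) := by
    have := (tendsto_const_nhds (x := 3 / Real.pi)).div_atTop hlog
    simpa using (tendsto_const_nhds (x := 1 / Real.pi)).add this
  refine tendsto_of_tendsto_of_tendsto_of_le_of_le' hlow hup ?_ ?_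
  · filter_upwards [eventually_ge_atTop 2] with r hr
    have hr1 : (1 : ℝ) < r := by exact_mod_cast (by omega : 1 < r)
    have hl : 0 < Real.log r := Real.log_pos hr1
    rw [le_div_iff₀ (by positivity)]
    refine le_trans (le_of_eq ?_) (WW_lower hr)
    field_simp
    ring
  · filter_upwards [eventually_ge_atTop 2] with r hr
    have hr1 : (1 : ℝ) < r := by exact_mod_cast (by omega : 1 < r)
    have hl : 0 < Real.log r := Real.log_pos hr1
    rw [div_le_iff₀ (by positivity)]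
    refine le_trans (WW_upper hr) (le_of_eq ?_)
    field_simp
    ring

/-- Asymptotics of the invariant of the Hantzsche-Wendt manifold. -/
theorem tendsto_ZZ : Tendsto (fun k : ℕ => ‖ZZ k HW‖ /
    (Real.sqrt ((k + 2 : ℕ) : ℝ) * Real.log ((k + 2 : ℕ) : ℝ))) atTop
      (𝓝 (Real.sqrt 2 / Real.pi)) := by
  have h1 : Tendsto (fun k : ℕ => WW (k + 2) / (((k + 2 : ℕ) : ℝ) * Real.log ((k + 2 : ℕ) : ℝ)))
      atTop (𝓝 (1 / Real.pi)) := tendsto_WW.comp (tendsto_add_atTop_nat 2)
  have h2 := h1.const_mul (Real.sqrt 2)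
  rw [mul_one_div] at h2
  refine h2.congr fun k => ?_
  rw [norm_ZZ_HW]
  have hr0 : (0 : ℝ) < ((k + 2 : ℕ) : ℝ) := by positivity
  rw [Real.sqrt_div (by norm_num)]
  have h3 : Real.sqrt ((k + 2 : ℕ) : ℝ) * Real.sqrt ((k + 2 : ℕ) : ℝ) = ((k + 2 : ℕ) : ℝ) :=
    Real.mul_self_sqrt hr0.le
  have h4 : Real.sqrt ((k + 2 : ℕ) : ℝ) ≠ 0 := (Real.sqrt_pos.mpr hr0).ne'
  rw [div_mul_eq_mul_div, div_div, ← mul_assoc, h3, mul_div_assoc]

theorem tendsto_ZZ_half : Tendsto (fun k : ℕ => ‖ZZ k HW‖ / (((k + 2 : ℕ) : ℝ) ^ (1 / 2 : ℝ)))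
    atTop atTop := by
  have hlog : Tendsto (fun k : ℕ => Real.log ((k + 2 : ℕ) : ℝ)) atTop atTop :=
    (Real.tendsto_log_atTop.comp tendsto_natCast_atTop_atTop).comp (tendsto_add_atTop_nat 2)
  have hpos : 0 < Real.sqrt 2 / Real.pi := by positivity
  have h := tendsto_ZZ.pos_mul_atTop hpos hlog
  refine h.congr fun k => ?_
  have hr1 : (1 : ℝ) < ((k + 2 : ℕ) : ℝ) := by
    have : 1 < k + 2 := by omega
    exact_mod_cast this
  have hl : Real.log ((k + 2 : ℕ) : ℝ) ≠ 0 := (Real.log_pos hr1).ne'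
  rw [← Real.sqrt_eq_rpow]
  field_simp

end

end

end Pool.Agent.Helper64.WRT
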