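import Pool.Agent.Helper64.WRT.Su2

namespace Pool.Agent.Helper64.WRT

noncomputable section

open groupCohomology Module Matrix

section
variable {Γ : Type} [Group Γ] {ρ : Γ →* SU2}

/-- The space of 1-cocycles -/
abbrev Z1 (ρ : Γ →* SU2) : Submodule ℝ (Γ → su2) := cocycles₁ (Rep.of (adRep ρ))

theorem mem_Z1_iff (f : Γ → su2) : f ∈ Z1 ρ ↔ ∀ x y, f (x * y) = Ad (ρ x) (f y) + f x :=
  mem_cocycles₁_iff (A := Rep.of (adRep ρ)) f

theorem Ad_coe (g : SU2) (X : su2) : ((Ad g X : su2) : M2) = (g : M2) * X * (g : M2)ᴴ := rfl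

/-- the infinitesimal deformation of `ρ` given by a cocycle -/
def FF (f : Γ → su2) (ρ : Γ →* SU2) (x : Γ) : M2 := ((f x : su2) : M2) * (ρ x : M2)

theorem FF_mul {f : Γ → su2} (hf : f ∈ Z1 ρ) (x y : Γ) :
    FF f ρ (x * y) = FF f ρ x * (ρ y : M2) + (ρ x : M2) * FF f ρ y := by
  have h := (mem_Z1_iff f).1 hf x y
  have h2 : ((f (x * y) : su2) : M2) =
      (ρ x : M2) * (f y : M2) * (ρ x : M2)ᴴ + (f x : M2) := by
    rw [h]; rfl
  have h3 : ((ρ (x * y) : SU2) : M2) = (ρ x : M2) * (ρ y : M2) := by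
    rw [map_mul]; rfl
  rw [FF, h2, h3, Matrix.add_mul]
  have h4 : (ρ x : M2) * (f y : M2) * (ρ x : M2)ᴴ * ((ρ x : M2) * (ρ y : M2)) =
      (ρ x : M2) * ((f y : M2) * (ρ y : M2)) := by
    calc (ρ x : M2) * (f y : M2) * (ρ x : M2)ᴴ * ((ρ x : M2) * (ρ y : M2))
        = (ρ x : M2) * (f y : M2) * ((ρ x : M2)ᴴ * (ρ x : M2)) * (ρ y : M2) := by
          simp only [Matrix.mul_assoc]
      _ = _ := by rw [SU2.coe_inv_mul, Matrix.mul_one, Matrix.mul_assoc]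
  rw [h4, FF, FF, Matrix.mul_assoc, add_comm]

theorem FF_sq {f : Γ → su2} (hf : f ∈ Z1 ρ) (y : Γ) :
    FF f ρ (y * y) = (ρ y : M2).trace • FF f ρ y + (FF f ρ y).trace • (ρ y : M2) := by
  rw [FF_mul hf]
  have h := pol (su2_trace (f y)) (ρ y : M2)
  have e : FF f ρ y * (ρ y : M2) + (ρ y : M2) * FF f ρ y =
      ((f y : M2) * (ρ y : M2) + (ρ y : M2) * (f y : M2)) * (ρ y : M2) := by
    rw [FF]; noncomm_ring
  rw [e, h, Matrix.add_mul, Matrix.smul_mul, Matrix.smul_mul, Matrix.one_mul]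
  rfl

variable {x y : Γ}

theorem rho_rel (h : y * y * x * (y * y) = x) :
    (ρ y : M2) * (ρ y : M2) * (ρ x : M2) * ((ρ y : M2) * (ρ y : M2)) = (ρ x : M2) := by
  have := congrArg (fun z => ((ρ z : SU2) : M2)) h
  simpa only [map_mul, Submonoid.coe_mul] using this

/-- Case of a traceless square root of a central element. -/
theorem K1 {f : Γ → su2} (hf : f ∈ Z1 ρ) (h : y * y * x * (y * y) = x)
    (ht : (ρ y : M2).trace = 0) :
    (FF f ρ y).trace • ((ρ x : M2) * (ρ y : M2) + (ρ y : M2) * (ρ x : M2)) = 0 := by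
  have hsq : (ρ y : M2) * (ρ y : M2) = -1 := by
    rw [SU2.sq, ht, zero_smul, zero_sub]
  have e1 : FF f ρ (y * y * x * (y * y)) = FF f ρ x := by rw [h]
  have hyy : ((ρ (y * y) : SU2) : M2) = -1 := by
    rw [map_mul, Submonoid.coe_mul, hsq]
  have hyyx : ((ρ (y * y * x) : SU2) : M2) = - (ρ x : M2) := by
    rw [map_mul, Submonoid.coe_mul, hyy, Matrix.neg_mul, Matrix.one_mul]
  rw [FF_mul hf (y * y * x), FF_mul hf (y * y) x, FF_sq hf, hyy, hyyx, ht, zero_smul,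
    zero_add] at e1
  rw [Matrix.smul_mul, Matrix.mul_smul] at e1
  have e2 : (FF f ρ y).trace • ((ρ x : M2) * (ρ y : M2) + (ρ y : M2) * (ρ x : M2)) =
      FF f ρ x - (((FF f ρ y).trace • ((ρ y : M2) * (ρ x : M2)) + -1 * FF f ρ x) * -1 +
      (FF f ρ y).trace • (-(ρ x : M2) * (ρ y : M2))) := by
    rw [Matrix.neg_mul, Matrix.neg_mul, Matrix.one_mul, Matrix.mul_neg, Matrix.mul_one]
    module
  rw [e2, e1, sub_self]

theorem K2a (h : y * y * x * (y * y) = x) (ht : (ρ y : M2).trace ≠ 0) :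
    (ρ y : M2) * (ρ x : M2) * (ρ y : M2) = (ρ x : M2) := by
  rw [← sub_eq_zero]
  apply key_zero (SU2.sq (ρ y)) _ ht
  have e := rho_rel (ρ := ρ) h
  have e2 : (ρ y : M2) * ((ρ y : M2) * (ρ x : M2) * (ρ y : M2) - (ρ x : M2)) * (ρ y : M2) +
      ((ρ y : M2) * (ρ x : M2) * (ρ y : M2) - (ρ x : M2)) =
      (ρ y : M2) * (ρ y : M2) * (ρ x : M2) * ((ρ y : M2) * (ρ y : M2)) - (ρ x : M2) := by
    noncomm_ring
  rw [e2, e, sub_self]

theorem K2b {f : Γ → su2} (hf : f ∈ Z1 ρ) (h : y * y * x * (y * y) = x)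
    (ht : (ρ y : M2).trace ≠ 0) :
    FF f ρ (y * x * y) = FF f ρ x := by
  rw [← sub_eq_zero]
  apply key_zero (SU2.sq (ρ y)) _ ht
  have hg : y * (y * x * y) * y = x := by
    have : y * (y * x * y) * y = y * y * x * (y * y) := by simp only [mul_assoc]
    rw [this, h]
  have hρ : ((ρ (y * x * y) : SU2) : M2) = (ρ x : M2) := by
    rw [map_mul, map_mul, Submonoid.coe_mul, Submonoid.coe_mul, K2a h ht]
  have hρ2 : ((ρ (y * (y * x * y)) : SU2) : M2) = (ρ y : M2) * (ρ x : M2) := by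
    rw [map_mul ρ y, Submonoid.coe_mul, hρ]
  have e1 : FF f ρ (y * (y * x * y) * y) = FF f ρ x := by rw [hg]
  rw [FF_mul hf, FF_mul hf y, hρ, hρ2] at e1
  have e2 : FF f ρ (y * x * y) = (FF f ρ y * (ρ x : M2) + (ρ y : M2) * FF f ρ x) * (ρ y : M2) +
      (ρ y : M2) * (ρ x : M2) * FF f ρ y := by
    rw [FF_mul hf, FF_mul hf y, map_mul, Submonoid.coe_mul]
  have e3 : (ρ y : M2) * (FF f ρ (y * x * y) - FF f ρ x) * (ρ y : M2) +
      (FF f ρ (y * x * y) - FF f ρ x) =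
      ((FF f ρ y * (ρ x : M2) + (ρ y : M2) * FF f ρ (y * x * y)) * (ρ y : M2) +
        (ρ y : M2) * (ρ x : M2) * FF f ρ y - FF f ρ x) +
      (FF f ρ (y * x * y) - ((FF f ρ y * (ρ x : M2) + (ρ y : M2) * FF f ρ x) * (ρ y : M2) +
      (ρ y : M2) * (ρ x : M2) * FF f ρ y)) := by
    noncomm_ring
  rw [e3, e1, ← e2, sub_self, sub_self, add_zero]

end

end

end Pool.Agent.Helper64.WRT
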