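import Pool.Agent.Helper64.WRT.Group

namespace Pool.Agent.Helper64.WRT

noncomputable section

open groupCohomology Module

section
variable {Γ : Type} [Group Γ] (A : Rep ℝ Γ)

theorem finrank_H1_add [FiniteDimensional ℝ (cocycles₁ A)] :
    finrank ℝ (groupCohomology A 1) + finrank ℝ (coboundaries₁ A) = finrank ℝ (cocycles₁ A) := by
  have surj : Function.Surjective (H1π A).hom :=
    (ModuleCat.epi_iff_surjective (H1π A)).1 inferInstance
  have h := LinearMap.finrank_range_add_finrank_ker (H1π A).hom
  rw [LinearMap.range_eq_top.mpr surj, finrank_top] at h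
  have hk : LinearMap.ker (H1π A).hom = LinearMap.range (coboundariesToCocycles₁ A) := by
    ext x
    rw [LinearMap.mem_ker, LinearMap.mem_range]
    constructor
    · intro hx
      exact ⟨⟨x.1, (H1π_eq_zero_iff x).1 hx⟩, rfl⟩
    · rintro ⟨y, rfl⟩
      exact (H1π_eq_zero_iff _).2 y.2
  have hk2 : finrank ℝ (LinearMap.ker (H1π A).hom) = finrank ℝ (coboundaries₁ A) := by
    rw [hk]
    exact LinearMap.finrank_range_of_inj (Submodule.inclusion_injective _)
  rw [hk2] at h
  exact h

theorem finrank_B1_add [FiniteDimensional ℝ A] :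
    finrank ℝ (coboundaries₁ A) + finrank ℝ (groupCohomology A 0) = finrank ℝ A := by
  have h := LinearMap.finrank_range_add_finrank_ker (d₀₁ A).hom
  rw [d₀₁_ker_eq_invariants] at h
  have e : finrank ℝ (groupCohomology A 0) = finrank ℝ A.ρ.invariants :=
    (H0Iso A).toLinearEquiv.finrank_eq
  rw [e]
  exact h

end

end

end Pool.Agent.Helper64.WRT
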