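import Mathlib

/-!
# SU(2) Witten-Reshetikhin-Turaev invariants and flat SU(2) connections of closed 3-manifolds

Every closed connected oriented 3-manifold is obtained by integral surgery on a framed link in the
3-sphere which is the closure of a pure braid (Lickorish 1962, Wallace 1960).  A `FramedPureBraid`
is such a surgery presentation, and this file defines, from a surgery presentation,

* the fundamental group of the 3-manifold (Artin / Wirtinger presentation of the link group,
  with one surgery relator for each component);
* the moduli space of flat `SU(2)` connections `Hom(π₁, SU(2)) / SU(2)`, with its usual topology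
  and its Zariski topology, and the dimensions `h⁰`, `h¹` of the cohomology with coefficients in
  the flat adjoint bundle;
* the Witten-Reshetikhin-Turaev invariant `τ_r` for `SU(2)`, by the surgery formula of
  Reshetikhin-Turaev and Kirby-Melvin, the coloured link invariant being the quantum trace of
  the action of the braid on tensor products of the irreducible modules of the quantum group
  `U_q(sl₂)` at `q = exp(π i / r)`, through the universal R-matrix.
-/

open scoped Matrix Kronecker

namespace Pool.Agent.Helper64.WRT

noncomputable section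

/-! ## Surgery presentations -/

/-- The permutation underlying a braid word. A braid word on the `m + 1` strands `0, ..., m` is a
list of letters `(k, ε)` with `k < m`: the letter `(k, true)` is the generator `σ_k`, the positive
(right-handed) crossing of the strands in the positions `k` and `k + 1`, and `(k, false)` is its
inverse, the negative crossing. -/
def braidPerm {m : ℕ} (w : List (Fin m × Bool)) : Equiv.Perm (Fin (m + 1)) :=
  (w.map fun l => Equiv.swap l.1.castSucc l.1.succ).prod

/-- A framed pure braid with `m + 1` strands. It presents the closed oriented 3-manifold obtained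
from the 3-sphere by surgery on the closure of the braid; this closure is a link with `m + 1`
components, one for each strand, and `framing i` is the framing (surgery coefficient) of the
`i`-th one. -/
structure FramedPureBraid where
  /-- one less than the number of strands -/
  m : ℕ
  /-- the braid word, read along the orientation of the strands -/
  word : List (Fin m × Bool)
  /-- the braid is pure -/
  pure : braidPerm word = 1
  /-- the framings -/
  framing : Fin (m + 1) → ℤ

/-! ## The fundamental group -/

/-- The effect of one crossing on the pairs (meridian, longitude so far) of the strands, listed by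
position.  At a positive crossing in the positions `k`, `k + 1` the strand coming from position
`k` passes over the one coming from position `k + 1`; at a negative crossing the strand coming
from position `k + 1` passes over the one coming from position `k`. The meridian of the upper
strand does not change, the meridian of the lower strand is conjugated by the meridian of the
upper strand (Wirtinger relation), and the longitude of the lower strand is multiplied by the
meridian of the upper strand to the power the sign of the crossing. -/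
def crossStep {G : Type*} [Group G] {m : ℕ} (s : Fin (m + 1) → G × G) (l : Fin m × Bool) :
    Fin (m + 1) → G × G :=
  let a := s l.1.castSucc
  let b := s l.1.succ
  if l.2 then
    fun j => if j = l.1.castSucc then (a.1⁻¹ * b.1 * a.1, b.2 * a.1)
      else if j = l.1.succ then a else s j
  else
    fun j => if j = l.1.castSucc then b
      else if j = l.1.succ then (b.1 * a.1 * b.1⁻¹, a.2 * b.1⁻¹) else s j

/-- The meridians and longitudes at the end of a braid word, if the meridians of the strands at the
beginning are the `x i`. -/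
def strandData {G : Type*} [Group G] {m : ℕ} (w : List (Fin m × Bool)) (x : Fin (m + 1) → G) :
    Fin (m + 1) → G × G :=
  w.foldl crossStep (fun j => (x j, 1))

namespace FramedPureBraid

/-- The surgery relator of the `i`-th component: its longitude for the framing `framing i`, namely
(blackboard longitude of the closed strand) * (meridian) ^ framing. -/
def relator (β : FramedPureBraid) (i : Fin (β.m + 1)) : FreeGroup (Fin (β.m + 1)) :=
  (strandData β.word FreeGroup.of i).2 * FreeGroup.of i ^ β.framing i

/-- The fundamental group of the closed 3-manifold presented by `β`. (The relations saying that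
meridian and longitude of a component commute follow from the surgery relators.) -/
abbrev π₁ (β : FramedPureBraid) : Type := PresentedGroup (Set.range β.relator)

/-- The linking matrix: the framings on the diagonal, the linking numbers off the diagonal. The
linking number of the components `i` and `j` is the exponent of the `j`-th meridian in the `i`-th
longitude; here it is computed by sending the `j`-th meridian to `1 ∈ ℤ` and the others to `0`. -/
def linkingMatrix (β : FramedPureBraid) : Matrix (Fin (β.m + 1)) (Fin (β.m + 1)) ℝ :=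
  fun i j => if i = j then (β.framing i : ℝ) else
    ((strandData β.word (fun k => Multiplicative.ofAdd (if k = j then (1 : ℤ) else 0)) i).2.toAdd : ℝ)

/-- The signature of the linking matrix, a real symmetric matrix: the sum of the signs of its
eigenvalues, that is of the roots of its characteristic polynomial, with multiplicity. -/
def signature (β : FramedPureBraid) : ℤ :=
  (β.linkingMatrix.charpoly.roots.map fun x => ((SignType.sign x : SignType) : ℤ)).sum

end FramedPureBraid

/-! ## Flat SU(2) connections -/

/-- The group `SU(2)`. -/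
abbrev SU2 : Type := Matrix.specialUnitaryGroup (Fin 2) ℂ

/-- Its Lie algebra `su(2)`: the skew-hermitian matrices of trace `0`. -/
def su2 : Submodule ℝ (Matrix (Fin 2) (Fin 2) ℂ) where
  carrier := {X | Xᴴ = -X ∧ X.trace = 0}
  add_mem' := by
    rintro X Y ⟨h1, h2⟩ ⟨h3, h4⟩
    exact ⟨by rw [Matrix.conjTranspose_add, h1, h3, neg_add], by rw [Matrix.trace_add, h2, h4, add_zero]⟩
  zero_mem' := by simp
  smul_mem' := by
    rintro c X ⟨h1, h2⟩
    refine ⟨?_, ?_⟩
    · rw [Matrix.conjTranspose_smul, h1]; simp
    · rw [Matrix.trace_smul, h2, smul_zero]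

theorem SU2.coe_inv (g : SU2) :
    ((g⁻¹ : SU2) : Matrix (Fin 2) (Fin 2) ℂ) = (g : Matrix (Fin 2) (Fin 2) ℂ)ᴴ := rfl

theorem SU2.coe_inv_mul (g : SU2) :
    (g : Matrix (Fin 2) (Fin 2) ℂ)ᴴ * (g : Matrix (Fin 2) (Fin 2) ℂ) = 1 := by
  rw [← SU2.coe_inv, ← Submonoid.coe_mul, inv_mul_cancel]; rfl

/-- The linear map `X ↦ g X g⁻¹`. -/
def SU2.conj (g : SU2) : Matrix (Fin 2) (Fin 2) ℂ →ₗ[ℝ] Matrix (Fin 2) (Fin 2) ℂ :=
  LinearMap.mulLeftRight ℝ ((g : Matrix (Fin 2) (Fin 2) ℂ), ((g⁻¹ : SU2) : Matrix (Fin 2) (Fin 2) ℂ))

theorem SU2.conj_mem (g : SU2) (X : Matrix (Fin 2) (Fin 2) ℂ) (hX : X ∈ su2) :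
    SU2.conj g X ∈ su2 := by
  obtain ⟨h1, h2⟩ := hX
  rw [SU2.conj, LinearMap.mulLeftRight_apply]
  refine ⟨?_, ?_⟩
  · simp only [SU2.coe_inv, Matrix.conjTranspose_mul, Matrix.conjTranspose_conjTranspose, h1]
    simp [Matrix.mul_assoc]
  · rw [Matrix.trace_mul_comm, SU2.coe_inv, ← Matrix.mul_assoc, SU2.coe_inv_mul,
      Matrix.one_mul, h2]

/-- The adjoint action of `SU(2)` on `su(2)`, `X ↦ g X g⁻¹`. -/
def Ad : SU2 →* Module.End ℝ su2 where
  toFun g := (SU2.conj g).restrict (SU2.conj_mem g)
  map_one' := by
    ext X : 2
    simp [SU2.conj]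
  map_mul' g h := by
    ext X : 2
    simp [SU2.conj, Matrix.mul_assoc]

section Flat

variable {Γ : Type} [Group Γ]

/-- The adjoint representation of a flat connection, given by its holonomy `ρ : Γ → SU(2)`, where
`Γ` is the fundamental group. -/
def adRep (ρ : Γ →* SU2) : Representation ℝ Γ su2 := Ad.comp ρ

/-- `h^i = dim H^i(M, d_A)` for `i = 0, 1`: the dimension of the `i`-th cohomology of the
fundamental group with coefficients in the adjoint representation. -/
def hdim (i : ℕ) (ρ : Γ →* SU2) : ℕ :=
  Module.finrank ℝ (groupCohomology (Rep.of (adRep ρ)) i)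

variable (Γ) in
/-- Gauge equivalence: conjugation of holonomy representations. -/
def conjSetoid : Setoid (Γ →* SU2) where
  r ρ ρ' := ∃ g : SU2, ∀ x, ρ' x = g * ρ x * g⁻¹
  iseqv := by
    refine ⟨fun ρ => ⟨1, by simp⟩, ?_, ?_⟩
    · rintro ρ ρ' ⟨g, hg⟩
      exact ⟨g⁻¹, fun x => by rw [hg]; group⟩
    · rintro ρ ρ' ρ'' ⟨g, hg⟩ ⟨g', hg'⟩
      exact ⟨g' * g, fun x => by rw [hg', hg]; group⟩

variable (Γ) in
/-- The moduli space of gauge classes of flat `SU(2)` connections. -/
def Moduli : Type := Quotient (conjSetoid Γ)

/-- The gauge class of a flat connection. -/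
def Moduli.mk (ρ : Γ →* SU2) : Moduli Γ := Quotient.mk (conjSetoid Γ) ρ

/-- The topology of pointwise convergence on `Hom(Γ, SU(2))`. -/
instance homTopology : TopologicalSpace (Γ →* SU2) :=
  TopologicalSpace.induced (fun (ρ : Γ →* SU2) (x : Γ) => ρ x) inferInstance

/-- The quotient topology on the moduli space. -/
instance : TopologicalSpace (Moduli Γ) :=
  TopologicalSpace.coinduced Moduli.mk inferInstance

variable (Γ) in
/-- The algebra of real polynomial functions on the real algebraic set `Hom(Γ, SU(2))`: it is
generated by the real and imaginary parts of the entries of the matrices `ρ(x)`, `x ∈ Γ`. -/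
def polyFun : Subalgebra ℝ ((Γ →* SU2) → ℝ) :=
  Algebra.adjoin ℝ {f | ∃ (x : Γ) (i j : Fin 2),
    f = (fun ρ => ((ρ x : Matrix (Fin 2) (Fin 2) ℂ) i j).re) ∨
    f = (fun ρ => ((ρ x : Matrix (Fin 2) (Fin 2) ℂ) i j).im)}

/-- Zariski open subsets of the moduli space: the preimage in `Hom(Γ, SU(2))` is the complement of
the set of common zeros of a set of polynomial functions. -/
def IsZariskiOpen (U : Set (Moduli Γ)) : Prop :=
  ∃ P : Set ((Γ →* SU2) → ℝ), P ⊆ polyFun Γ ∧
    ∀ ρ : Γ →* SU2, Moduli.mk ρ ∈ U ↔ ∃ p ∈ P, p ρ ≠ 0

/-- `h¹ - h⁰` takes the value `v` on a nonempty Zariski open subset of the part `C` of the moduli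
space. -/
def IsGenericValue (C : Set (Moduli Γ)) (v : ℤ) : Prop :=
  ∃ U : Set (Moduli Γ), IsZariskiOpen U ∧ (U ∩ C).Nonempty ∧
    ∀ ρ : Γ →* SU2, Moduli.mk ρ ∈ U ∩ C → (hdim 1 ρ : ℤ) - hdim 0 ρ = v

/-- The exponent `d = max_j d_j`, where `d_j = (1/2) max_{A ∈ M_j} (h¹_A - h⁰_A)`, the maximum
meaning the largest value that `h¹_A - h⁰_A` takes on a nonempty Zariski open subset of
`M_j = {A : cs A = c_j}`. Here `cs` is the Chern-Simons functional on the moduli space. -/
def growthExponent (cs : Moduli Γ → AddCircle (1 : ℝ)) : ℝ :=
  sSup {d : ℝ | ∃ (c : AddCircle (1 : ℝ)) (v : ℤ),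
    IsGenericValue {A | cs A = c} v ∧ d = (v : ℝ) / 2}

end Flat

/-! ## The quantum group and its R-matrix -/

section Quantum

variable (r : ℕ)

/-- `t = exp(π i / 2r)`, so that `t² = exp(π i / r)` and `t⁴ = exp(2 π i / r)`. -/
def tt : ℂ := Complex.exp (Real.pi * Complex.I / (2 * r))

/-- The quantum integer `[n] = (t^{2n} - t^{-2n}) / (t² - t⁻²) = sin(π n / r) / sin(π / r)`. -/
def qint (n : ℤ) : ℂ := (tt r ^ (2 * n) - tt r ^ (-(2 * n))) / (tt r ^ 2 - (tt r ^ 2)⁻¹)

/-- The quantum factorial `[n]! = [1] [2] ⋯ [n]`. -/
def qfact (n : ℕ) : ℂ := ∏ k ∈ Finset.range n, qint r (k + 1)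

/-- The standard basis of the direct sum `V_1 ⊕ ⋯ ⊕ V_{r-1}` of the irreducible modules, where
`dim V_a = a`: the pair `⟨a, i⟩` with `a < r - 1`, `i ≤ a` is the basis vector `e_i` of
`V_{a+1}`. -/
abbrev Idx : Type := Σ a : Fin (r - 1), Fin (a + 1)

variable {r}

/-- The dimension of the module which the basis vector belongs to (its colour). -/
def Idx.dim (s : Idx r) : ℕ := s.1 + 1

/-- The weight of a basis vector: `e_i ∈ V_a` has weight `a - 1 - 2i`. -/
def Idx.wt (s : Idx r) : ℤ := (s.1 : ℤ) - 2 * (s.2 : ℤ)

variable (r)

/-- The action of the generator `E` of the quantum group: `E e_i = [i] [a - i] e_{i-1}`. -/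
def matE : Matrix (Idx r) (Idx r) ℂ := fun u s =>
  if u.1 = s.1 ∧ (u.2 : ℕ) + 1 = s.2 then qint r s.2 * qint r (s.dim - s.2) else 0

/-- The action of the generator `F` of the quantum group: `F e_i = e_{i+1}`, and
`F e_{a-1} = 0`. -/
def matF : Matrix (Idx r) (Idx r) ℂ := fun u s =>
  if u.1 = s.1 ∧ (u.2 : ℕ) = s.2 + 1 then 1 else 0

/-- The universal R-matrix
`t^{H ⊗ H} ∑ₙ t^{n(n-1)} (t² - t⁻²)ⁿ / [n]! Eⁿ ⊗ Fⁿ`
of the quantum group, acting on the tensor products `V_a ⊗ V_b`. -/
def matR : Matrix (Idx r × Idx r) (Idx r × Idx r) ℂ :=
  Matrix.diagonal (fun p : Idx r × Idx r => tt r ^ (p.1.wt * p.2.wt)) *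
    ∑ n ∈ Finset.range r,
      (tt r ^ (n * (n - 1)) * (tt r ^ 2 - (tt r ^ 2)⁻¹) ^ n / qfact r n) •
        ((matE r ^ n) ⊗ₖ (matF r ^ n))

/-- The braiding `V_a ⊗ V_b → V_b ⊗ V_a`: the R-matrix followed by the flip. -/
def braiding : Matrix (Idx r × Idx r) (Idx r × Idx r) ℂ := fun u s => matR r (u.2, u.1) s

/-- A matrix `A` acting on the tensor factors in the positions `k` and `k + 1` of an
`(m + 1)`-fold tensor product. -/
def actAt {m : ℕ} (k : Fin m) (A : Matrix (Idx r × Idx r) (Idx r × Idx r) ℂ) :
    Matrix (Fin (m + 1) → Idx r) (Fin (m + 1) → Idx r) ℂ := fun u s =>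
  if ∀ j, j ≠ k.castSucc → j ≠ k.succ → u j = s j then
    A (u k.castSucc, u k.succ) (s k.castSucc, s k.succ) else 0

/-- The action of a braid word on the `(m + 1)`-fold tensor products: a positive crossing acts by
the braiding, a negative one by its inverse, and the first letter of the word acts first. -/
def braidAct {m : ℕ} (w : List (Fin m × Bool)) :
    Matrix (Fin (m + 1) → Idx r) (Fin (m + 1) → Idx r) ℂ :=
  w.foldl (fun A l => actAt r l.1 (if l.2 then braiding r else (braiding r)⁻¹) * A) 1

/-- The weight of a basis vector `s` of `V_a` in the surgery formula for a component of framing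
`f`: the product of `√(2/r) sin(π/r) [a]` (the normalised quantum dimension), of
`θ_a ^ f = t^{(a² - 1) f}` (the framing) and of the eigenvalue `t^{2 wt(s)}` of `K` (the quantum
trace). -/
def strandWeight (f : ℤ) (s : Idx r) : ℂ :=
  (Real.sqrt (2 / r) * Real.sin (Real.pi / r) : ℝ) * qint r s.dim *
    tt r ^ (((s.dim : ℤ) ^ 2 - 1) * f) * tt r ^ (2 * s.wt)

/-- The Witten-Reshetikhin-Turaev invariant `τ_r` of the closed oriented 3-manifold presented by
`β`, for the group `SU(2)` at level `k = r - 2`, normalised by `τ_r(S³) = 1`: with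
`b = √(2/r) sin(π/r)` and `c = exp(-3πi(r-2)/4r)`, it is
`c^σ b^n ∑ [a_1] ⋯ [a_n] J(a_1, ..., a_n)`,
the sum over all colours `1 ≤ a_i ≤ r - 1` of the `n = m + 1` components, where `σ` is the
signature of the linking matrix and `J` is the coloured invariant of the framed link (quantum
trace of the action of the braid). The sum over the colours and over the bases of the modules is
one sum over the functions `s : Fin (m + 1) → Idx r`. -/
def tau (β : FramedPureBraid) : ℂ :=
  Complex.exp (-(3 * Real.pi * Complex.I * (r - 2) / (4 * r)) * β.signature) *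
    ∑ s : Fin (β.m + 1) → Idx r,
      (∏ i, strandWeight r (β.framing i) (s i)) * braidAct r β.word s s

/-- `S¹ × S²` is presented by the unknot with framing `0`. -/
def S1S2 : FramedPureBraid where
  m := 0
  word := []
  pure := rfl
  framing := fun _ => 0

/-- The normalised invariant `Z_k(M) = τ_r(M) / τ_r(S¹ × S²)`, where `r = k + 2`. -/
def ZZ (k : ℕ) (β : FramedPureBraid) : ℂ := tau (k + 2) β / tau (k + 2) S1S2

end Quantum

end

end Pool.Agent.Helper64.WRT
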