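import Pool.Agent.Helper64.WRT.Cocycle

namespace Pool.Agent.Helper64.WRT

noncomputable section

open groupCohomology Module Matrix

theorem rel_ab : gb * gb * ga * (gb * gb) = ga := by
  have h := gab
  have e : gb * gb * ga * (gb * gb) = gb ^ 2 * (ga * gb ^ 2 * ga⁻¹) * ga := by
    rw [pow_two]; group
  rw [e, h, mul_inv_cancel, one_mul]

theorem rel_ba : ga * ga * gb * (ga * ga) = gb := by
  have h := gba
  have e : ga * ga * gb * (ga * ga) = ga ^ 2 * (gb * ga ^ 2 * gb⁻¹) * gb := by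
    rw [pow_two]; group
  rw [e, h, mul_inv_cancel, one_mul]

variable {ρ : HW.π₁ →* SU2}

/-- evaluation of cocycles on the two generators -/
def ev (ρ : HW.π₁ →* SU2) : Z1 ρ →ₗ[ℝ] su2 × su2 where
  toFun f := (f.1 ga, f.1 gb)
  map_add' _ _ := rfl
  map_smul' _ _ := rfl

theorem Z1_one {f : HW.π₁ → su2} (hf : f ∈ Z1 ρ) : f 1 = 0 := by
  have h := (mem_Z1_iff f).1 hf 1 1
  rw [mul_one, map_one, map_one] at h
  have h2 : f 1 = f 1 + f 1 := h
  exact left_eq_add.mp h2

theorem ev_inj : Function.Injective (ev ρ) := by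
  rw [injective_iff_map_eq_zero]
  rintro ⟨f, hf⟩ h
  have ha : f ga = 0 := congrArg Prod.fst h
  have hb : f gb = 0 := congrArg Prod.snd h
  have hmul := (mem_Z1_iff f).1 hf
  let H : Subgroup HW.π₁ :=
    { carrier := {x | f x = 0}
      mul_mem' := by
        intro x y hx hy
        change f (x * y) = 0
        rw [hmul, show f x = 0 from hx, show f y = 0 from hy, map_zero, add_zero]
      one_mem' := Z1_one hf
      inv_mem' := by
        intro x hx
        change f x⁻¹ = 0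
        have h1 := hmul x⁻¹ x
        rw [inv_mul_cancel, Z1_one hf, show f x = 0 from hx, map_zero, zero_add] at h1
        exact h1.symm }
  apply Subtype.ext
  funext x
  exact closure_ga_gb H ha hb x

instance : FiniteDimensional ℝ (Z1 ρ) := FiniteDimensional.of_injective (ev ρ) ev_inj

theorem hdim_sub : (hdim 1 ρ : ℤ) - hdim 0 ρ = (finrank ℝ (Z1 ρ) : ℤ) - 3 := by
  have : FiniteDimensional ℝ (Rep.of (adRep ρ)) := inferInstanceAs (FiniteDimensional ℝ su2)
  have : FiniteDimensional ℝ (cocycles₁ (Rep.of (adRep ρ))) :=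
    inferInstanceAs (FiniteDimensional ℝ (Z1 ρ))
  have h1 := finrank_H1_add (Rep.of (adRep ρ))
  have h2 := finrank_B1_add (Rep.of (adRep ρ))
  have h3 : finrank ℝ (Rep.of (adRep ρ)) = 3 := finrank_su2
  rw [h3] at h2
  have h4 : finrank ℝ (cocycles₁ (Rep.of (adRep ρ))) = finrank ℝ (Z1 ρ) := rfl
  rw [h4] at h1
  change (finrank ℝ (groupCohomology (Rep.of (adRep ρ)) 1) : ℤ) -
    finrank ℝ (groupCohomology (Rep.of (adRep ρ)) 0) = _
  omega

/-- the functional `(A, B) ↦ Re tr(A p) + Re tr(B q)` -/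
def Lf (p q : M2) : su2 × su2 →ₗ[ℝ] ℝ where
  toFun v := ((v.1 : M2) * p).trace.re + ((v.2 : M2) * q).trace.re
  map_add' v w := by simp [Matrix.add_mul]; ring
  map_smul' c v := by simp; ring

theorem Lf_apply (p q : M2) (X Y : su2) :
    Lf p q (X, Y) = ((X : M2) * p).trace.re + ((Y : M2) * q).trace.re := rfl

theorem finrank_le_four (L₁ L₂ : su2 × su2 →ₗ[ℝ] ℝ) (v₁ v₂ : su2 × su2) (h11 : L₁ v₁ ≠ 0)
    (h12 : L₁ v₂ = 0) (h22 : L₂ v₂ ≠ 0) (h : ∀ f : Z1 ρ, L₁ (ev ρ f) = 0 ∧ L₂ (ev ρ f) = 0) :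
    finrank ℝ (Z1 ρ) ≤ 4 := by
  have h1 : finrank ℝ (LinearMap.range (ev ρ)) = finrank ℝ (Z1 ρ) :=
    LinearMap.finrank_range_of_inj ev_inj
  rw [← h1, ← finrank_ker_two L₁ L₂ v₁ v₂ h11 h12 h22]
  apply Submodule.finrank_mono
  rintro _ ⟨f, rfl⟩
  rw [LinearMap.mem_ker]
  exact Prod.ext (h f).1 (h f).2

/-- the exceptional (singular) representations -/
def PType (ρ : HW.π₁ →* SU2) : Prop :=
  (ρ ga : M2).trace = 0 ∧ (ρ gb : M2).trace = 0 ∧ ((ρ ga : M2) * (ρ gb : M2)).trace = 0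

theorem sq_neg_one {g : SU2} (h : (g : M2).trace = 0) : (g : M2) * (g : M2) = -1 := by
  rw [SU2.sq, h, zero_smul, zero_sub]

theorem trace_sq_re {g : SU2} (h : (g : M2).trace = 0) :
    ((g : M2) * (g : M2)).trace.re = -2 := by
  rw [sq_neg_one h]; simp

theorem SU2.ne_zero (g : SU2) : (g : M2) ≠ 0 := by
  intro h
  have := SU2.mul_conj g
  rw [h, Matrix.zero_mul] at this
  exact zero_ne_one this

/-- from `bab = a` -/
theorem anti {a b : SU2} (h : (b : M2) * a * b = a) :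
    (a : M2) * b + (b : M2) * a = (b : M2).trace • (a : M2) := by
  have h1 : (a : M2) * b = (b : M2)ᴴ * a := by
    calc (a : M2) * b = ((b : M2)ᴴ * b) * a * b := by rw [SU2.coe_inv_mul, Matrix.one_mul]
      _ = (b : M2)ᴴ * ((b : M2) * a * b) := by simp only [Matrix.mul_assoc]
      _ = _ := by rw [h]
  rw [h1, SU2.adj, Matrix.sub_mul, Matrix.smul_mul, Matrix.one_mul]
  abel

theorem case1 (ha : (ρ ga : M2).trace = 0) (hb : (ρ gb : M2).trace = 0)
    (hab : ((ρ ga : M2) * (ρ gb : M2)).trace ≠ 0) (f : Z1 ρ) :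
    (FF f.1 ρ ga).trace = 0 ∧ (FF f.1 ρ gb).trace = 0 := by
  have hp := pol ha (ρ gb : M2)
  rw [hb, zero_smul, zero_add] at hp
  have hne : (ρ ga : M2) * (ρ gb : M2) + (ρ gb : M2) * (ρ ga : M2) ≠ 0 := by
    rw [hp]
    exact smul_ne_zero hab one_ne_zero
  constructor
  · have h := K1 f.2 rel_ba ha
    rw [add_comm ((ρ gb : M2) * (ρ ga : M2))] at h
    exact (smul_eq_zero.mp h).resolve_right hne
  · have h := K1 f.2 rel_ab hb
    exact (smul_eq_zero.mp h).resolve_right hne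

theorem case1_le (ha : (ρ ga : M2).trace = 0) (hb : (ρ gb : M2).trace = 0)
    (hab : ((ρ ga : M2) * (ρ gb : M2)).trace ≠ 0) : finrank ℝ (Z1 ρ) ≤ 4 := by
  refine finrank_le_four (Lf (ρ ga) 0) (Lf 0 (ρ gb)) (⟨_, SU2.mem_su2 ha⟩, 0)
    (0, ⟨_, SU2.mem_su2 hb⟩) ?_ ?_ ?_ ?_
  · rw [Lf_apply, trace_sq_re ha]; simp
  · rw [Lf_apply]; simp
  · rw [Lf_apply, trace_sq_re hb]; simp
  · intro f
    obtain ⟨h1, h2⟩ := case1 ha hb hab f
    constructor
    · change ((f.1 ga : M2) * (ρ ga : M2)).trace.re + ((f.1 gb : M2) * 0).trace.re = 0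
      rw [show ((f.1 ga : M2) * (ρ ga : M2)).trace = 0 from h1]; simp
    · change ((f.1 ga : M2) * 0).trace.re + ((f.1 gb : M2) * (ρ gb : M2)).trace.re = 0
      rw [show ((f.1 gb : M2) * (ρ gb : M2)).trace = 0 from h2]; simp

/-- the trace identity behind case 2 -/
theorem trace_id {a b X Y : M2} (t : ℂ) (hb : b * b = t • b - 1)
    (hbab : b * a * b = a) (hX : (X * a).trace = 0)
    (h : (Y * b * a + b * (X * a)) * b + b * a * (Y * b) = X * a) (ht : t ≠ 0) :
    (X * (a * b)).trace + (Y * (b * a)).trace = 0 := by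
  have h1 := congrArg Matrix.trace h
  rw [hX, Matrix.trace_add, Matrix.add_mul, Matrix.trace_add] at h1
  have e1 : Y * b * a * b = Y * a := by
    calc Y * b * a * b = Y * (b * a * b) := by simp only [Matrix.mul_assoc]
      _ = _ := by rw [hbab]
  have e2 : (b * (X * a) * b).trace = t * (X * (a * b)).trace := by
    rw [Matrix.mul_assoc, Matrix.trace_mul_comm]
    have : X * a * b * b = t • (X * (a * b)) - X * a := by
      calc X * a * b * b = X * a * (b * b) := by simp only [Matrix.mul_assoc]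
        _ = _ := by
          rw [hb, Matrix.mul_sub, Matrix.mul_smul, Matrix.mul_one, Matrix.mul_assoc]
    rw [this, Matrix.trace_sub, hX, Matrix.trace_smul, sub_zero, smul_eq_mul]
  have e3 : (b * a * (Y * b)).trace = t * (Y * (b * a)).trace - (Y * a).trace := by
    rw [Matrix.trace_mul_comm]
    have : Y * b * (b * a) = t • (Y * (b * a)) - Y * a := by
      calc Y * b * (b * a) = Y * (b * b) * a := by simp only [Matrix.mul_assoc]
        _ = _ := by
          rw [hb, Matrix.mul_sub, Matrix.mul_smul, Matrix.mul_one, Matrix.sub_mul,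
            Matrix.smul_mul, Matrix.mul_assoc]
    rw [this, Matrix.trace_sub, Matrix.trace_smul, smul_eq_mul]
  rw [e1, e2, e3] at h1
  have h2 : t * ((X * (a * b)).trace + (Y * (b * a)).trace) = 0 := by
    linear_combination h1
  exact (mul_eq_zero.mp h2).resolve_left ht

theorem anti_trace {a b : SU2} (h : (b : M2) * a * b = a) (ha : (a : M2).trace = 0) :
    ((a : M2) * b).trace = 0 := by
  have h1 := anti h
  have h2 := pol ha (b : M2)
  rw [h1] at h2
  have h3 : ((a : M2) * b).trace • (1 : M2) = 0 := left_eq_add.mp h2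
  exact (smul_eq_zero.mp h3).resolve_right one_ne_zero

/-- general form of case 2, for `x, y` either order -/
theorem case2 {x y : HW.π₁} (h1 : y * y * x * (y * y) = x) (h2 : x * x * y * (x * x) = y)
    (hx : (ρ x : M2).trace = 0) (hy : (ρ y : M2).trace ≠ 0) (f : Z1 ρ) :
    (FF f.1 ρ x).trace = 0 ∧ ((f.1 x : M2) * ((ρ x : M2) * (ρ y : M2))).trace +
      ((f.1 y : M2) * ((ρ y : M2) * (ρ x : M2))).trace = 0 := by
  have hbab := K2a (ρ := ρ) h1 hy
  have hanti := anti hbab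
  have hX : (FF f.1 ρ x).trace = 0 := by
    have h := K1 f.2 h2 hx
    rw [add_comm ((ρ y : M2) * (ρ x : M2)), hanti] at h
    exact (smul_eq_zero.mp h).resolve_right (smul_ne_zero hy (SU2.ne_zero _))
  refine ⟨hX, ?_⟩
  have h := K2b f.2 h1 hy
  rw [FF_mul f.2, FF_mul f.2 y, map_mul, Submonoid.coe_mul] at h
  exact trace_id _ (SU2.sq (ρ y)) hbab hX (by rw [FF, FF] at h; exact h) hy

theorem case2_le (ha : (ρ ga : M2).trace = 0) (hb : (ρ gb : M2).trace ≠ 0) :
    finrank ℝ (Z1 ρ) ≤ 4 := by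
  have hab := anti_trace (K2a (ρ := ρ) rel_ab hb) ha
  have hba : ((ρ gb * ρ ga : SU2) : M2).trace = 0 := by
    rw [Submonoid.coe_mul, Matrix.trace_mul_comm, hab]
  refine finrank_le_four (Lf (ρ ga) 0) (Lf ((ρ ga : M2) * ρ gb) ((ρ gb : M2) * ρ ga))
    (⟨_, SU2.mem_su2 ha⟩, 0) (0, ⟨_, SU2.mem_su2 hba⟩) ?_ ?_ ?_ ?_
  · rw [Lf_apply, trace_sq_re ha]; simp
  · rw [Lf_apply]; simp
  · rw [Lf_apply]
    have := trace_sq_re hba
    rw [Submonoid.coe_mul] at this
    change (((0 : su2) : M2) * _).trace.re + (((ρ gb * ρ ga : SU2) : M2) * _).trace.re ≠ 0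
    rw [Submonoid.coe_mul, this]; simp
  · intro f
    obtain ⟨h1, h2⟩ := case2 rel_ab rel_ba ha hb f
    constructor
    · change ((f.1 ga : M2) * (ρ ga : M2)).trace.re + ((f.1 gb : M2) * 0).trace.re = 0
      rw [show ((f.1 ga : M2) * (ρ ga : M2)).trace = 0 from h1]; simp
    · change ((f.1 ga : M2) * ((ρ ga : M2) * ρ gb)).trace.re +
        ((f.1 gb : M2) * ((ρ gb : M2) * ρ ga)).trace.re = 0
      rw [← Complex.add_re, h2]; simp

theorem case3_le (ha : (ρ ga : M2).trace ≠ 0) (hb : (ρ gb : M2).trace = 0) :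
    finrank ℝ (Z1 ρ) ≤ 4 := by
  have hba := anti_trace (K2a (ρ := ρ) rel_ba ha) hb
  have hab : ((ρ ga * ρ gb : SU2) : M2).trace = 0 := by
    rw [Submonoid.coe_mul, Matrix.trace_mul_comm, hba]
  refine finrank_le_four (Lf 0 (ρ gb)) (Lf ((ρ ga : M2) * ρ gb) ((ρ gb : M2) * ρ ga))
    (0, ⟨_, SU2.mem_su2 hb⟩) (⟨_, SU2.mem_su2 hab⟩, 0) ?_ ?_ ?_ ?_
  · rw [Lf_apply, trace_sq_re hb]; simp
  · rw [Lf_apply]; simp
  · rw [Lf_apply]
    have := trace_sq_re hab
    rw [Submonoid.coe_mul] at this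
    change (((ρ ga * ρ gb : SU2) : M2) * _).trace.re + (((0 : su2) : M2) * _).trace.re ≠ 0
    rw [Submonoid.coe_mul, this]; simp
  · intro f
    obtain ⟨h1, h2⟩ := case2 rel_ba rel_ab hb ha f
    constructor
    · change ((f.1 ga : M2) * 0).trace.re + ((f.1 gb : M2) * (ρ gb : M2)).trace.re = 0
      rw [show ((f.1 gb : M2) * (ρ gb : M2)).trace = 0 from h1]; simp
    · change ((f.1 ga : M2) * ((ρ ga : M2) * ρ gb)).trace.re +
        ((f.1 gb : M2) * ((ρ gb : M2) * ρ ga)).trace.re = 0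
      rw [← Complex.add_re, add_comm, h2]; simp

/-- if both traces are nonzero, both generators go to the centre -/
theorem central {a b : SU2} (h1 : (b : M2) * a * b = a) (h2 : (a : M2) * b * a = b)
    (ha : (a : M2).trace ≠ 0) (hb : (b : M2).trace ≠ 0) :
    (b : M2) * b = 1 ∧ (b : M2) = (2 / (b : M2).trace) • (1 : M2) := by
  have e1 := anti h1
  have e2 := anti h2
  rw [add_comm, e1] at e2
  have e3 : (b : M2).trace • ((b : M2) * a * b) = (b : M2).trace • (a : M2) := by rw [h1]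
  have e4 : (b : M2).trace • ((b : M2) * a * b) = (b : M2) * ((b : M2).trace • (a : M2)) * b := by
    rw [Matrix.mul_smul, Matrix.smul_mul]
  rw [e4, e2, Matrix.mul_smul, Matrix.smul_mul] at e3
  have e5 : (b : M2) * b * b = b := smul_right_injective M2 ha e3
  have e6 : (b : M2) * b = 1 := by
    calc (b : M2) * b = (b : M2) * b * (b * (b : M2)ᴴ) := by rw [SU2.mul_conj, Matrix.mul_one]
      _ = ((b : M2) * b * b) * (b : M2)ᴴ := by simp only [Matrix.mul_assoc]
      _ = 1 := by rw [e5, SU2.mul_conj]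
  refine ⟨e6, ?_⟩
  have e7 := SU2.sq b
  rw [e6] at e7
  have e8 : (b : M2).trace • (b : M2) = (2 : ℂ) • (1 : M2) := by
    rw [eq_sub_iff_add_eq] at e7
    rw [← e7]; module
  calc (b : M2) = (b : M2).trace⁻¹ • ((b : M2).trace • (b : M2)) := by
        rw [smul_smul, inv_mul_cancel₀ hb, one_smul]
    _ = _ := by rw [e8, smul_smul]; congr 1; field_simp

theorem case4_zero {x y : HW.π₁} (h1 : y * y * x * (y * y) = x) (h2 : x * x * y * (x * x) = y)
    (hx : (ρ x : M2).trace ≠ 0) (hy : (ρ y : M2).trace ≠ 0) (f : Z1 ρ) : f.1 y = 0 := by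
  have k1 := K2a (ρ := ρ) h1 hy
  have k2 := K2a (ρ := ρ) h2 hx
  obtain ⟨b1, b2⟩ := central k1 k2 hx hy
  obtain ⟨a1, a2⟩ := central k2 k1 hy hx
  have h := K2b f.2 h1 hy
  rw [FF_mul f.2, FF_mul f.2 y, map_mul, Submonoid.coe_mul] at h
  have e1 : (ρ y : M2) * FF f.1 ρ x * (ρ y : M2) = FF f.1 ρ x := by
    have : (ρ y : M2) * FF f.1 ρ x = FF f.1 ρ x * (ρ y : M2) := by
      rw [b2]; simp
    rw [this, Matrix.mul_assoc, b1, Matrix.mul_one]
  rw [Matrix.add_mul, e1] at h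
  have e2 : (ρ y : M2) * (ρ x : M2) * FF f.1 ρ y = FF f.1 ρ y * (ρ x : M2) * (ρ y : M2) := by
    rw [a2, b2]; simp [smul_smul, mul_comm]
  rw [e2] at h
  have e3 : (2 : ℂ) • (FF f.1 ρ y * (ρ x : M2) * (ρ y : M2)) = 0 := by
    have : (2 : ℂ) • (FF f.1 ρ y * (ρ x : M2) * (ρ y : M2)) =
      (FF f.1 ρ y * (ρ x : M2) * (ρ y : M2) + FF f.1 ρ x +
        FF f.1 ρ y * (ρ x : M2) * (ρ y : M2)) - FF f.1 ρ x := by module
    rw [this, h, sub_self]
  have e4 := (smul_eq_zero.mp e3).resolve_left two_ne_zero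
  have e5 : (f.1 y : M2) = 0 := by
    calc (f.1 y : M2) = (FF f.1 ρ y * (ρ x : M2) * (ρ y : M2)) * (ρ y : M2)ᴴ * (ρ x : M2)ᴴ *
          (ρ y : M2)ᴴ := by
          rw [Matrix.mul_assoc (FF f.1 ρ y * (ρ x : M2)), SU2.mul_conj, Matrix.mul_one,
            Matrix.mul_assoc (FF f.1 ρ y), SU2.mul_conj, Matrix.mul_one, FF, Matrix.mul_assoc,
            SU2.mul_conj, Matrix.mul_one]
      _ = 0 := by rw [e4]; simp
  exact Subtype.ext e5

/-- **The upper bound**: away from the exceptional representations there is at most a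
four-dimensional space of cocycles. -/
theorem finrank_Z1_le (h : ¬ PType ρ) : finrank ℝ (Z1 ρ) ≤ 4 := by
  by_cases ha : (ρ ga : M2).trace = 0
  · by_cases hb : (ρ gb : M2).trace = 0
    · exact case1_le ha hb fun hab => h ⟨ha, hb, hab⟩
    · exact case2_le ha hb
  · by_cases hb : (ρ gb : M2).trace = 0
    · exact case3_le ha hb
    · have : ∀ f : Z1 ρ, f = 0 := fun f => by
        apply ev_inj (ρ := ρ)
        rw [map_zero]
        exact Prod.ext (case4_zero rel_ba rel_ab hb ha f) (case4_zero rel_ab rel_ba ha hb f)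
      have hs : Subsingleton (Z1 ρ) := ⟨fun f g => by rw [this f, this g]⟩
      rw [finrank_zero_of_subsingleton]
      norm_num

end

end Pool.Agent.Helper64.WRT
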