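import Pool.Agent.Helper64.WRT.Trace

open scoped Matrix Kronecker

namespace Pool.Agent.Helper64.WRT

noncomputable section

/-- The Hantzsche-Wendt manifold: surgery on a tree of six unknots, consecutive ones forming Hopf
links. -/
def HW : FramedPureBraid where
  m := 5
  word := [(1, true), (2, true), (2, true), (1, true), (0, true), (0, true),
    (3, true), (4, true), (4, true), (3, true)]
  pure := by decide
  framing := ![2, 0, -2, 0, 2, -2]

section

variable {r : ℕ}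

/-- vertex weight -/
def vw (f : ℤ) (c : Fin (r - 1)) : ℂ :=
  (Real.sqrt (2 / r) * Real.sin (Real.pi / r) : ℝ) * qint r ((c : ℕ) + 1 : ℤ) *
    tt r ^ ((((c : ℕ) + 1 : ℤ) ^ 2 - 1) * f)

theorem strandWeight_eq (f : ℤ) (s : Idx r) : strandWeight r f s = vw f s.1 * qq r ^ s.wt := by
  rw [strandWeight, vw, tt_zpow_two_mul, Idx.dim_eq]

theorem braidAct_HW : braidAct r HW.word =
    (sig 3 * sig 4 * sig 4 * sig 3 * sig 0 * sig 0 * sig 1 * sig 2 * sig 2 * sig 1 : Op r 5) := by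
  have : (braidAct r (m := 5) [(1, true), (2, true), (2, true), (1, true), (0, true), (0, true),
    (3, true), (4, true), (4, true), (3, true)] : Op r 5) =
    (sig 3 * sig 4 * sig 4 * sig 3 * sig 0 * sig 0 * sig 1 * sig 2 * sig 2 * sig 1 : Op r 5) := by
    simp only [braidAct, List.foldl_cons, List.foldl_nil, if_true, Matrix.mul_one,
      Matrix.mul_assoc, sig]
  exact this

variable (r) in
/-- the encircling eigenvalue as a function of the colour -/
def Lv (ψ : Fin (r - 1) → ℂ) : Fin (r - 1) → ℂ := fun c => ringVal r ψ ((c : ℕ) + 1)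

variable (r) in
/-- the accumulated weight of the strand `3` -/
def phi3 : Fin (r - 1) → ℂ := fun c => vw 0 c * Lv r (vw (-2)) c * Lv r (vw 2) c

variable (r) in
/-- the accumulated weight of the strand `1` -/
def phi1 : Fin (r - 1) → ℂ := fun c => vw 0 c * Lv r (phi3 r) c * Lv r (vw (-2)) c

variable (r) in
/-- the accumulated weight of the strand `0` -/
def phi0 : Fin (r - 1) → ℂ := fun c => vw 2 c * Lv r (phi1 r) c

theorem step5 (hr : 2 ≤ r) (w0 w1 w2 w3 w4 w5 : Fin (r - 1) → ℂ) :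
    wtr r (n := 5) ![w0, w1, w2, w3, w4, w5]
        (sig 3 * sig 4 * sig 4 * sig 3 * sig 0 * sig 0 * sig 1 * sig 2 * sig 2 * sig 1) =
      wtr r (n := 4) ![w0, w1, w2, fun c => w3 c * Lv r w5 c, w4]
        (sig 3 * sig 3 * sig 0 * sig 0 * sig 1 * sig 2 * sig 2 * sig 1) := by
  have h1 : (sig 3 * sig 4 * sig 4 * sig 3 * sig 0 * sig 0 * sig 1 * sig 2 * sig 2 * sig 1 : Op r 5) =
      up (sig 3) * (sig (Fin.last 4) * sig (Fin.last 4)) *
        up (sig 3 * sig 0 * sig 0 * sig 1 * sig 2 * sig 2 * sig 1 : Op r 4) := by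
    simp only [up_mul, up_sig, Matrix.mul_assoc]
    rfl
  have h2 : ∀ l : Fin (r - 1) → ℂ, (sig 3 * diagAt (Fin.last 4) l *
      (sig 3 * sig 0 * sig 0 * sig 1 * sig 2 * sig 2 * sig 1) : Op r 4) =
      diagAt 3 l * (sig 3 * sig 3 * sig 0 * sig 0 * sig 1 * sig 2 * sig 2 * sig 1) := by
    intro l
    have e : Equiv.swap (Fin.castSucc (3 : Fin 4)) (Fin.succ (3 : Fin 4)) (Fin.last 4) = 3 := by
      decide
    rw [sig_diagAt, e]
    simp only [Matrix.mul_assoc]
  rw [h1, peel hr, h2, wtr_diagAt]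
  congr 1
  funext i
  fin_cases i <;> rfl

theorem step4 (hr : 2 ≤ r) (w0 w1 w2 w3 w4 : Fin (r - 1) → ℂ) :
    wtr r (n := 4) ![w0, w1, w2, w3, w4]
        (sig 3 * sig 3 * sig 0 * sig 0 * sig 1 * sig 2 * sig 2 * sig 1) =
      wtr r (n := 3) ![w0, w1, w2, fun c => w3 c * Lv r w4 c]
        (sig 0 * sig 0 * sig 1 * sig 2 * sig 2 * sig 1) := by
  have h1 : (sig 3 * sig 3 * sig 0 * sig 0 * sig 1 * sig 2 * sig 2 * sig 1 : Op r 4) =
      up 1 * (sig (Fin.last 3) * sig (Fin.last 3)) *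
        up (sig 0 * sig 0 * sig 1 * sig 2 * sig 2 * sig 1 : Op r 3) := by
    rw [up_one, Matrix.one_mul]
    simp only [up_mul, up_sig, Matrix.mul_assoc]
    rfl
  rw [h1, peel hr, Matrix.one_mul]
  have h2 : (Fin.last 3 : Fin 4) = 3 := rfl
  rw [h2, wtr_diagAt]
  congr 1
  funext i
  fin_cases i <;> rfl

theorem step3 (hr : 2 ≤ r) (w0 w1 w2 w3 : Fin (r - 1) → ℂ) :
    wtr r (n := 3) ![w0, w1, w2, w3]
        (sig 0 * sig 0 * sig 1 * sig 2 * sig 2 * sig 1) =
      wtr r (n := 2) ![w0, fun c => w1 c * Lv r w3 c, w2]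
        (sig 0 * sig 0 * sig 1 * sig 1) := by
  have h1 : (sig 0 * sig 0 * sig 1 * sig 2 * sig 2 * sig 1 : Op r 3) =
      up (sig 0 * sig 0 * sig 1) * (sig (Fin.last 2) * sig (Fin.last 2)) *
        up (sig 1 : Op r 2) := by
    simp only [up_mul, up_sig, Matrix.mul_assoc]
    rfl
  have h2 : ∀ l : Fin (r - 1) → ℂ, (sig 0 * sig 0 * sig 1 * diagAt (Fin.last 2) l * sig 1 : Op r 2) =
      diagAt 1 l * (sig 0 * sig 0 * sig 1 * sig 1) := by
    intro l
    have e1 : Equiv.swap (Fin.castSucc (1 : Fin 2)) (Fin.succ (1 : Fin 2)) (Fin.last 2) = 1 := by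
      decide
    have e2 : Equiv.swap (Fin.castSucc (0 : Fin 2)) (Fin.succ (0 : Fin 2)) 1 = 0 := by
      decide
    have e3 : Equiv.swap (Fin.castSucc (0 : Fin 2)) (Fin.succ (0 : Fin 2)) 0 = 1 := by
      decide
    rw [Matrix.mul_assoc (sig 0 * sig 0), sig_diagAt, e1, Matrix.mul_assoc (sig 0),
      ← Matrix.mul_assoc (sig 0) (diagAt 1 l), sig_diagAt, e2, ← Matrix.mul_assoc (sig 0),
      ← Matrix.mul_assoc (sig 0), sig_diagAt, e3]
    simp only [Matrix.mul_assoc]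
  rw [h1, peel hr, h2, wtr_diagAt]
  congr 1
  funext i
  fin_cases i <;> rfl

theorem step2 (hr : 2 ≤ r) (w0 w1 w2 : Fin (r - 1) → ℂ) :
    wtr r (n := 2) ![w0, w1, w2] (sig 0 * sig 0 * sig 1 * sig 1) =
      wtr r (n := 1) ![w0, fun c => w1 c * Lv r w2 c] (sig 0 * sig 0) := by
  have h1 : (sig 0 * sig 0 * sig 1 * sig 1 : Op r 2) =
      up (sig 0 * sig 0) * (sig (Fin.last 1) * sig (Fin.last 1)) * up (1 : Op r 1) := by
    rw [up_one, Matrix.mul_one]
    simp only [up_mul, up_sig, Matrix.mul_assoc]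
    rfl
  have h2 : ∀ l : Fin (r - 1) → ℂ, (sig 0 * sig 0 * diagAt (Fin.last 1) l * 1 : Op r 1) =
      diagAt 1 l * (sig 0 * sig 0) := by
    intro l
    have e2 : Equiv.swap (Fin.castSucc (0 : Fin 1)) (Fin.succ (0 : Fin 1)) (Fin.last 1) = 0 := by
      decide
    have e3 : Equiv.swap (Fin.castSucc (0 : Fin 1)) (Fin.succ (0 : Fin 1)) 0 = 1 := by
      decide
    rw [Matrix.mul_assoc (sig 0), sig_diagAt, e2, ← Matrix.mul_assoc (sig 0), sig_diagAt, e3,
      Matrix.mul_one, Matrix.mul_assoc]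
  rw [h1, peel hr, h2, wtr_diagAt]
  congr 1
  funext i
  fin_cases i <;> rfl

theorem step1 (hr : 2 ≤ r) (w0 w1 : Fin (r - 1) → ℂ) :
    wtr r (n := 1) ![w0, w1] (sig 0 * sig 0) =
      wtr r (n := 0) ![fun c => w0 c * Lv r w1 c] 1 := by
  have h1 : (sig 0 * sig 0 : Op r 1) =
      up (1 : Op r 0) * (sig (Fin.last 0) * sig (Fin.last 0)) * up (1 : Op r 0) := by
    rw [up_one, Matrix.mul_one, Matrix.one_mul]
    rfl
  rw [h1, peel hr, Matrix.one_mul, wtr_diagAt]
  congr 1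
  funext i
  fin_cases i; rfl

theorem step0 (w0 : Fin (r - 1) → ℂ) : wtr r (n := 0) ![w0] 1 = ringVal r w0 1 := by
  rw [wtr, ← (Equiv.funUnique (Fin 1) (Idx r)).symm.sum_comp, ringVal]
  refine Finset.sum_congr rfl fun y _ => ?_
  rw [Matrix.one_apply_eq, mul_one, one_mul, Fin.prod_univ_one]
  rfl

theorem HW_sum (hr : 2 ≤ r) :
    ∑ s : Fin (HW.m + 1) → Idx r,
      (∏ i, strandWeight r (HW.framing i) (s i)) * braidAct r HW.word s s =
      ringVal r (phi0 r) 1 := by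
  have h0 : ∑ s : Fin (HW.m + 1) → Idx r,
      (∏ i, strandWeight r (HW.framing i) (s i)) * braidAct r HW.word s s =
      wtr r (n := 5) ![vw 2, vw 0, vw (-2), vw 0, vw 2, vw (-2)]
        (sig 3 * sig 4 * sig 4 * sig 3 * sig 0 * sig 0 * sig 1 * sig 2 * sig 2 * sig 1) := by
    rw [braidAct_HW, wtr]
    refine Finset.sum_congr rfl fun s _ => ?_
    congr 1
    refine Finset.prod_congr rfl fun i _ => ?_
    rw [strandWeight_eq]
    fin_cases i <;> rfl
  rw [h0, step5 hr, step4 hr, step3 hr, step2 hr, step1 hr, step0]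
  rfl

end

end

end Pool.Agent.Helper64.WRT
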