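import Pool.Agent.Helper64.WRT.Dim

namespace Pool.Agent.Helper64.WRT

noncomputable section

open groupCohomology Module Matrix

/-! ### The tangent group of SU(2) -/

/-- The semidirect product of su(2) and SU(2). -/
@[ext] structure Aff where
  /-- translation part -/
  v : su2
  /-- linear part -/
  g : SU2

namespace Aff

instance : Mul Aff := ⟨fun x y => ⟨x.v + Ad x.g y.v, x.g * y.g⟩⟩
instance : One Aff := ⟨⟨0, 1⟩⟩
instance : Inv Aff := ⟨fun x => ⟨-Ad x.g⁻¹ x.v, x.g⁻¹⟩⟩

theorem mul_v (x y : Aff) : (x * y).v = x.v + Ad x.g y.v := rfl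
theorem mul_g (x y : Aff) : (x * y).g = x.g * y.g := rfl
theorem one_v : (1 : Aff).v = 0 := rfl
theorem one_g : (1 : Aff).g = 1 := rfl
theorem inv_v (x : Aff) : (x⁻¹).v = -Ad x.g⁻¹ x.v := rfl
theorem inv_g (x : Aff) : (x⁻¹).g = x.g⁻¹ := rfl

instance : Group Aff := Group.ofLeftAxioms
  (fun x y z => by
    apply Aff.ext
    · simp only [mul_v, mul_g, map_add, map_mul]
      rw [add_assoc]; rfl
    · simp only [mul_g, mul_assoc])
  (fun x => by
    apply Aff.ext
    · simp [mul_v, one_v, one_g]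
    · simp [mul_g, one_g])
  (fun x => by
    apply Aff.ext
    · simp [mul_v, one_v, inv_v, inv_g]
    · simp [mul_g, one_g, inv_g])

/-- projection to SU(2) -/
def proj : Aff →* SU2 where
  toFun x := x.g
  map_one' := rfl
  map_mul' _ _ := rfl

end Aff

theorem rel_of_sq {G : Type*} [Group G] {x y : G} (h : x ^ 2 = y ^ 2) (h4 : x ^ 2 * x ^ 2 = 1) :
    x * y ^ 2 * x⁻¹ = (y ^ 2)⁻¹ := by
  rw [← h]
  have : x * x ^ 2 * x⁻¹ = x ^ 2 := by rw [pow_two]; group
  rw [this]
  exact eq_inv_of_mul_eq_one_left h4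

theorem SU2.sq_sq {a : SU2} (ha : (a : M2).trace = 0) : a ^ 2 * a ^ 2 = 1 := by
  apply Subtype.ext
  rw [pow_two, Submonoid.coe_mul, Submonoid.coe_mul, sq_neg_one ha]
  simp

theorem SU2.sq_eq_sq {a b : SU2} (ha : (a : M2).trace = 0) (hb : (b : M2).trace = 0) :
    a ^ 2 = b ^ 2 := by
  apply Subtype.ext
  rw [pow_two, pow_two, Submonoid.coe_mul, Submonoid.coe_mul, sq_neg_one ha, sq_neg_one hb]

theorem Aff.sq_eq {a : SU2} {X : su2} (ha : (a : M2).trace = 0)
    (hX : ((X : M2) * (a : M2)).trace = 0) : (⟨X, a⟩ : Aff) ^ 2 = ⟨0, a ^ 2⟩ := by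
  rw [pow_two]
  apply Aff.ext
  · rw [Aff.mul_v]
    apply Subtype.ext
    change (X : M2) + (a : M2) * (X : M2) * (a : M2)ᴴ = 0
    rw [SU2.adj, ha, zero_smul, zero_sub, Matrix.mul_neg]
    have h := pol (su2_trace X) (a : M2)
    rw [ha, hX, zero_smul, zero_smul, add_zero] at h
    have h2 : (a : M2) * (X : M2) = - ((X : M2) * (a : M2)) := eq_neg_of_add_eq_zero_right h
    rw [h2, Matrix.neg_mul, Matrix.mul_assoc, sq_neg_one ha]
    simp
  · rw [Aff.mul_g, pow_two]

theorem Aff.sq_sq {a : SU2} (ha : (a : M2).trace = 0) :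
    (⟨0, a ^ 2⟩ : Aff) * ⟨0, a ^ 2⟩ = 1 := by
  apply Aff.ext
  · rw [Aff.mul_v, map_zero, add_zero]; rfl
  · rw [Aff.mul_g]; exact SU2.sq_sq ha

variable {ρ : HW.π₁ →* SU2}

/-- existence of cocycles -/
theorem exists_cocycle (ha : (ρ ga : M2).trace = 0) (hb : (ρ gb : M2).trace = 0) (X Y : su2)
    (hX : ((X : M2) * (ρ ga : M2)).trace = 0) (hY : ((Y : M2) * (ρ gb : M2)).trace = 0) :
    ∃ f : Z1 ρ, ev ρ f = (X, Y) := by
  have hs : (⟨X, ρ ga⟩ : Aff) ^ 2 = (⟨Y, ρ gb⟩ : Aff) ^ 2 := by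
    rw [Aff.sq_eq ha hX, Aff.sq_eq hb hY, SU2.sq_eq_sq ha hb]
  have h4 : (⟨X, ρ ga⟩ : Aff) ^ 2 * (⟨X, ρ ga⟩ : Aff) ^ 2 = 1 := by
    rw [Aff.sq_eq ha hX]; exact Aff.sq_sq ha
  have h4' : (⟨Y, ρ gb⟩ : Aff) ^ 2 * (⟨Y, ρ gb⟩ : Aff) ^ 2 = 1 := by rw [← hs]; exact h4
  let Φ : HW.π₁ →* Aff := homOf ⟨X, ρ ga⟩ ⟨Y, ρ gb⟩ (rel_of_sq hs h4) (rel_of_sq hs.symm h4')
  have h1 : Φ ga = ⟨X, ρ ga⟩ := homOf_ga _ _ _ _
  have h2 : Φ gb = ⟨Y, ρ gb⟩ := homOf_gb _ _ _ _
  have hproj : Aff.proj.comp Φ = ρ := by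
    apply hom_ext'
    · rw [MonoidHom.comp_apply, h1]; rfl
    · rw [MonoidHom.comp_apply, h2]; rfl
  refine ⟨⟨fun x => (Φ x).v, ?_⟩, ?_⟩
  · rw [mem_Z1_iff]
    intro x y
    have hx : (Φ x).g = ρ x := DFunLike.congr_fun hproj x
    rw [map_mul, Aff.mul_v, hx, add_comm]
  · change ((Φ ga).v, (Φ gb).v) = (X, Y)
    rw [h1, h2]

theorem case1_eq (ha : (ρ ga : M2).trace = 0) (hb : (ρ gb : M2).trace = 0)
    (hab : ((ρ ga : M2) * (ρ gb : M2)).trace ≠ 0) : finrank ℝ (Z1 ρ) = 4 := by
  have h1 : finrank ℝ (LinearMap.range (ev ρ)) = finrank ℝ (Z1 ρ) :=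
    LinearMap.finrank_range_of_inj ev_inj
  have hk : LinearMap.range (ev ρ) = LinearMap.ker ((Lf (ρ ga) 0).prod (Lf 0 (ρ gb))) := by
    ext ⟨X, Y⟩
    rw [LinearMap.mem_range, LinearMap.mem_ker]
    constructor
    · rintro ⟨f, hf⟩
      obtain ⟨h1, h2⟩ := case1 ha hb hab f
      have hX : f.1 ga = X := congrArg Prod.fst hf
      have hY : f.1 gb = Y := congrArg Prod.snd hf
      rw [FF, hX] at h1
      rw [FF, hY] at h2
      apply Prod.ext
      · change ((X : M2) * (ρ ga : M2)).trace.re + ((Y : M2) * 0).trace.re = 0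
        rw [h1]; simp
      · change ((X : M2) * 0).trace.re + ((Y : M2) * (ρ gb : M2)).trace.re = 0
        rw [h2]; simp
    · intro h
      have hX : ((X : M2) * (ρ ga : M2)).trace.re + ((Y : M2) * 0).trace.re = 0 :=
        congrArg Prod.fst h
      have hY : ((X : M2) * 0).trace.re + ((Y : M2) * (ρ gb : M2)).trace.re = 0 :=
        congrArg Prod.snd h
      rw [Matrix.mul_zero, Matrix.trace_zero, Complex.zero_re, add_zero] at hX
      rw [Matrix.mul_zero, Matrix.trace_zero, Complex.zero_re, zero_add] at hY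
      apply exists_cocycle ha hb X Y
      · exact Complex.ext hX (su2_mul_trace_im X _)
      · exact Complex.ext hY (su2_mul_trace_im Y _)
  rw [← h1, hk]
  refine finrank_ker_two (Lf (ρ ga) 0) (Lf 0 (ρ gb)) (⟨_, SU2.mem_su2 ha⟩, 0)
    (0, ⟨_, SU2.mem_su2 hb⟩) ?_ ?_ ?_
  · rw [Lf_apply, trace_sq_re ha]; simp
  · rw [Lf_apply]; simp
  · rw [Lf_apply, trace_sq_re hb]; simp

/-! ### deformation of the exceptional representations -/

/-- a rotation of `b` towards `a` -/
def rot (a b : SU2) (ha : (a : M2).trace = 0) (hb : (b : M2).trace = 0)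
    (hab : ((a : M2) * (b : M2)).trace = 0) (θ : ℝ) : SU2 :=
  ⟨Real.cos θ • (b : M2) + Real.sin θ • (a : M2), by
    have htr : (Real.cos θ • (b : M2) + Real.sin θ • (a : M2)).trace = 0 := by
      rw [Matrix.trace_add, Matrix.trace_smul, Matrix.trace_smul, ha, hb]; simp
    have hH : (Real.cos θ • (b : M2) + Real.sin θ • (a : M2))ᴴ =
        -(Real.cos θ • (b : M2) + Real.sin θ • (a : M2)) := by
      rw [Matrix.conjTranspose_add, Matrix.conjTranspose_smul, Matrix.conjTranspose_smul,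
        SU2.adj a, SU2.adj b, ha, hb]
      simp only [star_trivial, zero_smul, zero_sub, smul_neg, neg_add]
    have hsq : (Real.cos θ • (b : M2) + Real.sin θ • (a : M2)) *
        (Real.cos θ • (b : M2) + Real.sin θ • (a : M2)) = -1 := by
      have hanti := pol ha (b : M2)
      rw [hb, hab, zero_smul, zero_smul, add_zero] at hanti
      have e : (Real.cos θ • (b : M2) + Real.sin θ • (a : M2)) *
        (Real.cos θ • (b : M2) + Real.sin θ • (a : M2)) =
        (Real.cos θ * Real.cos θ) • ((b : M2) * (b : M2)) +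
        (Real.sin θ * Real.sin θ) • ((a : M2) * (a : M2)) +
        (Real.cos θ * Real.sin θ) • ((a : M2) * (b : M2) + (b : M2) * (a : M2)) := by
        simp only [Matrix.add_mul, Matrix.mul_add, Matrix.smul_mul, Matrix.mul_smul, smul_smul,
          smul_add]
        rw [mul_comm (Real.sin θ) (Real.cos θ)]
        abel
      rw [e, hanti, sq_neg_one ha, sq_neg_one hb, smul_zero, add_zero, ← add_smul]
      have : Real.cos θ * Real.cos θ + Real.sin θ * Real.sin θ = 1 := by
        have := Real.cos_sq_add_sin_sq θ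
        nlinarith
      rw [this, one_smul]
    rw [Matrix.mem_specialUnitaryGroup_iff]
    constructor
    · rw [Matrix.mem_unitaryGroup_iff, Matrix.star_eq_conjTranspose, hH, Matrix.mul_neg, hsq,
        neg_neg]
    · have h1 := Matrix.mul_adjugate (Real.cos θ • (b : M2) + Real.sin θ • (a : M2))
      rw [adj_eq, htr, zero_smul, zero_sub, Matrix.mul_neg, hsq, neg_neg] at h1
      have h2 := congrFun (congrFun h1 0) 0
      simp only [Matrix.one_apply_eq, Matrix.smul_apply, smul_eq_mul, mul_one] at h2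
      exact h2.symm⟩

section
variable {a b : SU2} (ha : (a : M2).trace = 0) (hb : (b : M2).trace = 0)
    (hab : ((a : M2) * (b : M2)).trace = 0)

theorem rot_coe (θ : ℝ) : (rot a b ha hb hab θ : M2) =
    Real.cos θ • (b : M2) + Real.sin θ • (a : M2) := rfl

theorem rot_zero : rot a b ha hb hab 0 = b := by
  apply Subtype.ext
  rw [rot_coe]; simp

theorem rot_trace (θ : ℝ) : (rot a b ha hb hab θ : M2).trace = 0 := by
  rw [rot_coe, Matrix.trace_add, Matrix.trace_smul, Matrix.trace_smul, ha, hb]; simp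

theorem rot_trace_mul (θ : ℝ) :
    ((a : M2) * (rot a b ha hb hab θ : M2)).trace = -2 * Real.sin θ := by
  rw [rot_coe, Matrix.mul_add, Matrix.mul_smul, Matrix.mul_smul, Matrix.trace_add,
    Matrix.trace_smul, Matrix.trace_smul, hab, sq_neg_one ha]
  simp; ring

theorem rot_continuous : Continuous (rot a b ha hb hab) := by
  apply Continuous.subtype_mk
  fun_prop

/-- the deformed representation -/
def rotRep (θ : ℝ) : HW.π₁ →* SU2 :=
  homOf a (rot a b ha hb hab θ) (rel_of_sq (SU2.sq_eq_sq ha (rot_trace ha hb hab θ)) (SU2.sq_sq ha))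
    (rel_of_sq (SU2.sq_eq_sq (rot_trace ha hb hab θ) ha) (SU2.sq_sq (rot_trace ha hb hab θ)))

theorem rotRep_ga (θ : ℝ) : rotRep ha hb hab θ ga = a := homOf_ga _ _ _ _
theorem rotRep_gb (θ : ℝ) : rotRep ha hb hab θ gb = rot a b ha hb hab θ := homOf_gb _ _ _ _

theorem SU2.continuous_inv : Continuous (fun g : SU2 => g⁻¹) := by
  apply Continuous.subtype_mk
  exact continuous_subtype_val.star

theorem rotRep_apply_continuous (x : HW.π₁) : Continuous (fun θ => rotRep ha hb hab θ x) := by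
  let H : Subgroup HW.π₁ :=
    { carrier := {x | Continuous (fun θ => rotRep ha hb hab θ x)}
      mul_mem' := by
        intro x y hx hy
        change Continuous (fun θ => rotRep ha hb hab θ (x * y))
        simp only [map_mul]
        exact Continuous.mul hx hy
      one_mem' := by
        change Continuous (fun θ => rotRep ha hb hab θ 1)
        simp only [map_one]
        exact continuous_const
      inv_mem' := by
        intro x hx
        change Continuous (fun θ => rotRep ha hb hab θ x⁻¹)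
        simp only [map_inv]
        exact SU2.continuous_inv.comp hx }
  refine closure_ga_gb H ?_ ?_ x
  · change Continuous (fun θ => rotRep ha hb hab θ ga)
    simp only [rotRep_ga]
    exact continuous_const
  · change Continuous (fun θ => rotRep ha hb hab θ gb)
    simp only [rotRep_gb]
    exact rot_continuous ha hb hab

theorem rotRep_continuous : Continuous (rotRep ha hb hab) := by
  rw [continuous_induced_rng]
  exact continuous_pi (rotRep_apply_continuous ha hb hab)

end

end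

end Pool.Agent.Helper64.WRT
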