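import Pool.Agent.Helper64.WRT.Eval

open scoped Matrix Kronecker

namespace Pool.Agent.Helper64.WRT

noncomputable section

section

variable (r : ℕ)

/-- `sin (π x / r)` -/
def sR (x : ℤ) : ℝ := Real.sin (Real.pi * x / r)

variable {r}

theorem qq_sub (hr : r ≠ 0) (n : ℤ) : qq r ^ n - qq r ^ (-n) = 2 * Complex.I * (sR r n : ℝ) :=
  qq_zpow_sub r hr n

theorem sR_pos (x : ℤ) (h0 : 0 < x) (h1 : x < r) : 0 < sR r x := by
  have hr0 : (0 : ℝ) < r := by
    have : (0 : ℤ) < r := by omega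
    exact_mod_cast this
  apply Real.sin_pos_of_pos_of_lt_pi
  · have : (0 : ℝ) < x := by exact_mod_cast h0
    positivity
  · rw [div_lt_iff₀ hr0]
    have : (x : ℝ) < r := by exact_mod_cast h1
    nlinarith [Real.pi_pos]

/-- geometric sum -/
theorem ringVal_mul (hr : 2 ≤ r) (ψ : Fin (r - 1) → ℂ) (a : ℤ) :
    ringVal r ψ a * (sR r a : ℝ) = ∑ c, ψ c * (sR r (a * ((c : ℕ) + 1)) : ℝ) := by
  have hI : (2 * Complex.I : ℂ) ≠ 0 := by simp [Complex.I_ne_zero]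
  have key : ∀ c : ℕ, (∑ j : Fin (c + 1), qq r ^ (a * ((c : ℤ) - 2 * (j : ℕ)))) *
      (qq r ^ a - qq r ^ (-a)) = qq r ^ (a * ((c : ℤ) + 1)) - qq r ^ (-(a * ((c : ℤ) + 1))) := by
    intro c
    rw [Finset.sum_mul, Fin.sum_univ_eq_sum_range (fun j => qq r ^ (a * ((c : ℤ) - 2 * (j : ℕ))) *
      (qq r ^ a - qq r ^ (-a)))]
    have : ∀ j : ℕ, qq r ^ (a * ((c : ℤ) - 2 * (j : ℕ))) * (qq r ^ a - qq r ^ (-a)) =
        (fun j : ℕ => qq r ^ (a * ((c : ℤ) + 1 - 2 * (j : ℕ)))) j -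
          (fun j : ℕ => qq r ^ (a * ((c : ℤ) + 1 - 2 * (j : ℕ)))) (j + 1) := by
      intro j
      rw [mul_sub, ← zpow_add₀ (qq_ne_zero r), ← zpow_add₀ (qq_ne_zero r)]
      congr 2
      · ring
      · push_cast; ring
    rw [Finset.sum_congr rfl (fun j _ => this j), Finset.sum_range_sub']
    have e1 : a * ((c : ℤ) + 1 - 2 * ((0 : ℕ) : ℤ)) = a * ((c : ℤ) + 1) := by push_cast; ring
    have e2 : a * ((c : ℤ) + 1 - 2 * ((c + 1 : ℕ) : ℤ)) = -(a * ((c : ℤ) + 1)) := by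
      push_cast; ring
    simp only [e1, e2]
  rw [ringVal, Fintype.sum_sigma, Finset.sum_mul]
  refine Finset.sum_congr rfl fun c _ => ?_
  have h1 := key c
  rw [qq_sub (by omega), qq_sub (by omega)] at h1
  have h2 : (∑ y : Fin ((c : ℕ) + 1), ψ c * qq r ^ (a * Idx.wt (⟨c, y⟩ : Idx r))) =
      ψ c * ∑ y : Fin ((c : ℕ) + 1), qq r ^ (a * (((c : ℕ) : ℤ) - 2 * (y : ℕ))) := by
    rw [Finset.mul_sum]; rfl
  rw [h2, mul_assoc]
  congr 1
  apply mul_left_cancel₀ hI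
  rw [← h1]
  ring

/-- The action of the modular matrices -/
def AA (f : ℤ) (x : ℤ) : ℂ := ∑ c : Fin (r - 1), vw f c * (sR r (x * ((c : ℕ) + 1)) : ℝ)

theorem qint_mul_sin (hr : 2 ≤ r) (n : ℤ) :
    ((Real.sin (Real.pi / r) : ℝ) : ℂ) * qint r n = (sR r n : ℝ) := by
  rw [qint_eq_sin r hr]
  have := (sin_pi_div_pos r hr).ne'
  rw [sR]
  push_cast
  rw [mul_div_cancel₀]
  exact_mod_cast this

theorem vw_eq (hr : 2 ≤ r) (f : ℤ) (c : Fin (r - 1)) :
    vw f c = ((Real.sqrt (2 / r) * sR r ((c : ℕ) + 1) : ℝ) : ℂ) *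
      tt r ^ ((((c : ℕ) + 1 : ℤ) ^ 2 - 1) * f) := by
  rw [vw]
  congr 1
  rw [Complex.ofReal_mul, mul_assoc, qint_mul_sin hr, Complex.ofReal_mul]

theorem vw_zero (hr : 2 ≤ r) (c : Fin (r - 1)) :
    vw 0 c = ((Real.sqrt (2 / r) * sR r ((c : ℕ) + 1) : ℝ) : ℂ) := by
  rw [vw_eq hr]; simp

theorem vw_two (hr : 2 ≤ r) (e : ℤ) (c : Fin (r - 1)) :
    vw (2 * e) c = ((Real.sqrt (2 / r) * sR r ((c : ℕ) + 1) : ℝ) : ℂ) *
      qq r ^ (e * (((c : ℕ) + 1 : ℤ) ^ 2 - 1)) := by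
  rw [vw_eq hr, ← tt_zpow_two_mul]
  congr 2
  ring

theorem sR_color_pos (c : Fin (r - 1)) : 0 < sR r ((c : ℕ) + 1) :=
  sR_pos _ (by positivity) (by have := c.2; omega)

theorem Lv_eq (hr : 2 ≤ r) (ψ : Fin (r - 1) → ℂ) (c : Fin (r - 1)) :
    Lv r ψ c = (∑ c' : Fin (r - 1), ψ c' * (sR r (((c : ℕ) + 1) * ((c' : ℕ) + 1)) : ℝ)) /
      (sR r ((c : ℕ) + 1) : ℝ) := by
  rw [Lv, eq_div_iff, ringVal_mul hr]
  exact_mod_cast (sR_color_pos c).ne'

theorem Lv_vw (hr : 2 ≤ r) (f : ℤ) (c : Fin (r - 1)) :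
    Lv r (vw f) c = AA (r := r) f ((c : ℕ) + 1) / (sR r ((c : ℕ) + 1) : ℝ) := by
  rw [Lv_eq hr, AA]

/-! ### Gauss sums -/

theorem qq_pow_r (hr : r ≠ 0) : qq r ^ (r : ℤ) = -1 := by
  rw [qq_zpow r hr]
  have : (Real.pi * ((r : ℤ) : ℝ) / r : ℝ) = Real.pi := by
    have : (r : ℝ) ≠ 0 := by exact_mod_cast hr
    push_cast
    field_simp
  rw [this, Complex.exp_pi_mul_I]

theorem qq_pow_2r (hr : r ≠ 0) : qq r ^ (2 * r : ℤ) = 1 := by
  rw [mul_comm, zpow_mul, qq_pow_r hr]; norm_num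

theorem sum_shift_one (N : ℕ) (f : ℤ → ℂ) (hf : ∀ y, f (y + N) = f y) :
    ∑ y ∈ Finset.range N, f ((y : ℤ) + 1) = ∑ y ∈ Finset.range N, f y := by
  have h1 := Finset.sum_range_succ' (fun y : ℕ => f y) N
  have h2 := Finset.sum_range_succ (fun y : ℕ => f y) N
  have h3 : f N = f 0 := by rw [← hf 0, zero_add]
  rw [h2, h3] at h1
  have h4 := add_right_cancel h1
  rw [h4]
  push_cast
  rfl

theorem sum_shift (N : ℕ) (f : ℤ → ℂ) (hf : ∀ y, f (y + N) = f y) (d : ℕ) :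
    ∑ y ∈ Finset.range N, f ((y : ℤ) + d) = ∑ y ∈ Finset.range N, f y := by
  induction d with
  | zero => simp
  | succ d ih =>
    rw [← ih]
    have := sum_shift_one N (fun y => f (y + d)) (fun y => by
      rw [← hf (y + d)]; congr 1; ring)
    rw [← this]
    refine Finset.sum_congr rfl fun y _ => ?_
    congr 1
    push_cast; ring

theorem sum_neg (N : ℕ) (f : ℤ → ℂ) (hf : ∀ y, f (y + N) = f y) :
    ∑ y ∈ Finset.range N, f (-(y : ℤ)) = ∑ y ∈ Finset.range N, f y := by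
  rw [← Finset.sum_range_reflect, ← sum_shift_one N f hf]
  refine Finset.sum_congr rfl fun y hy => ?_
  have hy' := Finset.mem_range.mp hy
  rw [← hf]
  congr 1
  omega

variable (r) in
def GG (n : ℤ) : ℂ := ∑ y ∈ Finset.range (2 * r), qq r ^ ((y : ℤ) ^ 2 + n * y)

variable (r) in
def GGb (n : ℤ) : ℂ := ∑ y ∈ Finset.range (2 * r), qq r ^ (-((y : ℤ) ^ 2 + n * y))

theorem qq_periodic (hr : r ≠ 0) (a b : ℤ) (h : ∃ k, a = b + 2 * r * k) : qq r ^ a = qq r ^ b := by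
  obtain ⟨k, rfl⟩ := h
  rw [zpow_add₀ (qq_ne_zero r), zpow_mul, qq_pow_2r hr, one_zpow, mul_one]

theorem GG_step (hr : r ≠ 0) (n : ℤ) : GG r (n + 2) = qq r ^ (-(n + 1)) * GG r n := by
  have h := sum_shift (2 * r) (fun y => qq r ^ (y ^ 2 + n * y)) (fun y => by
    apply qq_periodic hr
    refine ⟨2 * y + 2 * r + n, ?_⟩
    push_cast; ring) 1
  rw [GG, GG, ← h, Finset.mul_sum]
  refine Finset.sum_congr rfl fun y _ => ?_
  rw [← zpow_add₀ (qq_ne_zero r)]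
  congr 1
  push_cast; ring

theorem GGb_step (hr : r ≠ 0) (n : ℤ) : GGb r (n + 2) = qq r ^ (n + 1) * GGb r n := by
  have h := sum_shift (2 * r) (fun y => qq r ^ (-(y ^ 2 + n * y))) (fun y => by
    apply qq_periodic hr
    refine ⟨-(2 * y + 2 * r + n), ?_⟩
    push_cast; ring) 1
  rw [GGb, GGb, ← h, Finset.mul_sum]
  refine Finset.sum_congr rfl fun y _ => ?_
  rw [← zpow_add₀ (qq_ne_zero r)]
  congr 1
  push_cast; ring

theorem geom_zero (hr : r ≠ 0) (y : ℤ) (hy : qq r ^ (2 * y) ≠ 1) :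
    ∑ z ∈ Finset.range (2 * r), qq r ^ (2 * y * (z : ℤ)) = 0 := by
  have h1 : ∀ z : ℕ, qq r ^ (2 * y * (z : ℤ)) = (qq r ^ (2 * y)) ^ z := by
    intro z; rw [zpow_mul, zpow_natCast]
  simp only [h1]
  rw [geom_sum_eq hy]
  have : (qq r ^ (2 * y)) ^ (2 * r) = 1 := by
    rw [← zpow_natCast, ← zpow_mul]
    have := qq_periodic hr (2 * y * ((2 * r : ℕ) : ℤ)) 0 ⟨2 * y, by push_cast; ring⟩
    rw [this, zpow_zero]
  rw [this, sub_self, zero_div]

theorem qq_two_mul_eq_one (hr : r ≠ 0) (y : ℕ) (hy : y < 2 * r) (h : qq r ^ (2 * (y : ℤ)) = 1) :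
    y = 0 ∨ y = r := by
  have h1 : qq r ^ (y : ℤ) - qq r ^ (-(y : ℤ)) = 0 := by
    have h2 : qq r ^ (y : ℤ) * qq r ^ (y : ℤ) = 1 := by
      rw [← zpow_add₀ (qq_ne_zero r), ← h]; congr 1; ring
    have h3 := zpow_ne_zero (y : ℤ) (qq_ne_zero r)
    rw [zpow_neg, ← eq_inv_of_mul_eq_one_left h2, sub_self]
  rw [qq_sub hr] at h1
  have h2 : sR r y = 0 := by
    have hI : (2 * Complex.I : ℂ) ≠ 0 := by simp [Complex.I_ne_zero]
    have := (mul_eq_zero.mp h1).resolve_left hI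
    exact_mod_cast this
  by_contra hc
  push Not at hc
  rcases lt_or_ge y r with h3 | h3
  · have := sR_pos (r := r) y (by omega) (by exact_mod_cast h3)
    rw [h2] at this
    exact lt_irrefl _ this
  · have h4 : sR r y = - sR r ((y : ℤ) - r) := by
      rw [sR, sR, ← Real.sin_add_pi]
      congr 1
      have : (r : ℝ) ≠ 0 := by exact_mod_cast hr
      push_cast
      field_simp
      ring
    have := sR_pos (r := r) ((y : ℤ) - r) (by omega) (by omega)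
    rw [h2] at h4
    linarith

theorem GG_mul_GGb (hr : r ≠ 0) (n : ℤ) :
    GG r n * GGb r n = 2 * r * (1 + (-1) ^ (r + n)) := by
  have h1 : GG r n * GGb r n = ∑ y ∈ Finset.range (2 * r), qq r ^ ((y : ℤ) ^ 2 + n * y) *
      ∑ z ∈ Finset.range (2 * r), qq r ^ (2 * (y : ℤ) * (z : ℤ)) := by
    rw [GGb, Finset.mul_sum]
    have h2 : ∀ z ∈ Finset.range (2 * r), GG r n * qq r ^ (-((z : ℤ) ^ 2 + n * z)) =
        ∑ y ∈ Finset.range (2 * r), qq r ^ ((y : ℤ) ^ 2 + n * y) * qq r ^ (2 * (y : ℤ) * (z : ℤ)) := by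
      intro z _
      have h := sum_shift (2 * r) (fun y => qq r ^ (y ^ 2 + n * y)) (fun y => by
        apply qq_periodic hr
        refine ⟨2 * y + 2 * r + n, ?_⟩
        push_cast; ring) z
      rw [GG, ← h, Finset.sum_mul]
      refine Finset.sum_congr rfl fun y _ => ?_
      rw [← zpow_add₀ (qq_ne_zero r), ← zpow_add₀ (qq_ne_zero r)]
      congr 1
      ring
    rw [Finset.sum_congr rfl h2, Finset.sum_comm]
    refine Finset.sum_congr rfl fun y _ => ?_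
    rw [Finset.mul_sum]
  rw [h1]
  have hr' : r ∈ Finset.range (2 * r) := Finset.mem_range.mpr (by omega)
  have h0' : 0 ∈ Finset.range (2 * r) := Finset.mem_range.mpr (by omega)
  have hne : (0 : ℕ) ≠ r := fun h => hr h.symm
  rw [Finset.sum_eq_add_of_mem 0 r h0' hr' hne]
  · have e1 : ∑ z ∈ Finset.range (2 * r), qq r ^ (2 * ((0 : ℕ) : ℤ) * (z : ℤ)) = 2 * r := by
      simp
    have e2 : ∑ z ∈ Finset.range (2 * r), qq r ^ (2 * (r : ℤ) * (z : ℤ)) = 2 * r := by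
      have : ∀ z : ℕ, qq r ^ (2 * (r : ℤ) * (z : ℤ)) = 1 := by
        intro z; rw [zpow_mul, qq_pow_2r hr, one_zpow]
      simp [this]
    rw [e1, e2]
    have e3 : qq r ^ (((r : ℕ) : ℤ) ^ 2 + n * (r : ℕ)) = (-1) ^ (r + n) := by
      rw [← qq_pow_r hr, ← zpow_mul]; congr 1; ring
    rw [e3]
    simp
    ring
  · intro y hy hne
    rw [geom_zero hr, mul_zero]
    intro h
    have := qq_two_mul_eq_one hr y (Finset.mem_range.mp hy) h
    omega

/-! ### The leaf sums -/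

theorem sR_add_2r (hr : r ≠ 0) (x : ℤ) (k : ℤ) : sR r (x + 2 * r * k) = sR r x := by
  rw [sR, sR, ← Real.sin_add_int_mul_two_pi (Real.pi * x / r) k]
  congr 1
  have : (r : ℝ) ≠ 0 := by exact_mod_cast hr
  push_cast
  field_simp

theorem sR_neg (x : ℤ) : sR r (-x) = - sR r x := by
  rw [sR, sR, ← Real.sin_neg]
  congr 1
  push_cast
  ring

theorem sR_zero : sR r 0 = 0 := by simp [sR]

theorem sR_mul_r (hr : r ≠ 0) (x : ℤ) : sR r (x * r) = 0 := by
  rw [sR]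
  have : (r : ℝ) ≠ 0 := by exact_mod_cast hr
  have h : Real.pi * ((x * r : ℤ) : ℝ) / r = x * Real.pi := by
    push_cast; field_simp
  rw [h, Real.sin_int_mul_pi]

/-- sum over a full period of an even function vanishing at `0` and `r` -/
theorem sum_half (hr : 2 ≤ r) (F : ℤ → ℂ) (hper : ∀ y, F (y + (2 * r : ℕ)) = F y)
    (heven : ∀ y, F (-y) = F y) (h0 : F 0 = 0) (hFr : F r = 0) :
    ∑ y ∈ Finset.range (2 * r), F y = 2 * ∑ c : Fin (r - 1), F ((c : ℕ) + 1) := by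
  have h1 : ∑ y ∈ Finset.range r, F y = ∑ c : Fin (r - 1), F ((c : ℕ) + 1) := by
    obtain ⟨s, rfl⟩ : ∃ s, r = s + 1 := ⟨r - 1, by omega⟩
    rw [Finset.sum_range_succ', Nat.add_sub_cancel]
    rw [Finset.sum_range]
    simp [h0]
  have h2 : ∑ y ∈ Finset.range r, F ((r + y : ℕ) : ℤ) = ∑ c : Fin (r - 1), F ((c : ℕ) + 1) := by
    obtain ⟨s, rfl⟩ : ∃ s, r = s + 1 := ⟨r - 1, by omega⟩
    rw [Finset.sum_range_succ', Nat.add_sub_cancel]
    have h3 : F ((s + 1 + 0 : ℕ) : ℤ) = 0 := by simpa using hFr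
    rw [h3, add_zero, ← Finset.sum_range_reflect, Finset.sum_range]
    refine Finset.sum_congr rfl fun c _ => ?_
    rw [← heven, ← hper]
    congr 1
    have := c.2
    omega
  rw [two_mul r, Finset.sum_range_add, h1, h2, two_mul]

/-- `sin · sin` through exponentials -/
theorem sin_sin (hr : r ≠ 0) (x y : ℤ) :
    ((sR r y : ℝ) : ℂ) * (sR r (x * y) : ℝ) =
      (-1 / 4) * (qq r ^ ((x + 1) * y) + qq r ^ (-((x + 1) * y)) -
        qq r ^ ((x - 1) * y) - qq r ^ (-((x - 1) * y))) := by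
  have h1 := qq_sub (r := r) hr y
  have h2 := qq_sub (r := r) hr (x * y)
  have h0 := qq_ne_zero r
  have h3 : (2 * Complex.I * (sR r y : ℝ)) * (2 * Complex.I * (sR r (x * y) : ℝ)) =
      qq r ^ ((x + 1) * y) + qq r ^ (-((x + 1) * y)) -
        qq r ^ ((x - 1) * y) - qq r ^ (-((x - 1) * y)) := by
    rw [← h1, ← h2, sub_mul, mul_sub, mul_sub, ← zpow_add₀ h0, ← zpow_add₀ h0, ← zpow_add₀ h0,
      ← zpow_add₀ h0]
    have e1 : y + x * y = (x + 1) * y := by ring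
    have e2 : y + -(x * y) = -((x - 1) * y) := by ring
    have e3 : -y + x * y = (x - 1) * y := by ring
    have e4 : -y + -(x * y) = -((x + 1) * y) := by ring
    rw [e1, e2, e3, e4]
    ring
  rw [← h3]
  have hI : Complex.I * Complex.I = -1 := Complex.I_mul_I
  linear_combination ((sR r y : ℝ) * (sR r (x * y) : ℝ) : ℂ) * hI

theorem AA_two (hr : 2 ≤ r) (x : ℤ) :
    AA (r := r) 2 x = (Real.sqrt (2 / r) : ℝ) * qq r ^ (-1 : ℤ) * (-1 / 4) * GG r (x - 1) *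
      (qq r ^ (-x) - 1) := by
  have hr0 : r ≠ 0 := by omega
  have h0 := qq_ne_zero r
  let F : ℤ → ℂ := fun y => ((sR r y : ℝ) : ℂ) * (sR r (x * y) : ℝ) * qq r ^ (y ^ 2)
  have hper : ∀ y, F (y + (2 * r : ℕ)) = F y := by
    intro y
    simp only [F]
    have e1 : sR r (y + (2 * r : ℕ)) = sR r y := by
      have := sR_add_2r hr0 y 1
      rw [← this]; congr 1; push_cast; ring
    have e2 : sR r (x * (y + (2 * r : ℕ))) = sR r (x * y) := by
      have := sR_add_2r hr0 (x * y) x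
      rw [← this]; congr 1; push_cast; ring
    have e3 : qq r ^ ((y + (2 * r : ℕ)) ^ 2) = qq r ^ (y ^ 2) := by
      apply qq_periodic hr0
      refine ⟨2 * y + 2 * r, ?_⟩
      push_cast; ring
    rw [e1, e2, e3]
  have heven : ∀ y, F (-y) = F y := by
    intro y
    simp only [F]
    rw [mul_neg, sR_neg, sR_neg, neg_sq]
    push_cast; ring
  have hF0 : F 0 = 0 := by simp only [F]; rw [sR_zero]; simp
  have hFr : F r = 0 := by
    simp only [F]
    have := sR_mul_r hr0 1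
    rw [one_mul] at this
    rw [this]; simp
  have h1 := sum_half hr F hper heven hF0 hFr
  have h2 : AA (r := r) 2 x = (Real.sqrt (2 / r) : ℝ) * qq r ^ (-1 : ℤ) *
      ∑ c : Fin (r - 1), F ((c : ℕ) + 1) := by
    rw [AA, Finset.mul_sum]
    refine Finset.sum_congr rfl fun c _ => ?_
    have := vw_two hr 1 c
    rw [mul_one] at this
    rw [this, one_mul, sub_eq_add_neg, zpow_add₀ h0]
    simp only [F]
    push_cast
    ring
  have h3 : ∑ y ∈ Finset.range (2 * r), F y = (-1 / 2) * (GG r (x + 1) - GG r (x - 1)) := by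
    have e1 : ∀ n : ℤ, ∑ y ∈ Finset.range (2 * r), qq r ^ (-(n * (y : ℤ))) * qq r ^ ((y : ℤ) ^ 2) =
        GG r n := by
      intro n
      have := sum_neg (2 * r) (fun y => qq r ^ (y ^ 2 + n * y)) (fun y => by
        apply qq_periodic hr0
        refine ⟨2 * y + 2 * r + n, ?_⟩
        push_cast; ring)
      rw [GG, ← this]
      refine Finset.sum_congr rfl fun y _ => ?_
      rw [← zpow_add₀ h0]; congr 1; ring
    have e2 : ∀ n : ℤ, ∑ y ∈ Finset.range (2 * r), qq r ^ (n * (y : ℤ)) * qq r ^ ((y : ℤ) ^ 2) =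
        GG r n := by
      intro n
      rw [GG]
      refine Finset.sum_congr rfl fun y _ => ?_
      rw [← zpow_add₀ h0]; congr 1; ring
    have e3 : ∀ y : ℕ, F y = (-1 / 4) * (qq r ^ ((x + 1) * (y : ℤ)) * qq r ^ ((y : ℤ) ^ 2) +
        qq r ^ (-((x + 1) * (y : ℤ))) * qq r ^ ((y : ℤ) ^ 2) -
        qq r ^ ((x - 1) * (y : ℤ)) * qq r ^ ((y : ℤ) ^ 2) -
        qq r ^ (-((x - 1) * (y : ℤ))) * qq r ^ ((y : ℤ) ^ 2)) := by
      intro y
      simp only [F]
      rw [sin_sin hr0]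
      ring
    simp only [e3]
    rw [← Finset.mul_sum, Finset.sum_sub_distrib, Finset.sum_sub_distrib, Finset.sum_add_distrib,
      e1, e2, e1, e2]
    ring
  have h4 : GG r (x + 1) = qq r ^ (-x) * GG r (x - 1) := by
    have := GG_step hr0 (x - 1)
    rw [show x - 1 + 2 = x + 1 by ring, show x - 1 + 1 = x by ring] at this
    exact this
  rw [h2]
  rw [h3, h4] at h1
  linear_combination (-(1 : ℂ) / 2) * ((Real.sqrt (2 / r) : ℝ) : ℂ) * qq r ^ (-1 : ℤ) * h1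

theorem AA_neg_two (hr : 2 ≤ r) (x : ℤ) :
    AA (r := r) (-2) x = (Real.sqrt (2 / r) : ℝ) * qq r * (-1 / 4) * GGb r (x - 1) *
      (qq r ^ x - 1) := by
  have hr0 : r ≠ 0 := by omega
  have h0 := qq_ne_zero r
  let F : ℤ → ℂ := fun y => ((sR r y : ℝ) : ℂ) * (sR r (x * y) : ℝ) * qq r ^ (-y ^ 2)
  have hper : ∀ y, F (y + (2 * r : ℕ)) = F y := by
    intro y
    simp only [F]
    have e1 : sR r (y + (2 * r : ℕ)) = sR r y := by
      have := sR_add_2r hr0 y 1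
      rw [← this]; congr 1; push_cast; ring
    have e2 : sR r (x * (y + (2 * r : ℕ))) = sR r (x * y) := by
      have := sR_add_2r hr0 (x * y) x
      rw [← this]; congr 1; push_cast; ring
    have e3 : qq r ^ (-(y + (2 * r : ℕ)) ^ 2) = qq r ^ (-y ^ 2) := by
      apply qq_periodic hr0
      refine ⟨-(2 * y + 2 * r), ?_⟩
      push_cast; ring
    rw [e1, e2, e3]
  have heven : ∀ y, F (-y) = F y := by
    intro y
    simp only [F]
    rw [mul_neg, sR_neg, sR_neg, neg_sq]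
    push_cast; ring
  have hF0 : F 0 = 0 := by simp only [F]; rw [sR_zero]; simp
  have hFr : F r = 0 := by
    simp only [F]
    have := sR_mul_r hr0 1
    rw [one_mul] at this
    rw [this]; simp
  have h1 := sum_half hr F hper heven hF0 hFr
  have h2 : AA (r := r) (-2) x = (Real.sqrt (2 / r) : ℝ) * qq r *
      ∑ c : Fin (r - 1), F ((c : ℕ) + 1) := by
    rw [AA, Finset.mul_sum]
    refine Finset.sum_congr rfl fun c _ => ?_
    have := vw_two hr (-1) c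
    rw [show (2 : ℤ) * -1 = -2 by norm_num] at this
    rw [this, show (-1 : ℤ) * (((c : ℕ) + 1 : ℤ) ^ 2 - 1) = 1 + (-((c : ℕ) + 1 : ℤ) ^ 2) by ring,
      zpow_add₀ h0, zpow_one]
    simp only [F]
    push_cast
    ring
  have h3 : ∑ y ∈ Finset.range (2 * r), F y = (-1 / 2) * (GGb r (x + 1) - GGb r (x - 1)) := by
    have e1 : ∀ n : ℤ, ∑ y ∈ Finset.range (2 * r), qq r ^ (n * (y : ℤ)) * qq r ^ (-(y : ℤ) ^ 2) =
        GGb r n := by
      intro n
      have := sum_neg (2 * r) (fun y => qq r ^ (-(y ^ 2 + n * y))) (fun y => by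
        apply qq_periodic hr0
        refine ⟨-(2 * y + 2 * r + n), ?_⟩
        push_cast; ring)
      rw [GGb, ← this]
      refine Finset.sum_congr rfl fun y _ => ?_
      rw [← zpow_add₀ h0]; congr 1; ring
    have e2 : ∀ n : ℤ, ∑ y ∈ Finset.range (2 * r), qq r ^ (-(n * (y : ℤ))) * qq r ^ (-(y : ℤ) ^ 2) =
        GGb r n := by
      intro n
      rw [GGb]
      refine Finset.sum_congr rfl fun y _ => ?_
      rw [← zpow_add₀ h0]; congr 1; ring
    have e3 : ∀ y : ℕ, F y = (-1 / 4) * (qq r ^ ((x + 1) * (y : ℤ)) * qq r ^ (-(y : ℤ) ^ 2) +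
        qq r ^ (-((x + 1) * (y : ℤ))) * qq r ^ (-(y : ℤ) ^ 2) -
        qq r ^ ((x - 1) * (y : ℤ)) * qq r ^ (-(y : ℤ) ^ 2) -
        qq r ^ (-((x - 1) * (y : ℤ))) * qq r ^ (-(y : ℤ) ^ 2)) := by
      intro y
      simp only [F]
      rw [sin_sin hr0]
      ring
    simp only [e3]
    rw [← Finset.mul_sum, Finset.sum_sub_distrib, Finset.sum_sub_distrib, Finset.sum_add_distrib,
      e1, e2, e1, e2]
    ring
  have h4 : GGb r (x + 1) = qq r ^ x * GGb r (x - 1) := by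
    have := GGb_step hr0 (x - 1)
    rw [show x - 1 + 2 = x + 1 by ring, show x - 1 + 1 = x by ring] at this
    exact this
  rw [h2]
  rw [h3, h4] at h1
  linear_combination (-(1 : ℂ) / 2) * ((Real.sqrt (2 / r) : ℝ) : ℂ) * qq r * h1

/-- `|A(x)|² = (1 + (-1)^{r+x-1}) sin²(π x / 2 r)` -/
theorem AA_mul (hr : 2 ≤ r) (x : ℤ) :
    AA (r := r) 2 x * AA (r := r) (-2) x =
      (((1 + (-1) ^ (r + (x - 1))) * Real.sin (Real.pi * x / (2 * r)) ^ 2 : ℝ) : ℂ) := by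
  have hr0 : r ≠ 0 := by omega
  have h0 := qq_ne_zero r
  have hG := GG_mul_GGb hr0 (x - 1)
  have hrC : (r : ℂ) ≠ 0 := by exact_mod_cast hr0
  have hsq : ((Real.sqrt (2 / r) : ℝ) : ℂ) * ((Real.sqrt (2 / r) : ℝ) : ℂ) = 2 / r := by
    rw [← Complex.ofReal_mul, Real.mul_self_sqrt (by positivity)]
    push_cast; rfl
  have hq1 : qq r ^ (-1 : ℤ) * qq r = 1 := by
    rw [zpow_neg_one, inv_mul_cancel₀ h0]
  have hcos : (qq r ^ (-x) - 1) * (qq r ^ x - 1) =
      ((4 * Real.sin (Real.pi * x / (2 * r)) ^ 2 : ℝ) : ℂ) := by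
    have e1 : qq r ^ (-x) * qq r ^ x = 1 := by rw [← zpow_add₀ h0]; simp
    have e3 : qq r ^ x + qq r ^ (-x) = ((2 * Real.cos (Real.pi * x / r) : ℝ) : ℂ) := by
      rw [qq_zpow r hr0, qq_zpow r hr0]
      push_cast
      rw [Complex.cos]
      have : (Real.pi : ℂ) * (-x) / r * Complex.I = -(Real.pi * x / r) * Complex.I := by ring
      rw [this]
      ring
    have e4 : Real.cos (Real.pi * x / r) = 1 - 2 * Real.sin (Real.pi * x / (2 * r)) ^ 2 := by
      have h5 : Real.pi * x / r = 2 * (Real.pi * x / (2 * r)) := by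
        have : (r : ℝ) ≠ 0 := by exact_mod_cast hr0
        field_simp
      rw [h5, Real.cos_two_mul]
      have := Real.sin_sq_add_cos_sq (Real.pi * x / (2 * r))
      linarith
    have e5 : (qq r ^ (-x) - 1) * (qq r ^ x - 1) = 2 - (qq r ^ x + qq r ^ (-x)) := by
      linear_combination e1
    rw [e5, e3, e4]
    push_cast; ring
  rw [AA_two hr, AA_neg_two hr]
  have : ((Real.sqrt (2 / r) : ℝ) : ℂ) * qq r ^ (-1 : ℤ) * (-1 / 4) * GG r (x - 1) *
      (qq r ^ (-x) - 1) * (((Real.sqrt (2 / r) : ℝ) : ℂ) * qq r * (-1 / 4) * GGb r (x - 1) *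
      (qq r ^ x - 1)) = (((Real.sqrt (2 / r) : ℝ) : ℂ) * ((Real.sqrt (2 / r) : ℝ) : ℂ)) *
      (qq r ^ (-1 : ℤ) * qq r) * (1 / 16) * (GG r (x - 1) * GGb r (x - 1)) *
      ((qq r ^ (-x) - 1) * (qq r ^ x - 1)) := by ring
  rw [this, hsq, hq1, hG, hcos]
  push_cast
  field_simp
  ring

end

end

end Pool.Agent.Helper64.WRT
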