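import Pool.Agent.Helper64.WRT.Exact

namespace Pool.Agent.Helper64.WRT

noncomputable section

open groupCohomology Module Matrix

section
variable {Γ : Type} [Group Γ]

theorem mk_continuous : Continuous (Moduli.mk : (Γ →* SU2) → Moduli Γ) :=
  continuous_coinduced_rng

theorem eval_continuous (x : Γ) : Continuous (fun ρ : Γ →* SU2 => ρ x) :=
  (continuous_apply x).comp continuous_induced_dom

theorem polyFun_continuous {p : (Γ →* SU2) → ℝ} (hp : p ∈ polyFun Γ) : Continuous p := by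
  induction hp using Algebra.adjoin_induction with
  | mem f hf =>
    obtain ⟨x, i, j, rfl | rfl⟩ := hf
    · exact Complex.continuous_re.comp
        ((continuous_subtype_val.comp (eval_continuous x)).matrix_elem i j)
    · exact Complex.continuous_im.comp
        ((continuous_subtype_val.comp (eval_continuous x)).matrix_elem i j)
  | algebraMap r => exact continuous_const
  | add f g _ _ hf hg => exact hf.add hg
  | mul f g _ _ hf hg => exact hf.mul hg

theorem zariski_isOpen {U : Set (Moduli Γ)} (hU : IsZariskiOpen U) :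
    IsOpen {ρ : Γ →* SU2 | Moduli.mk ρ ∈ U} := by
  obtain ⟨P, hP, h⟩ := hU
  have : {ρ : Γ →* SU2 | Moduli.mk ρ ∈ U} = ⋃ p ∈ P, {ρ | p ρ ≠ 0} := by
    ext ρ; simp [h]
  rw [this]
  exact isOpen_biUnion fun p hp =>
    isOpen_ne_fun (polyFun_continuous (hP hp)) continuous_const

theorem fiber_isOpen {cs : Moduli Γ → AddCircle (1 : ℝ)} (hcs : IsLocallyConstant cs)
    (c : AddCircle (1 : ℝ)) : IsOpen {ρ : Γ →* SU2 | cs (Moduli.mk ρ) = c} :=
  (hcs.isOpen_fiber c).preimage mk_continuous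

theorem trace_conj_eq {ρ ρ' : Γ →* SU2} (h : Moduli.mk ρ = Moduli.mk ρ') (x : Γ) :
    (ρ' x : M2).trace = (ρ x : M2).trace := by
  obtain ⟨g, hg⟩ := Quotient.exact h
  rw [hg, Submonoid.coe_mul, Submonoid.coe_mul, Matrix.trace_mul_comm, ← Matrix.mul_assoc,
    SU2.coe_inv, SU2.coe_inv_mul, Matrix.one_mul]

end

variable {cs : Moduli HW.π₁ → AddCircle (1 : ℝ)}

/-- every generic value of `h¹ - h⁰` is at most one -/
theorem generic_le (hcs : IsLocallyConstant cs) {c : AddCircle (1 : ℝ)} {v : ℤ}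
    (h : IsGenericValue {A | cs A = c} v) : v ≤ 1 := by
  obtain ⟨U, hU, ⟨A, hAU, hAc⟩, hv⟩ := h
  obtain ⟨ρ, rfl⟩ : ∃ ρ, Moduli.mk ρ = A := Quotient.exists_rep A
  have key : ∀ ρ' : HW.π₁ →* SU2, ¬ PType ρ' → Moduli.mk ρ' ∈ U → cs (Moduli.mk ρ') = c →
      v ≤ 1 := by
    intro ρ' h1 h2 h3
    have := hv ρ' ⟨h2, h3⟩
    rw [hdim_sub] at this
    have h4 := finrank_Z1_le h1
    omega
  by_cases hP : PType ρ
  · obtain ⟨ha, hb, hab⟩ := hP
    have hopen : IsOpen {θ : ℝ | Moduli.mk (rotRep ha hb hab θ) ∈ U ∧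
        cs (Moduli.mk (rotRep ha hb hab θ)) = c} :=
      ((zariski_isOpen hU).inter (fiber_isOpen hcs c)).preimage (rotRep_continuous ha hb hab)
    have h0 : rotRep ha hb hab 0 = ρ := by
      apply hom_ext'
      · rw [rotRep_ga]
      · rw [rotRep_gb, rot_zero]
    have hmem : (0 : ℝ) ∈ {θ : ℝ | Moduli.mk (rotRep ha hb hab θ) ∈ U ∧
        cs (Moduli.mk (rotRep ha hb hab θ)) = c} := by
      change Moduli.mk (rotRep ha hb hab 0) ∈ U ∧ cs (Moduli.mk (rotRep ha hb hab 0)) = c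
      rw [h0]; exact ⟨hAU, hAc⟩
    obtain ⟨ε, hε, hball⟩ := Metric.isOpen_iff.mp hopen 0 hmem
    set θ := min (ε / 2) 1 with hθ
    have hθ0 : 0 < θ := lt_min (by linarith) one_pos
    have hθ1 : θ < ε := lt_of_le_of_lt (min_le_left _ _) (by linarith)
    have hθ2 : θ ≤ 1 := min_le_right _ _
    have hin : θ ∈ Metric.ball (0 : ℝ) ε := by
      rw [Metric.mem_ball, Real.dist_eq, sub_zero, abs_of_pos hθ0]; exact hθ1
    obtain ⟨h1, h2⟩ := hball hin
    refine key _ ?_ h1 h2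
    rintro ⟨_, _, h3⟩
    rw [rotRep_ga, rotRep_gb, rot_trace_mul] at h3
    have hsin : 0 < Real.sin θ := Real.sin_pos_of_pos_of_le_one hθ0 hθ2
    have : (Real.sin θ : ℂ) = 0 := by
      rcases mul_eq_zero.mp h3 with h | h
      · norm_num at h
      · exact h
    exact hsin.ne' (by exact_mod_cast this)
  · exact key ρ hP hAU hAc

/-- the polynomial cutting out the generic locus -/
def genPoly (ρ : HW.π₁ →* SU2) : ℝ :=
  ((ρ (ga * gb) : M2).trace).re * (4 - ((ρ ga : M2).trace).re ^ 2)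

theorem trace_re_mem (x : HW.π₁) : (fun ρ : HW.π₁ →* SU2 => ((ρ x : M2).trace).re) ∈
    polyFun HW.π₁ := by
  have : (fun ρ : HW.π₁ →* SU2 => ((ρ x : M2).trace).re) =
      (fun ρ : HW.π₁ →* SU2 => ((ρ x : M2) 0 0).re) + (fun ρ => ((ρ x : M2) 1 1).re) := by
    funext ρ
    rw [Pi.add_apply, Matrix.trace_fin_two, Complex.add_re]
  rw [this]
  exact add_mem (Algebra.subset_adjoin ⟨x, 0, 0, Or.inl rfl⟩)
    (Algebra.subset_adjoin ⟨x, 1, 1, Or.inl rfl⟩)

theorem genPoly_mem : genPoly ∈ polyFun HW.π₁ := by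
  have : genPoly = (fun ρ : HW.π₁ →* SU2 => ((ρ (ga * gb) : M2).trace).re) *
      (algebraMap ℝ _ 4 - (fun ρ : HW.π₁ →* SU2 => ((ρ ga : M2).trace).re) ^ 2) := by
    funext ρ
    rfl
  rw [this]
  exact mul_mem (trace_re_mem _) (sub_mem (algebraMap_mem _ _) (pow_mem (trace_re_mem _) 2))

theorem SU2.trace_eq_re (g : SU2) : (g : M2).trace = ((g : M2).trace.re : ℂ) :=
  Complex.ext rfl (by rw [SU2.trace_im]; simp)

theorem genPoly_case {ρ : HW.π₁ →* SU2} (h : genPoly ρ ≠ 0) : (ρ ga : M2).trace = 0 ∧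
    (ρ gb : M2).trace = 0 ∧ ((ρ ga : M2) * (ρ gb : M2)).trace ≠ 0 := by
  have h1 : ((ρ (ga * gb) : M2).trace).re ≠ 0 := left_ne_zero_of_mul h
  have h2 : 4 - ((ρ ga : M2).trace).re ^ 2 ≠ 0 := right_ne_zero_of_mul h
  have hab : ((ρ ga : M2) * (ρ gb : M2)).trace ≠ 0 := by
    intro h3
    apply h1
    rw [map_mul, Submonoid.coe_mul, h3]; rfl
  by_cases ha : (ρ ga : M2).trace = 0
  · by_cases hb : (ρ gb : M2).trace = 0
    · exact ⟨ha, hb, hab⟩
    · exact absurd (anti_trace (K2a (ρ := ρ) rel_ab hb) ha) hab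
  · by_cases hb : (ρ gb : M2).trace = 0
    · refine absurd (anti_trace (K2a (ρ := ρ) rel_ba ha) hb) ?_
      rwa [Matrix.trace_mul_comm]
    · exfalso
      apply h2
      obtain ⟨a1, a2⟩ := central (K2a (ρ := ρ) rel_ba ha) (K2a (ρ := ρ) rel_ab hb) hb ha
      have h3 := congrArg Matrix.trace a2
      rw [Matrix.trace_smul, Matrix.trace_one, smul_eq_mul] at h3
      have h4 : (ρ ga : M2).trace ^ 2 = 4 := by
        have : (ρ ga : M2).trace * (ρ ga : M2).trace = (2 / (ρ ga : M2).trace *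
          (Fintype.card (Fin 2) : ℂ)) * (ρ ga : M2).trace := by rw [← h3]
        rw [pow_two, this]
        simp
        field_simp
        norm_num
      have h5 := SU2.trace_eq_re (ρ ga)
      rw [h5] at h4
      have h6 : ((ρ ga : M2).trace).re ^ 2 = 4 := by exact_mod_cast h4
      rw [h6, sub_self]

/-- the generic locus -/
def genLocus : Set (Moduli HW.π₁) := {A | ∃ ρ, Moduli.mk ρ = A ∧ genPoly ρ ≠ 0}

theorem genPoly_conj {ρ ρ' : HW.π₁ →* SU2} (h : Moduli.mk ρ = Moduli.mk ρ') :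
    genPoly ρ' = genPoly ρ := by
  rw [genPoly, genPoly, trace_conj_eq h, trace_conj_eq h]

theorem genLocus_open : IsZariskiOpen genLocus := by
  refine ⟨{genPoly}, ?_, ?_⟩
  · rintro _ rfl; exact genPoly_mem
  · intro ρ
    constructor
    · rintro ⟨ρ', h1, h2⟩
      refine ⟨genPoly, rfl, ?_⟩
      rwa [genPoly_conj h1]
    · rintro ⟨_, rfl, h⟩
      exact ⟨ρ, rfl, h⟩

/-- the matrix `diag(i, -i)` -/
def matI : SU2 := ⟨!![Complex.I, 0; 0, -Complex.I], by
  rw [Matrix.mem_specialUnitaryGroup_iff]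
  constructor
  · rw [Matrix.mem_unitaryGroup_iff, Matrix.star_eq_conjTranspose]
    ext i j
    fin_cases i <;> fin_cases j <;> simp [Matrix.mul_apply, Fin.sum_univ_two]
  · simp [Matrix.det_fin_two]⟩

theorem matI_trace : (matI : M2).trace = 0 := by
  simp [matI, Matrix.trace_fin_two]

/-- a representation in the generic locus -/
def rho0 : HW.π₁ →* SU2 := homOf matI matI (rel_of_sq rfl (SU2.sq_sq matI_trace))
  (rel_of_sq rfl (SU2.sq_sq matI_trace))

theorem rho0_gen : genPoly rho0 ≠ 0 := by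
  have h1 : rho0 ga = matI := homOf_ga _ _ _ _
  have h2 : rho0 gb = matI := homOf_gb _ _ _ _
  rw [genPoly, map_mul, h1, h2, Submonoid.coe_mul, trace_sq_re matI_trace, matI_trace]
  norm_num

theorem generic_one : IsGenericValue {A | cs A = cs (Moduli.mk rho0)} 1 := by
  refine ⟨genLocus, genLocus_open, ⟨Moduli.mk rho0, ⟨rho0, rfl, rho0_gen⟩, rfl⟩, ?_⟩
  rintro ρ ⟨⟨ρ', h1, h2⟩, _⟩
  have h3 : genPoly ρ ≠ 0 := by rwa [genPoly_conj h1]
  obtain ⟨ha, hb, hab⟩ := genPoly_case h3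
  rw [hdim_sub, case1_eq ha hb hab]
  norm_num

/-- The exponent of the conjecture for the Hantzsche-Wendt manifold. -/
theorem growthExponent_eq (hcs : IsLocallyConstant cs) : growthExponent cs = 1 / 2 := by
  apply IsGreatest.csSup_eq
  constructor
  · exact ⟨cs (Moduli.mk rho0), 1, generic_one, by norm_num⟩
  · rintro d ⟨c, v, hv, rfl⟩
    have := generic_le hcs hv
    have : (v : ℝ) ≤ 1 := by exact_mod_cast this
    linarith

end

end Pool.Agent.Helper64.WRT
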