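import Pool.Agent.Helper64.WRT.Eval

namespace Pool.Agent.Helper64.WRT

noncomputable section

/-- the braid word of the Hantzsche-Wendt link -/
def hwWord : List (Fin 5 × Bool) := [(1, true), (2, true), (2, true), (1, true), (0, true),
  (0, true), (3, true), (4, true), (4, true), (3, true)]

section
variable {G : Type*} [Group G] (x : Fin 6 → G)

theorem sd0 : (strandData hwWord x 0).2 =
    (x 0)⁻¹ * (x 1)⁻¹ * (x 2)⁻¹ * (x 3)⁻¹ * x 1 * x 3 * x 2 * x 1 * x 0 := by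
  simp [strandData, crossStep, hwWord]
  group

theorem sd1 : (strandData hwWord x 1).2 = (x 1)⁻¹ * x 3 * x 2 * x 1 * x 0 := by
  simp [strandData, crossStep, hwWord]
  group

theorem sd2 : (strandData hwWord x 2).2 = x 1 := by
  simp [strandData, crossStep, hwWord]

theorem sd3 : (strandData hwWord x 3).2 =
    (x 3)⁻¹ * x 1 * x 5 * x 4 * (x 1)⁻¹ * x 3 * x 1 := by
  simp [strandData, crossStep, hwWord]
  group

theorem sd4 : (strandData hwWord x 4).2 = (x 1)⁻¹ * x 3 * x 1 := by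
  simp [strandData, crossStep, hwWord]

theorem sd5 : (strandData hwWord x 5).2 = (x 1)⁻¹ * x 3 * x 1 := by
  simp [strandData, crossStep, hwWord]

end

/-- evaluation of the surgery relators in a group -/
def relVal {G : Type*} [Group G] (x : Fin 6 → G) (i : Fin 6) : G :=
  (strandData hwWord x i).2 * x i ^ (![2, 0, -2, 0, 2, -2] : Fin 6 → ℤ) i

theorem relator_eq (i : Fin 6) : HW.relator i = relVal (FreeGroup.of : Fin 6 → FreeGroup (Fin 6)) i :=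
  rfl

theorem lift_relator {G : Type*} [Group G] (x : Fin 6 → G) (i : Fin 6) :
    FreeGroup.lift x (HW.relator i) = relVal x i := by
  rw [relator_eq]
  fin_cases i
  · simp [relVal, sd0]
  · simp [relVal, sd1]
  · simp [relVal, sd2]
  · simp [relVal, sd3]
  · simp [relVal, sd4]
  · simp [relVal, sd5]

section
variable {G : Type*} [Group G] {x : Fin 6 → G}

theorem rel_aux (a b c d z w : G)
    (h0 : a⁻¹ * c⁻¹ * z⁻¹ * d⁻¹ * c * d * z * c * a * a ^ 2 = 1)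
    (h1 : c⁻¹ * d * z * c * a = 1) (h2 : c * (z ^ 2)⁻¹ = 1)
    (h3 : d⁻¹ * c * w * b * c⁻¹ * d * c = 1) (h4 : c⁻¹ * d * c * b ^ 2 = 1)
    (h5 : c⁻¹ * d * c * (w ^ 2)⁻¹ = 1) :
    c = (a ^ 2)⁻¹ ∧ d = (b ^ 2)⁻¹ ∧ z = b ^ 2 * a⁻¹ ∧ w = a ^ 2 * b⁻¹ ∧
      a * b ^ 2 * a⁻¹ = (b ^ 2)⁻¹ ∧ b * a ^ 2 * b⁻¹ = (a ^ 2)⁻¹ := by
  have K1 : d * z * c * a = c := by
    have := congrArg (fun t => c * t) h1
    simpa [mul_assoc] using this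
  have K1' : a⁻¹ * c⁻¹ * z⁻¹ * d⁻¹ = c⁻¹ := by
    have e : a⁻¹ * c⁻¹ * z⁻¹ * d⁻¹ = (d * z * c * a)⁻¹ := by group
    rw [e, K1]
  have hc : c = (a ^ 2)⁻¹ := by
    have e : (a⁻¹ * c⁻¹ * z⁻¹ * d⁻¹) * c * (d * z * c * a) * a ^ 2 = 1 := by
      rw [← h0]; group
    rw [K1, K1', inv_mul_cancel, one_mul] at e
    exact eq_inv_of_mul_eq_one_left e
  set p := c⁻¹ * d * c with hp
  have hp1 : p = (b ^ 2)⁻¹ := eq_inv_of_mul_eq_one_left h4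
  have hp2 : p = w ^ 2 := by
    have := eq_inv_of_mul_eq_one_left h5
    rwa [inv_inv] at this
  have hpb : Commute p b := by
    rw [hp1]; exact ((Commute.refl b).pow_left 2).inv_left
  have hpw : Commute p w := by
    rw [hp2]; exact (Commute.refl w).pow_left 2
  have hdc : d⁻¹ * c = c * p⁻¹ := by rw [hp]; group
  have h3' : c * (w * b) = 1 := by
    have e : (d⁻¹ * c) * (w * b) * p = 1 := by
      rw [← h3, hp]; group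
    rw [hdc] at e
    have e2 : p⁻¹ * (w * b) * p = w * b := by
      have := (hpw.mul_right hpb).eq
      rw [mul_assoc, ← this, ← mul_assoc, inv_mul_cancel, one_mul]
    rw [mul_assoc, mul_assoc, ← mul_assoc p⁻¹, e2] at e
    exact e
  have hwb : c = (w * b)⁻¹ := eq_inv_of_mul_eq_one_left h3'
  have hcp : Commute c p := by
    rw [hwb]; exact (hpw.symm.mul_left hpb.symm).inv_left
  have hd : d = p := by
    have e : d = c * p * c⁻¹ := by rw [hp]; group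
    rw [e, hcp.eq, mul_assoc, mul_inv_cancel, mul_one]
  have hd1 : d = (b ^ 2)⁻¹ := by rw [hd, hp1]
  have hw : w = a ^ 2 * b⁻¹ := by
    have : w = c⁻¹ * b⁻¹ := by rw [hwb]; group
    rw [this, hc, inv_inv]
  have hca : Commute c a := by
    rw [hc]; exact ((Commute.refl a).pow_left 2).inv_left
  have hz : z = b ^ 2 * a⁻¹ := by
    have e : d * z * a * c = c := by
      rw [mul_assoc (d * z), ← hca.eq, ← mul_assoc]; exact K1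
    have e2 : d * z * a = 1 := by
      have := mul_eq_right.mp e
      exact this
    have e3 : z = d⁻¹ * (d * z * a) * a⁻¹ := by group
    rw [e3, e2, hd1, inv_inv, mul_one]
  refine ⟨hc, hd1, hz, hw, ?_, ?_⟩
  · have e : c = z ^ 2 := by
      have := eq_inv_of_mul_eq_one_left h2
      rwa [inv_inv] at this
    rw [hc, hz] at e
    have e2 : a * b ^ 2 * a⁻¹ * b ^ 2 = a * ((b ^ 2 * a⁻¹) ^ 2) * a := by
      rw [pow_two (b ^ 2 * a⁻¹)]; group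
    rw [← e] at e2
    have e3 : a * b ^ 2 * a⁻¹ * b ^ 2 = 1 := by rw [e2]; group
    exact eq_inv_of_mul_eq_one_left e3
  · have e : d = w ^ 2 := by rw [hd, hp2]
    rw [hd1, hw] at e
    have e2 : b * a ^ 2 * b⁻¹ * a ^ 2 = b * ((a ^ 2 * b⁻¹) ^ 2) * b := by
      rw [pow_two (a ^ 2 * b⁻¹)]; group
    rw [← e] at e2
    have e3 : b * a ^ 2 * b⁻¹ * a ^ 2 = 1 := by rw [e2]; group
    exact eq_inv_of_mul_eq_one_left e3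

theorem relVal_iff (x : Fin 6 → G) : (∀ i, relVal x i = 1) ↔
    ((x 0)⁻¹ * (x 1)⁻¹ * (x 2)⁻¹ * (x 3)⁻¹ * x 1 * x 3 * x 2 * x 1 * x 0 * x 0 ^ 2 = 1 ∧
    (x 1)⁻¹ * x 3 * x 2 * x 1 * x 0 = 1 ∧ x 1 * (x 2 ^ 2)⁻¹ = 1 ∧
    (x 3)⁻¹ * x 1 * x 5 * x 4 * (x 1)⁻¹ * x 3 * x 1 = 1 ∧ (x 1)⁻¹ * x 3 * x 1 * x 4 ^ 2 = 1 ∧
    (x 1)⁻¹ * x 3 * x 1 * (x 5 ^ 2)⁻¹ = 1) := by
  have hall : (∀ i, relVal x i = 1) ↔ (relVal x 0 = 1 ∧ relVal x 1 = 1 ∧ relVal x 2 = 1 ∧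
      relVal x 3 = 1 ∧ relVal x 4 = 1 ∧ relVal x 5 = 1) := by
    constructor
    · intro h; exact ⟨h 0, h 1, h 2, h 3, h 4, h 5⟩
    · rintro ⟨h0, h1, h2, h3, h4, h5⟩ i
      fin_cases i
      exacts [h0, h1, h2, h3, h4, h5]
  rw [hall]
  simp only [relVal, sd0, sd1, sd2, sd3, sd4, sd5]
  simp

/-- Consequences of the surgery relations. -/
theorem rel_consequences (h : ∀ i, relVal x i = 1) :
    x 1 = (x 0 ^ 2)⁻¹ ∧ x 3 = (x 4 ^ 2)⁻¹ ∧ x 2 = x 4 ^ 2 * (x 0)⁻¹ ∧ x 5 = x 0 ^ 2 * (x 4)⁻¹ ∧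
      x 0 * x 4 ^ 2 * (x 0)⁻¹ = (x 4 ^ 2)⁻¹ ∧ x 4 * x 0 ^ 2 * (x 4)⁻¹ = (x 0 ^ 2)⁻¹ := by
  obtain ⟨h0, h1, h2, h3, h4, h5⟩ := (relVal_iff x).mp h
  exact rel_aux _ _ _ _ _ _ h0 h1 h2 h3 h4 h5

/-- Conversely, two elements satisfying the Hantzsche-Wendt relations give a solution of the
surgery relations. -/
theorem rel_of_hw (a b : G) (hab : a * b ^ 2 * a⁻¹ = (b ^ 2)⁻¹)
    (hba : b * a ^ 2 * b⁻¹ = (a ^ 2)⁻¹) (i : Fin 6) :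
    relVal ![a, (a ^ 2)⁻¹, b ^ 2 * a⁻¹, (b ^ 2)⁻¹, b, a ^ 2 * b⁻¹] i = 1 := by
  have hcomm : Commute (a ^ 2) (b ^ 2) := by
    have e : a * (a * b ^ 2 * a⁻¹) * a⁻¹ = b ^ 2 := by
      rw [hab]
      have : a * (b ^ 2)⁻¹ * a⁻¹ = (a * b ^ 2 * a⁻¹)⁻¹ := by group
      rw [this, hab, inv_inv]
    have e2 : a ^ 2 * b ^ 2 * (a ^ 2)⁻¹ = a * (a * b ^ 2 * a⁻¹) * a⁻¹ := by
      rw [pow_two a]; group
    exact mul_inv_eq_iff_eq_mul.mp (e2.trans e)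
  have hz : (b ^ 2 * a⁻¹) ^ 2 = (a ^ 2)⁻¹ := by
    have e3 : a * b ^ 2 * a⁻¹ * b ^ 2 = 1 := by rw [hab, inv_mul_cancel]
    have e2 : (b ^ 2 * a⁻¹) ^ 2 = a⁻¹ * (a * b ^ 2 * a⁻¹ * b ^ 2) * a⁻¹ := by
      rw [pow_two (b ^ 2 * a⁻¹)]; group
    rw [e2, e3]; group
  have hw : (a ^ 2 * b⁻¹) ^ 2 = (b ^ 2)⁻¹ := by
    have e3 : b * a ^ 2 * b⁻¹ * a ^ 2 = 1 := by rw [hba, inv_mul_cancel]
    have e2 : (a ^ 2 * b⁻¹) ^ 2 = b⁻¹ * (b * a ^ 2 * b⁻¹ * a ^ 2) * b⁻¹ := by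
      rw [pow_two (a ^ 2 * b⁻¹)]; group
    rw [e2, e3]; group
  have hcd : a ^ 2 * (b ^ 2)⁻¹ * (a ^ 2)⁻¹ = (b ^ 2)⁻¹ := by
    rw [(hcomm.inv_right).eq, mul_assoc, mul_inv_cancel, mul_one]
  have hp : ((a ^ 2)⁻¹)⁻¹ * (b ^ 2)⁻¹ * (a ^ 2)⁻¹ = (b ^ 2)⁻¹ := by rw [inv_inv, hcd]
  revert i
  rw [relVal_iff]
  refine ⟨?_, ?_, ?_, ?_, ?_, ?_⟩
  · change a⁻¹ * ((a ^ 2)⁻¹)⁻¹ * (b ^ 2 * a⁻¹)⁻¹ * ((b ^ 2)⁻¹)⁻¹ * (a ^ 2)⁻¹ * (b ^ 2)⁻¹ *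
      (b ^ 2 * a⁻¹) * (a ^ 2)⁻¹ * a * a ^ 2 = 1
    have e : a⁻¹ * ((a ^ 2)⁻¹)⁻¹ * (b ^ 2 * a⁻¹)⁻¹ * ((b ^ 2)⁻¹)⁻¹ * (a ^ 2)⁻¹ * (b ^ 2)⁻¹ *
      (b ^ 2 * a⁻¹) * (a ^ 2)⁻¹ * a * a ^ 2 = 1 := by group
    exact e
  · change ((a ^ 2)⁻¹)⁻¹ * (b ^ 2)⁻¹ * (b ^ 2 * a⁻¹) * (a ^ 2)⁻¹ * a = 1
    group
  · change (a ^ 2)⁻¹ * ((b ^ 2 * a⁻¹) ^ 2)⁻¹ = 1
    rw [hz, inv_inv, inv_mul_cancel]
  · change ((b ^ 2)⁻¹)⁻¹ * (a ^ 2)⁻¹ * (a ^ 2 * b⁻¹) * b * ((a ^ 2)⁻¹)⁻¹ * (b ^ 2)⁻¹ * (a ^ 2)⁻¹ = 1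
    rw [mul_assoc _ ((a ^ 2)⁻¹)⁻¹, mul_assoc _ (((a ^ 2)⁻¹)⁻¹ * _), hp]
    group
  · change ((a ^ 2)⁻¹)⁻¹ * (b ^ 2)⁻¹ * (a ^ 2)⁻¹ * b ^ 2 = 1
    rw [hp, inv_mul_cancel]
  · change ((a ^ 2)⁻¹)⁻¹ * (b ^ 2)⁻¹ * (a ^ 2)⁻¹ * ((a ^ 2 * b⁻¹) ^ 2)⁻¹ = 1
    rw [hp, hw, inv_inv, inv_mul_cancel]

end

/-- the generators of the fundamental group -/
def gen (i : Fin 6) : HW.π₁ := PresentedGroup.of (rels := Set.range HW.relator) i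

theorem gen_rel (i : Fin 6) : relVal gen i = 1 := by
  rw [← lift_relator]
  have : (FreeGroup.lift gen : FreeGroup (Fin 6) →* HW.π₁) =
      PresentedGroup.mk (Set.range HW.relator) := by
    ext i
    simp [gen, PresentedGroup.of]
    rfl
  rw [this]
  exact PresentedGroup.one_of_mem ⟨i, rfl⟩

/-- first generator -/
def ga : HW.π₁ := gen 0
/-- second generator -/
def gb : HW.π₁ := gen 4

theorem gab : ga * gb ^ 2 * ga⁻¹ = (gb ^ 2)⁻¹ := (rel_consequences gen_rel).2.2.2.2.1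
theorem gba : gb * ga ^ 2 * gb⁻¹ = (ga ^ 2)⁻¹ := (rel_consequences gen_rel).2.2.2.2.2

theorem closure_ga_gb (H : Subgroup HW.π₁) (ha : ga ∈ H) (hb : gb ∈ H) (x : HW.π₁) : x ∈ H := by
  apply PresentedGroup.generated_by
  intro j
  obtain ⟨h1, h3, h2, h5, _, _⟩ := rel_consequences gen_rel
  change gen j ∈ H
  have ha' : gen 0 ∈ H := ha
  have hb' : gen 4 ∈ H := hb
  have : ∀ j : Fin 6, gen j ∈ H := by
    intro j
    fin_cases j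
    · exact ha'
    · change gen 1 ∈ H
      rw [h1]; exact H.inv_mem (H.pow_mem ha' 2)
    · change gen 2 ∈ H
      rw [h2]; exact H.mul_mem (H.pow_mem hb' 2) (H.inv_mem ha')
    · change gen 3 ∈ H
      rw [h3]; exact H.inv_mem (H.pow_mem hb' 2)
    · exact hb'
    · change gen 5 ∈ H
      rw [h5]; exact H.mul_mem (H.pow_mem ha' 2) (H.inv_mem hb')
  exact this j

section
variable {G : Type*} [Group G]

/-- homomorphisms out of the fundamental group -/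
def homOf (a b : G) (hab : a * b ^ 2 * a⁻¹ = (b ^ 2)⁻¹)
    (hba : b * a ^ 2 * b⁻¹ = (a ^ 2)⁻¹) : HW.π₁ →* G :=
  PresentedGroup.toGroup (rels := Set.range HW.relator)
    (f := ![a, (a ^ 2)⁻¹, b ^ 2 * a⁻¹, (b ^ 2)⁻¹, b, a ^ 2 * b⁻¹]) (by
      rintro _ ⟨i, rfl⟩
      exact (lift_relator _ i).trans (rel_of_hw a b hab hba i))

theorem homOf_ga (a b : G) (hab : a * b ^ 2 * a⁻¹ = (b ^ 2)⁻¹)
    (hba : b * a ^ 2 * b⁻¹ = (a ^ 2)⁻¹) : homOf a b hab hba ga = a :=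
  PresentedGroup.toGroup.of (rels := Set.range HW.relator)
    (f := ![a, (a ^ 2)⁻¹, b ^ 2 * a⁻¹, (b ^ 2)⁻¹, b, a ^ 2 * b⁻¹]) _ (x := (0 : Fin 6))

theorem homOf_gb (a b : G) (hab : a * b ^ 2 * a⁻¹ = (b ^ 2)⁻¹)
    (hba : b * a ^ 2 * b⁻¹ = (a ^ 2)⁻¹) : homOf a b hab hba gb = b :=
  PresentedGroup.toGroup.of (rels := Set.range HW.relator)
    (f := ![a, (a ^ 2)⁻¹, b ^ 2 * a⁻¹, (b ^ 2)⁻¹, b, a ^ 2 * b⁻¹]) _ (x := (4 : Fin 6))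

theorem hom_ext' {φ ψ : HW.π₁ →* G} (ha : φ ga = ψ ga) (hb : φ gb = ψ gb) : φ = ψ := by
  exact MonoidHom.ext fun x => closure_ga_gb (MonoidHom.eqLocus φ ψ) ha hb x

end

end

end Pool.Agent.Helper64.WRT
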