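import Pool.Agent.Helper64.WRT.Defs

open scoped Matrix Kronecker

namespace Pool.Agent.Helper64.WRT

noncomputable section

section

variable (r : ℕ)

/-- `q = t²`. -/
def qq : ℂ := tt r ^ 2

theorem tt_ne_zero : tt r ≠ 0 := Complex.exp_ne_zero _

theorem qq_ne_zero : qq r ≠ 0 := pow_ne_zero _ (tt_ne_zero r)

theorem tt_zpow (n : ℤ) : tt r ^ n = Complex.exp (n * (Real.pi * Complex.I / (2 * r))) := by
  rw [tt, ← Complex.exp_int_mul]

theorem tt_zpow' (n : ℤ) : tt r ^ n = Complex.exp ((Real.pi * n / (2 * r) : ℝ) * Complex.I) := by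
  rw [tt_zpow]; congr 1; push_cast; ring

theorem tt_zpow_two_mul (n : ℤ) : tt r ^ (2 * n) = qq r ^ n := by
  rw [zpow_mul]; rfl

theorem qq_zpow (hr : r ≠ 0) (n : ℤ) : qq r ^ n = Complex.exp ((Real.pi * n / r : ℝ) * Complex.I) := by
  rw [← tt_zpow_two_mul, tt_zpow']
  congr 2
  push_cast
  have : (r : ℂ) ≠ 0 := by exact_mod_cast hr
  field_simp

theorem qq_zpow_sub (hr : r ≠ 0) (n : ℤ) :
    qq r ^ n - qq r ^ (-n) = 2 * Complex.I * (Real.sin (Real.pi * n / r) : ℝ) := by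
  rw [qq_zpow r hr, qq_zpow r hr, Complex.ofReal_sin, Complex.sin]
  have : ((Real.pi * ((-n : ℤ) : ℝ) / r : ℝ) : ℂ) * Complex.I =
    -((Real.pi * n / r : ℝ) : ℂ) * Complex.I := by push_cast; ring
  rw [this]
  have hI : Complex.I * Complex.I = -1 := Complex.I_mul_I
  linear_combination (Complex.exp (-((Real.pi * n / r : ℝ) : ℂ) * Complex.I) -
    Complex.exp (((Real.pi * n / r : ℝ) : ℂ) * Complex.I)) * (-1) * hI

theorem qq_sub_inv (hr : r ≠ 0) :
    qq r - (qq r)⁻¹ = 2 * Complex.I * (Real.sin (Real.pi / r) : ℝ) := by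
  have := qq_zpow_sub r hr 1
  simpa using this

theorem sin_pi_div_pos (hr : 2 ≤ r) : 0 < Real.sin (Real.pi / r) := by
  have h2 : (2 : ℝ) ≤ r := by exact_mod_cast hr
  apply Real.sin_pos_of_pos_of_lt_pi
  · positivity
  · rw [div_lt_iff₀ (by linarith)]
    nlinarith [Real.pi_pos]

theorem qq_sub_inv_ne_zero (hr : 2 ≤ r) : qq r - (qq r)⁻¹ ≠ 0 := by
  rw [qq_sub_inv r (by omega)]
  have := (sin_pi_div_pos r hr).ne'
  simp [Complex.I_ne_zero]
  exact_mod_cast this

theorem qint_def (n : ℤ) : qint r n = (qq r ^ n - qq r ^ (-n)) / (qq r - (qq r)⁻¹) := by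
  rw [qint, tt_zpow_two_mul, ← mul_neg, tt_zpow_two_mul]; rfl

theorem qint_eq_sin (hr : 2 ≤ r) (n : ℤ) :
    qint r n = ((Real.sin (Real.pi * n / r) / Real.sin (Real.pi / r) : ℝ) : ℂ) := by
  rw [qint_def, qq_zpow_sub r (by omega), qq_sub_inv r (by omega)]
  push_cast
  rw [mul_div_mul_left]
  simp [Complex.I_ne_zero]

theorem qint_zero : qint r 0 = 0 := by
  simp [qint_def]

theorem qint_one (hr : 2 ≤ r) : qint r 1 = 1 := by
  rw [qint_def]
  simp
  exact qq_sub_inv_ne_zero r hr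

theorem qint_neg (n : ℤ) : qint r (-n) = - qint r n := by
  rw [qint_def, qint_def, neg_neg, ← neg_div, neg_sub]

theorem qint_ne_zero (hr : 2 ≤ r) (n : ℕ) (hn : 0 < n) (hn' : n < r) : qint r n ≠ 0 := by
  rw [qint_eq_sin r hr]
  have h1 := (sin_pi_div_pos r hr).ne'
  have hr0 : (0 : ℝ) < r := by exact_mod_cast (by omega : 0 < r)
  have h2 : 0 < Real.sin (Real.pi * (n : ℤ) / r) := by
    apply Real.sin_pos_of_pos_of_lt_pi
    · have : (0 : ℝ) < n := by exact_mod_cast hn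
      push_cast
      positivity
    · rw [div_lt_iff₀ hr0]
      have : (n : ℝ) < r := by exact_mod_cast hn'
      push_cast
      nlinarith [Real.pi_pos]
  exact_mod_cast (div_ne_zero h2.ne' h1)

theorem qfact_ne_zero (hr : 2 ≤ r) (n : ℕ) (hn' : n < r) : qfact r n ≠ 0 := by
  rw [qfact, Finset.prod_ne_zero_iff]
  intro k hk
  have hk' := Finset.mem_range.mp hk
  have := qint_ne_zero r hr (k + 1) (by omega) (by omega)
  exact_mod_cast this

theorem qfact_succ (n : ℕ) : qfact r (n + 1) = qfact r n * qint r (n + 1) := by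
  rw [qfact, Finset.prod_range_succ]; rfl

theorem qfact_zero : qfact r 0 = 1 := by simp [qfact]

/-- `[x][y] - [x-m][y+m] = [m][y-x+m]`. -/
theorem qint_identity (hr : 2 ≤ r) (x y m : ℤ) :
    qint r x * qint r y - qint r (x - m) * qint r (y + m) = qint r m * qint r (y - x + m) := by
  have h0 := qq_ne_zero r
  have h1 := qq_sub_inv_ne_zero r hr
  simp only [qint_def]
  rw [div_mul_div_comm, div_mul_div_comm, div_mul_div_comm, ← sub_div]
  congr 1
  simp only [neg_add, neg_sub, zpow_add₀ h0, zpow_sub₀ h0, zpow_neg]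
  have hx := zpow_ne_zero x h0
  have hy := zpow_ne_zero y h0
  have hm := zpow_ne_zero m h0
  field_simp
  ring

/-- `[n + 1] [h + n] = [n] [h + n - 1] + [h + 2 n]`. -/
theorem qint_sum_step (hr : 2 ≤ r) (n h : ℤ) :
    qint r (n + 1) * qint r (h + n) = qint r n * qint r (h + n - 1) + qint r (h + 2 * n) := by
  have h0 := qq_ne_zero r
  have h1 := qq_sub_inv_ne_zero r hr
  simp only [qint_def]
  rw [div_mul_div_comm, div_mul_div_comm]
  rw [show (qq r ^ (h + 2 * n) - qq r ^ (-(h + 2 * n))) / (qq r - (qq r)⁻¹) =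
    ((qq r ^ (h + 2 * n) - qq r ^ (-(h + 2 * n))) * (qq r - (qq r)⁻¹)) /
      ((qq r - (qq r)⁻¹) * (qq r - (qq r)⁻¹)) from by field_simp, ← add_div]
  congr 1
  have h2 : (2 : ℤ) * n = n + n := by ring
  simp only [h2, neg_add, neg_sub, zpow_add₀ h0, zpow_sub₀ h0, zpow_neg, zpow_one]
  have hx := zpow_ne_zero h h0
  have hm := zpow_ne_zero n h0
  field_simp
  ring

end

end

end Pool.Agent.Helper64.WRT
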