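import Pool.Agent.Helper64.WRT.QNum

open scoped Matrix Kronecker

namespace Pool.Agent.Helper64.WRT

noncomputable section

section

variable {r : ℕ}

theorem Idx.ext' {u v : Idx r} (h1 : u.1 = v.1) (h2 : (u.2 : ℕ) = v.2) : u = v := by
  obtain ⟨a, i⟩ := u
  obtain ⟨b, j⟩ := v
  simp only at h1
  subst h1
  congr 1
  exact Fin.ext h2

theorem Idx.dim_eq (s : Idx r) : (s.dim : ℤ) = (s.1 : ℤ) + 1 := by
  simp [Idx.dim]

variable (r)

theorem diag_mul_eq {n : Type*} [Fintype n] [DecidableEq n] (A : Matrix n n ℂ) (d1 d2 : n → ℂ)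
    (h : ∀ u s, A u s ≠ 0 → d1 u = d2 s) :
    Matrix.diagonal d1 * A = A * Matrix.diagonal d2 := by
  ext u s
  rw [Matrix.diagonal_mul, Matrix.mul_diagonal]
  by_cases h0 : A u s = 0
  · simp [h0]
  · rw [h u s h0, mul_comm]

theorem matE_ne {u s : Idx r} (h : matE r u s ≠ 0) : u.1 = s.1 ∧ (u.2 : ℕ) + 1 = s.2 := by
  by_contra hc
  exact h (if_neg hc)

theorem matF_ne {u s : Idx r} (h : matF r u s ≠ 0) : u.1 = s.1 ∧ (u.2 : ℕ) = s.2 + 1 := by
  by_contra hc
  exact h (if_neg hc)

theorem matE_mul_matF : matE r * matF r =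
    Matrix.diagonal (fun s => qint r (s.2 + 1) * qint r (s.dim - (s.2 + 1))) := by
  ext u s
  rw [Matrix.mul_apply, Matrix.diagonal_apply]
  by_cases h : (s.2 : ℕ) + 1 < s.1 + 1
  · rw [Finset.sum_eq_single (⟨s.1, ⟨s.2 + 1, h⟩⟩ : Idx r)]
    · have hF : matF r (⟨s.1, ⟨s.2 + 1, h⟩⟩ : Idx r) s = 1 := by
        rw [matF, if_pos]; simp
      rw [hF, mul_one]
      by_cases hus : u = s
      · subst hus
        rw [matE, if_pos ⟨rfl, rfl⟩, if_pos rfl]
        simp [Idx.dim]
      · rw [if_neg hus, matE, if_neg]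
        rintro ⟨h1, h2⟩
        refine hus (Idx.ext' (v := s) h1 ?_)
        simpa using h2
    · intro v _ hv
      have : matF r v s = 0 := by
        by_contra hc
        have := matF_ne r hc
        exact hv (Idx.ext' this.1 this.2)
      rw [this, mul_zero]
    · intro h; exact absurd (Finset.mem_univ _) h
  · have h1 : (s.2 : ℕ) = s.1 := by have := s.2.2; omega
    rw [Finset.sum_eq_zero]
    · have : qint r (s.dim - (s.2 + 1)) = 0 := by
        rw [Idx.dim_eq, h1]; simp [qint_zero]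
      by_cases hus : u = s
      · subst hus; rw [if_pos rfl, this, mul_zero]
      · rw [if_neg hus]
    · intro v _
      have : matF r v s = 0 := by
        by_contra hc
        have h2 := matF_ne r hc
        have h3 := v.2.2
        have h4 : (v.1 : ℕ) = s.1 := by rw [h2.1]
        omega
      rw [this, mul_zero]

theorem matF_mul_matE : matF r * matE r =
    Matrix.diagonal (fun s => qint r s.2 * qint r (s.dim - s.2)) := by
  ext u s
  rw [Matrix.mul_apply, Matrix.diagonal_apply]
  by_cases h : (s.2 : ℕ) = 0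
  · rw [Finset.sum_eq_zero]
    · by_cases hus : u = s
      · subst hus; rw [if_pos rfl, h]; simp [qint_zero]
      · rw [if_neg hus]
    · intro v _
      have : matE r v s = 0 := by
        by_contra hc
        have h2 := matE_ne r hc
        omega
      rw [this, mul_zero]
  · have h' : (s.2 : ℕ) - 1 < s.1 + 1 := by have := s.2.2; omega
    rw [Finset.sum_eq_single (⟨s.1, ⟨s.2 - 1, h'⟩⟩ : Idx r)]
    · have hE : matE r (⟨s.1, ⟨s.2 - 1, h'⟩⟩ : Idx r) s = qint r s.2 * qint r (s.dim - s.2) := by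
        rw [matE, if_pos]
        refine ⟨rfl, ?_⟩
        simp only
        omega
      rw [hE]
      by_cases hus : u = s
      · subst hus
        rw [matF, if_pos ⟨rfl, by simp only; omega⟩, if_pos rfl, one_mul]
      · rw [if_neg hus, matF, if_neg, zero_mul]
        rintro ⟨h1, h2⟩
        refine hus (Idx.ext' (v := s) h1 ?_)
        simp only at h2
        omega
    · intro v _ hv
      have : matE r v s = 0 := by
        by_contra hc
        have h2 := matE_ne r hc
        refine hv (Idx.ext' (v := ⟨s.1, ⟨s.2 - 1, h'⟩⟩) h2.1 ?_)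
        simp only
        omega
      rw [this, mul_zero]
    · intro h; exact absurd (Finset.mem_univ _) h

theorem commEF (hr : 2 ≤ r) : matE r * matF r =
    matF r * matE r + Matrix.diagonal (fun s => qint r s.wt) := by
  rw [matE_mul_matF, matF_mul_matE, Matrix.diagonal_add]
  congr 1
  funext s
  have := qint_identity r hr (s.2 + 1) (s.dim - (s.2 + 1)) 1
  rw [qint_one r hr, one_mul] at this
  have h1 : ((s.2 : ℕ) : ℤ) + 1 - 1 = (s.2 : ℕ) := by ring
  have h2 : (s.dim : ℤ) - (((s.2 : ℕ) : ℤ) + 1) + 1 = s.dim - (s.2 : ℕ) := by ring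
  have h3 : (s.dim : ℤ) - (((s.2 : ℕ) : ℤ) + 1) - (((s.2 : ℕ) : ℤ) + 1) + 1 = s.wt := by
    rw [Idx.dim_eq, Idx.wt]; ring
  rw [h1, h2, h3] at this
  linear_combination this

theorem matE_pow_ne (n : ℕ) {u s : Idx r} (h : (matE r ^ n) u s ≠ 0) :
    u.1 = s.1 ∧ (u.2 : ℕ) + n = s.2 := by
  induction n generalizing u with
  | zero =>
    rw [pow_zero, Matrix.one_apply] at h
    have : u = s := by by_contra hc; exact h (if_neg hc)
    subst this; simp
  | succ n ih =>
    rw [pow_succ', Matrix.mul_apply] at h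
    obtain ⟨v, _, hv⟩ := Finset.exists_ne_zero_of_sum_ne_zero h
    have h1 := matE_ne r (left_ne_zero_of_mul hv)
    have h2 := ih (right_ne_zero_of_mul hv)
    refine ⟨h1.1.trans h2.1, by omega⟩

theorem matF_pow_ne (n : ℕ) {u s : Idx r} (h : (matF r ^ n) u s ≠ 0) :
    u.1 = s.1 ∧ (u.2 : ℕ) = s.2 + n := by
  induction n generalizing u with
  | zero =>
    rw [pow_zero, Matrix.one_apply] at h
    have : u = s := by by_contra hc; exact h (if_neg hc)
    subst this; simp
  | succ n ih =>
    rw [pow_succ', Matrix.mul_apply] at h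
    obtain ⟨v, _, hv⟩ := Finset.exists_ne_zero_of_sum_ne_zero h
    have h1 := matF_ne r (left_ne_zero_of_mul hv)
    have h2 := ih (right_ne_zero_of_mul hv)
    refine ⟨h1.1.trans h2.1, by omega⟩

theorem matE_pow_eq_zero : matE r ^ (r - 1) = 0 := by
  ext u s
  by_contra h
  have h1 := matE_pow_ne r (r - 1) h
  have h2 := s.2.2
  have h3 := s.1.2
  omega

theorem wt_of_E {n : ℕ} {u s : Idx r} (h : (matE r ^ n) u s ≠ 0) : u.wt = s.wt + 2 * n := by
  have := matE_pow_ne r n h
  have h1 : ((u.1 : ℕ) : ℤ) = ((s.1 : ℕ) : ℤ) := by rw [this.1]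
  have h2 : ((s.2 : ℕ) : ℤ) = (u.2 : ℕ) + n := by exact_mod_cast this.2.symm
  rw [Idx.wt, Idx.wt, h1, h2]; ring

theorem wt_of_F {n : ℕ} {u s : Idx r} (h : (matF r ^ n) u s ≠ 0) : u.wt = s.wt - 2 * n := by
  have := matF_pow_ne r n h
  have h1 : ((u.1 : ℕ) : ℤ) = ((s.1 : ℕ) : ℤ) := by rw [this.1]
  have h2 : ((u.2 : ℕ) : ℤ) = (s.2 : ℕ) + n := by exact_mod_cast this.2
  rw [Idx.wt, Idx.wt, h1, h2]; ring

theorem commEnF (hr : 2 ≤ r) (n : ℕ) : matE r ^ (n + 1) * matF r =
    matF r * matE r ^ (n + 1) +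
      matE r ^ n * Matrix.diagonal (fun s => qint r (n + 1) * qint r (s.wt + n)) := by
  induction n with
  | zero =>
    simp only [zero_add, pow_one, pow_zero, one_mul, Nat.cast_zero, add_zero]
    rw [commEF r hr, qint_one r hr]
    simp
  | succ n ih =>
    have h1 : matE r ^ (n + 1 + 1) * matF r = matE r * (matE r ^ (n + 1) * matF r) := by
      rw [← Matrix.mul_assoc, ← pow_succ']
    have h2 : Matrix.diagonal (fun s : Idx r => qint r s.wt) * matE r ^ (n + 1) =
        matE r ^ (n + 1) * Matrix.diagonal (fun s : Idx r => qint r (s.wt + 2 * (n + 1))) := by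
      apply diag_mul_eq
      intro u s h
      rw [wt_of_E r h]
      push_cast
      rfl
    rw [h1, ih, Matrix.mul_add, ← Matrix.mul_assoc, commEF r hr, Matrix.add_mul, h2,
      Matrix.mul_assoc (matF r), ← pow_succ', ← Matrix.mul_assoc (matE r), ← pow_succ', add_assoc,
      ← Matrix.mul_add, Matrix.diagonal_add]
    congr 3
    funext s
    have := qint_sum_step r hr (n + 1) s.wt
    push_cast
    rw [show s.wt + ((n : ℤ) + 1) = s.wt + ((n + 1 : ℤ)) from rfl, this,
      show s.wt + ((n : ℤ) + 1) - 1 = s.wt + n by ring]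
    ring

end

end

end Pool.Agent.Helper64.WRT
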