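import Pool.Agent.Helper64.WRT.RMatrix

open scoped Matrix Kronecker

namespace Pool.Agent.Helper64.WRT

noncomputable section

section

variable (r : ℕ)

/-- coefficients of the R-matrix -/
def cR (n : ℕ) : ℂ := tt r ^ (n * (n - 1)) * (tt r ^ 2 - (tt r ^ 2)⁻¹) ^ n / qfact r n

theorem cR_zero : cR r 0 = 1 := by simp [cR, qfact]

theorem cR_succ (hr : 2 ≤ r) (n : ℕ) (hn : n + 1 < r) :
    cR r (n + 1) * qint r (n + 1) = cR r n * (qq r ^ n * (qq r - (qq r)⁻¹)) := by
  have h1 := qfact_ne_zero r hr n (by omega)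
  have h2 : qint r (n + 1) ≠ 0 := by
    have := qint_ne_zero r hr (n + 1) (by omega) hn
    exact_mod_cast this
  have h3 : tt r ^ ((n + 1) * (n + 1 - 1)) = tt r ^ (n * (n - 1)) * qq r ^ n := by
    rw [qq, ← pow_mul, ← pow_add]
    congr 1
    cases n with
    | zero => simp
    | succ n => simp; ring
  rw [cR, cR, qfact_succ, h3]
  have hq : tt r ^ 2 = qq r := rfl
  rw [hq, pow_succ (qq r - (qq r)⁻¹) n]
  generalize (qq r - (qq r)⁻¹) = A
  generalize A ^ n = B
  field_simp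

/-- `K` -/
def matK : Matrix (Idx r) (Idx r) ℂ := Matrix.diagonal (fun s => qq r ^ s.wt)
/-- `K⁻¹` -/
def matKi : Matrix (Idx r) (Idx r) ℂ := Matrix.diagonal (fun s => qq r ^ (-s.wt))

def matT : Matrix (Idx r × Idx r) (Idx r × Idx r) ℂ :=
  Matrix.diagonal (fun p : Idx r × Idx r => tt r ^ (p.1.wt * p.2.wt))

def theta : Matrix (Idx r × Idx r) (Idx r × Idx r) ℂ :=
  ∑ n ∈ Finset.range r, cR r n • ((matE r ^ n) ⊗ₖ (matF r ^ n))

theorem matR_eq : matR r = matT r * theta r := rfl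

theorem key_comm (hr : 2 ≤ r) (n : ℕ) (hn : n + 1 < r) :
    cR r (n + 1) • (matE r ^ (n + 1) * matF r - matF r * matE r ^ (n + 1)) =
      cR r n • (matK r * matE r ^ n - matE r ^ n * matKi r) := by
  have h1 : matK r * matE r ^ n =
      matE r ^ n * Matrix.diagonal (fun s : Idx r => qq r ^ (s.wt + 2 * n)) := by
    apply diag_mul_eq
    intro u s h
    rw [wt_of_E r h]
  rw [h1, matKi, ← Matrix.mul_sub, commEnF r hr, add_sub_cancel_left, ← Matrix.mul_smul,
    ← Matrix.mul_smul]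
  congr 1
  rw [← Matrix.diagonal_smul, Matrix.diagonal_sub, ← Matrix.diagonal_smul]
  congr 1
  funext s
  simp only [Pi.smul_apply, smul_eq_mul]
  rw [← mul_assoc, cR_succ r hr n hn, mul_assoc]
  congr 1
  rw [qint_def]
  have h0 := qq_ne_zero r
  have h2 := qq_sub_inv_ne_zero r hr
  rw [mul_assoc, mul_div_assoc', mul_comm (qq r - (qq r)⁻¹), mul_div_assoc, div_self h2, mul_one,
    neg_add, zpow_add₀ h0, zpow_add₀ h0, zpow_add₀ h0, mul_comm (2 : ℤ), zpow_mul, zpow_neg,
    zpow_neg, zpow_natCast]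
  have := pow_ne_zero n h0
  have h3 := zpow_ne_zero s.wt h0
  field_simp

theorem theta_comm (hr : 2 ≤ r) :
    theta r * (matF r ⊗ₖ (1 : Matrix (Idx r) (Idx r) ℂ) + matKi r ⊗ₖ matF r) =
      (matK r ⊗ₖ matF r + matF r ⊗ₖ (1 : Matrix (Idx r) (Idx r) ℂ)) * theta r := by
  rw [Matrix.mul_add, Matrix.add_mul]
  have e1 : theta r * (matF r ⊗ₖ (1 : Matrix (Idx r) (Idx r) ℂ)) -
      (matF r ⊗ₖ (1 : Matrix (Idx r) (Idx r) ℂ)) * theta r =
      ∑ n ∈ Finset.range r,
        (cR r n • (matE r ^ n * matF r - matF r * matE r ^ n)) ⊗ₖ (matF r ^ n) := by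
    rw [theta, Finset.sum_mul, Finset.mul_sum, ← Finset.sum_sub_distrib]
    refine Finset.sum_congr rfl fun n _ => ?_
    rw [Matrix.smul_mul, Matrix.mul_smul, ← Matrix.mul_kronecker_mul, ← Matrix.mul_kronecker_mul,
      Matrix.mul_one, Matrix.one_mul, ← smul_sub, Matrix.smul_kronecker]
    congr 1
    ext ⟨i, j⟩ ⟨k, l⟩
    simp [Matrix.kroneckerMap_apply, sub_mul]
  have e2 : (matK r ⊗ₖ matF r) * theta r - theta r * (matKi r ⊗ₖ matF r) =
      ∑ n ∈ Finset.range r,
        (cR r n • (matK r * matE r ^ n - matE r ^ n * matKi r)) ⊗ₖ (matF r ^ (n + 1)) := by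
    rw [theta, Finset.sum_mul, Finset.mul_sum, ← Finset.sum_sub_distrib]
    refine Finset.sum_congr rfl fun n _ => ?_
    rw [Matrix.smul_mul, Matrix.mul_smul, ← Matrix.mul_kronecker_mul, ← Matrix.mul_kronecker_mul,
      ← pow_succ, ← pow_succ', ← smul_sub, Matrix.smul_kronecker]
    congr 1
    ext ⟨i, j⟩ ⟨k, l⟩
    simp [Matrix.kroneckerMap_apply, sub_mul]
  have e3 : ∑ n ∈ Finset.range r,
        (cR r n • (matE r ^ n * matF r - matF r * matE r ^ n)) ⊗ₖ (matF r ^ n) =
      ∑ n ∈ Finset.range r,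
        (cR r n • (matK r * matE r ^ n - matE r ^ n * matKi r)) ⊗ₖ (matF r ^ (n + 1)) := by
    obtain ⟨r', rfl⟩ : ∃ r', r = r' + 1 := ⟨r - 1, by omega⟩
    rw [Finset.sum_range_succ', Finset.sum_range_succ]
    have h0 := matE_pow_eq_zero (r' + 1)
    simp only [Nat.add_sub_cancel] at h0
    rw [h0]
    simp only [pow_zero, Matrix.one_mul, Matrix.mul_one, sub_self, smul_zero,
      Matrix.zero_kronecker, add_zero, Matrix.mul_zero, Matrix.zero_mul]
    refine Finset.sum_congr rfl fun n hn => ?_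
    rw [key_comm (r' + 1) hr n (by have := Finset.mem_range.mp hn; omega)]
  rw [← e1, ← e2] at e3
  rw [sub_eq_sub_iff_add_eq_add] at e3
  rw [e3]

theorem matT_comm1 : matT r * (matK r ⊗ₖ matF r) =
    ((1 : Matrix (Idx r) (Idx r) ℂ) ⊗ₖ matF r) * matT r := by
  ext ⟨i, j⟩ ⟨k, l⟩
  rw [matT, Matrix.diagonal_mul, Matrix.mul_diagonal, Matrix.kroneckerMap_apply,
    Matrix.kroneckerMap_apply, matK, Matrix.diagonal_apply, Matrix.one_apply]
  by_cases hik : i = k
  · subst hik
    by_cases hF : matF r j l = 0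
    · simp [hF]
    · have h := wt_of_F r (n := 1) (by rwa [pow_one] : (matF r ^ 1) j l ≠ 0)
      simp only [if_true, one_mul]
      rw [h, ← tt_zpow_two_mul]
      rw [mul_comm (matF r j l), ← mul_assoc, ← zpow_add₀ (tt_ne_zero r)]
      congr 2
      push_cast
      ring
  · simp [hik]

theorem matT_comm2 : matT r * (matF r ⊗ₖ (1 : Matrix (Idx r) (Idx r) ℂ)) =
    (matF r ⊗ₖ matKi r) * matT r := by
  ext ⟨i, j⟩ ⟨k, l⟩
  rw [matT, Matrix.diagonal_mul, Matrix.mul_diagonal, Matrix.kroneckerMap_apply,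
    Matrix.kroneckerMap_apply, matKi, Matrix.diagonal_apply, Matrix.one_apply]
  by_cases hjl : j = l
  · subst hjl
    by_cases hF : matF r i k = 0
    · simp [hF]
    · have h := wt_of_F r (n := 1) (by rwa [pow_one] : (matF r ^ 1) i k ≠ 0)
      simp only [if_true, mul_one]
      rw [h, ← tt_zpow_two_mul, mul_assoc, ← zpow_add₀ (tt_ne_zero r), mul_comm]
      congr 2
      push_cast
      ring
  · simp [hjl]

/-- coproduct of `F` -/
def dF : Matrix (Idx r × Idx r) (Idx r × Idx r) ℂ :=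
  matF r ⊗ₖ (1 : Matrix (Idx r) (Idx r) ℂ) + matKi r ⊗ₖ matF r

/-- opposite coproduct of `F` -/
def dFop : Matrix (Idx r × Idx r) (Idx r × Idx r) ℂ :=
  (1 : Matrix (Idx r) (Idx r) ℂ) ⊗ₖ matF r + matF r ⊗ₖ matKi r

theorem matR_comm (hr : 2 ≤ r) : matR r * dF r = dFop r * matR r := by
  rw [matR_eq, Matrix.mul_assoc, dF, theta_comm r hr, ← Matrix.mul_assoc, Matrix.mul_add,
    matT_comm1, matT_comm2, ← Matrix.add_mul, Matrix.mul_assoc]
  rfl

theorem dFop_swap (u s : Idx r × Idx r) : dFop r u.swap s = dF r u s.swap := by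
  obtain ⟨i, j⟩ := u
  obtain ⟨k, l⟩ := s
  simp only [dFop, dF, Prod.swap, Matrix.add_apply, Matrix.kroneckerMap_apply]
  ring

theorem braiding_eq (u s : Idx r × Idx r) : braiding r u s = matR r u.swap s := rfl

theorem braiding_comm (hr : 2 ≤ r) : braiding r * dF r = dF r * braiding r := by
  ext u s
  have h := congrFun (congrFun (matR_comm r hr) u.swap) s
  rw [Matrix.mul_apply, Matrix.mul_apply] at h
  rw [Matrix.mul_apply, Matrix.mul_apply]
  simp only [braiding_eq]
  rw [h]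
  rw [← (Equiv.prodComm (Idx r) (Idx r)).sum_comp]
  refine Finset.sum_congr rfl fun v _ => ?_
  rw [dFop_swap]
  simp [Equiv.prodComm]

/-- the full twist of two strands -/
def twist2 : Matrix (Idx r × Idx r) (Idx r × Idx r) ℂ := braiding r * braiding r

theorem twist2_comm (hr : 2 ≤ r) : twist2 r * dF r = dF r * twist2 r := by
  rw [twist2, Matrix.mul_assoc, braiding_comm r hr, ← Matrix.mul_assoc, braiding_comm r hr,
    Matrix.mul_assoc]

theorem matR_ne {u s : Idx r × Idx r} (h : matR r u s ≠ 0) :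
    u.1.1 = s.1.1 ∧ u.2.1 = s.2.1 ∧ u.1.wt + u.2.wt = s.1.wt + s.2.wt := by
  rw [matR_eq, matT, Matrix.diagonal_mul] at h
  have h1 := right_ne_zero_of_mul h
  rw [theta, Matrix.sum_apply] at h1
  obtain ⟨n, _, hn⟩ := Finset.exists_ne_zero_of_sum_ne_zero h1
  rw [Matrix.smul_apply, smul_eq_mul, Matrix.kroneckerMap_apply] at hn
  have h2 := right_ne_zero_of_mul hn
  have hE := left_ne_zero_of_mul h2
  have hF := right_ne_zero_of_mul h2
  refine ⟨(matE_pow_ne r n hE).1, (matF_pow_ne r n hF).1, ?_⟩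
  rw [wt_of_E r hE, wt_of_F r hF]
  ring

theorem braiding_ne {u s : Idx r × Idx r} (h : braiding r u s ≠ 0) :
    u.1.1 = s.2.1 ∧ u.2.1 = s.1.1 ∧ u.1.wt + u.2.wt = s.1.wt + s.2.wt := by
  have := matR_ne r h
  refine ⟨this.2.1, this.1, ?_⟩
  rw [← this.2.2, add_comm]

theorem twist2_ne {u s : Idx r × Idx r} (h : twist2 r u s ≠ 0) :
    u.1.1 = s.1.1 ∧ u.2.1 = s.2.1 ∧ u.1.wt + u.2.wt = s.1.wt + s.2.wt := by
  rw [twist2, Matrix.mul_apply] at h
  obtain ⟨v, _, hv⟩ := Finset.exists_ne_zero_of_sum_ne_zero h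
  have h1 := braiding_ne r (left_ne_zero_of_mul hv)
  have h2 := braiding_ne r (right_ne_zero_of_mul hv)
  exact ⟨h1.1.trans h2.2.1, h1.2.1.trans h2.1, h1.2.2.trans h2.2.2⟩

/-- the encircling operator: partial quantum trace of the full twist, the colour of the closed
strand being weighted by `φ` -/
def ring (φ : Fin (r - 1) → ℂ) : Matrix (Idx r) (Idx r) ℂ := fun u s =>
  ∑ y : Idx r, φ y.1 * qq r ^ y.wt * twist2 r (u, y) (s, y)

theorem ring_mul_F (hr : 2 ≤ r) (φ : Fin (r - 1) → ℂ) :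
    ring r φ * matF r = matF r * ring r φ := by
  ext x x'
  have key : ∀ y : Idx r,
      ∑ z, twist2 r (x, y) (z, y) * matF r z x' +
        ∑ z, twist2 r (x, y) (x', z) * (qq r ^ (-x'.wt) * matF r z y) =
      ∑ z, matF r x z * twist2 r (z, y) (x', y) +
        ∑ z, (qq r ^ (-x.wt) * matF r y z) * twist2 r (x, z) (x', y) := by
    intro y
    have h := congrFun (congrFun (twist2_comm r hr) (x, y)) (x', y)
    rw [Matrix.mul_apply, Matrix.mul_apply, Fintype.sum_prod_type, Fintype.sum_prod_type] at h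
    simp only [dF, Matrix.add_apply, Matrix.kroneckerMap_apply, mul_add, add_mul,
      Finset.sum_add_distrib, Matrix.one_apply, matKi, Matrix.diagonal_apply] at h
    convert h using 2
    · refine Finset.sum_congr rfl fun z _ => ?_
      simp
    · rw [Finset.sum_comm]
      refine Finset.sum_congr rfl fun z _ => ?_
      simp
    · refine Finset.sum_congr rfl fun z _ => ?_
      simp
    · rw [Finset.sum_comm]
      refine Finset.sum_congr rfl fun z _ => ?_
      simp
  have e1 : (ring r φ * matF r) x x' =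
      ∑ y, φ y.1 * qq r ^ y.wt * ∑ z, twist2 r (x, y) (z, y) * matF r z x' := by
    rw [Matrix.mul_apply]
    simp only [ring, Finset.sum_mul, Finset.mul_sum]
    rw [Finset.sum_comm]
    simp only [mul_assoc]
  have e2 : (matF r * ring r φ) x x' =
      ∑ y, φ y.1 * qq r ^ y.wt * ∑ z, matF r x z * twist2 r (z, y) (x', y) := by
    rw [Matrix.mul_apply]
    simp only [ring, Finset.mul_sum]
    rw [Finset.sum_comm]
    refine Finset.sum_congr rfl fun y _ => Finset.sum_congr rfl fun z _ => ?_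
    ring
  have e3 : ∑ y, φ y.1 * qq r ^ y.wt *
        ∑ z, twist2 r (x, y) (x', z) * (qq r ^ (-x'.wt) * matF r z y) =
      ∑ y, φ y.1 * qq r ^ y.wt *
        ∑ z, (qq r ^ (-x.wt) * matF r y z) * twist2 r (x, z) (x', y) := by
    simp only [Finset.mul_sum]
    rw [Finset.sum_comm]
    refine Finset.sum_congr rfl fun y _ => Finset.sum_congr rfl fun z _ => ?_
    -- terms: left (z, y) , right (y, z)
    by_cases hF : matF r y z = 0
    · simp [hF]
    by_cases hA : twist2 r (x, z) (x', y) = 0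
    · simp [hA]
    have h1 := twist2_ne r hA
    have h2 := wt_of_F r (n := 1) (by rwa [pow_one] : (matF r ^ 1) y z ≠ 0)
    have h3 := matF_ne r hF
    have h4 : x.wt + z.wt = x'.wt + y.wt := h1.2.2
    rw [h3.1]
    have h5 : qq r ^ z.wt * qq r ^ (-x'.wt) = qq r ^ y.wt * qq r ^ (-x.wt) := by
      rw [← zpow_add₀ (qq_ne_zero r), ← zpow_add₀ (qq_ne_zero r)]
      congr 1
      push_cast at h2
      linarith
    linear_combination (φ z.1 * twist2 r (x, z) (x', y) * matF r y z) * h5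
  rw [e1, e2]
  have : ∑ y, φ y.1 * qq r ^ y.wt * (∑ z, twist2 r (x, y) (z, y) * matF r z x' +
        ∑ z, twist2 r (x, y) (x', z) * (qq r ^ (-x'.wt) * matF r z y)) =
      ∑ y, φ y.1 * qq r ^ y.wt * (∑ z, matF r x z * twist2 r (z, y) (x', y) +
        ∑ z, (qq r ^ (-x.wt) * matF r y z) * twist2 r (x, z) (x', y)) := by
    refine Finset.sum_congr rfl fun y _ => ?_
    rw [key y]
  simp only [mul_add, Finset.sum_add_distrib] at this
  rw [e3] at this
  exact add_right_cancel this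

theorem ring_ne (φ : Fin (r - 1) → ℂ) {u s : Idx r} (h : ring r φ u s ≠ 0) : u = s := by
  obtain ⟨y, _, hy⟩ := Finset.exists_ne_zero_of_sum_ne_zero h
  have h1 := twist2_ne r (right_ne_zero_of_mul hy)
  have h2 : u.wt = s.wt := by have := h1.2.2; simp only at this; linarith
  have h3 : u.1 = s.1 := h1.1
  refine Idx.ext' h3 ?_
  have h4 : ((u.1 : ℕ) : ℤ) = ((s.1 : ℕ) : ℤ) := by rw [h3]
  rw [Idx.wt, Idx.wt, h4] at h2
  omega

theorem matE_pow_zero_idx {n : ℕ} (hn : 0 < n) {u s : Idx r} (hs : (s.2 : ℕ) = 0) :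
    (matE r ^ n) u s = 0 := by
  by_contra h
  have := (matE_pow_ne r n h).2
  omega

theorem matR_col (hr : 2 ≤ r) (u : Idx r × Idx r) (s y : Idx r) (hs : (s.2 : ℕ) = 0) :
    matR r u (s, y) = if u = (s, y) then tt r ^ (s.wt * y.wt) else 0 := by
  rw [matR_eq, matT, Matrix.diagonal_mul, theta, Matrix.sum_apply,
    Finset.sum_eq_single_of_mem 0 (Finset.mem_range.mpr (by omega))]
  · rw [cR_zero, one_smul, pow_zero, pow_zero, Matrix.one_kronecker_one, Matrix.one_apply]
    by_cases h : u = (s, y)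
    · subst h; simp
    · simp [h]
  · intro n _ hn
    rw [Matrix.smul_apply, Matrix.kroneckerMap_apply,
      matE_pow_zero_idx r (Nat.pos_of_ne_zero hn) hs]
    simp

theorem matR_diag (hr : 2 ≤ r) (u : Idx r × Idx r) :
    matR r u u = tt r ^ (u.1.wt * u.2.wt) := by
  rw [matR_eq, matT, Matrix.diagonal_mul, theta, Matrix.sum_apply,
    Finset.sum_eq_single_of_mem 0 (Finset.mem_range.mpr (by omega))]
  · rw [cR_zero, one_smul, pow_zero, pow_zero, Matrix.one_kronecker_one, Matrix.one_apply]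
    simp
  · intro n _ hn
    rw [Matrix.smul_apply, Matrix.kroneckerMap_apply]
    have : (matE r ^ n) u.1 u.1 = 0 := by
      by_contra h
      have := (matE_pow_ne r n h).2
      omega
    rw [this]
    simp

theorem twist2_top (hr : 2 ≤ r) (s y : Idx r) (hs : (s.2 : ℕ) = 0) :
    twist2 r (s, y) (s, y) = qq r ^ (s.wt * y.wt) := by
  rw [twist2, Matrix.mul_apply]
  rw [Finset.sum_eq_single (y, s)]
  · have e1 : braiding r (s, y) (y, s) = tt r ^ (y.wt * s.wt) := matR_diag r hr (y, s)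
    have e2 : braiding r (y, s) (s, y) = tt r ^ (s.wt * y.wt) := by
      rw [braiding_eq, matR_col r hr _ s y hs]; exact if_pos rfl
    rw [e1, e2, ← zpow_add₀ (tt_ne_zero r), ← tt_zpow_two_mul]
    congr 1
    ring
  · intro v _ hv
    rw [braiding_eq r v, matR_col r hr _ s y hs, if_neg, mul_zero]
    intro h
    apply hv
    rw [← Prod.swap_swap v, h]; rfl
  · intro h; exact absurd (Finset.mem_univ _) h

/-- Eigenvalue of the encircling operator. -/
def ringVal (φ : Fin (r - 1) → ℂ) (a : ℤ) : ℂ := ∑ y : Idx r, φ y.1 * qq r ^ (a * y.wt)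

theorem ring_diag (hr : 2 ≤ r) (φ : Fin (r - 1) → ℂ) (a : Fin (r - 1)) (i : ℕ)
    (hi : i < a + 1) : ring r φ ⟨a, ⟨i, hi⟩⟩ ⟨a, ⟨i, hi⟩⟩ = ringVal r φ ((a : ℕ) + 1) := by
  induction i with
  | zero =>
    rw [ring, ringVal]
    refine Finset.sum_congr rfl fun y _ => ?_
    rw [twist2_top r hr _ _ rfl, mul_assoc, ← zpow_add₀ (qq_ne_zero r)]
    congr 2
    simp only [Idx.wt]
    push_cast
    ring
  | succ i ih =>
    rw [← ih (by omega)]
    have h := congrFun (congrFun (ring_mul_F r hr φ) ⟨a, ⟨i + 1, hi⟩⟩) ⟨a, ⟨i, by omega⟩⟩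
    rw [Matrix.mul_apply, Matrix.mul_apply] at h
    rw [Finset.sum_eq_single (⟨a, ⟨i + 1, hi⟩⟩ : Idx r),
      Finset.sum_eq_single (⟨a, ⟨i, by omega⟩⟩ : Idx r)] at h
    · have hF : matF r ⟨a, ⟨i + 1, hi⟩⟩ ⟨a, ⟨i, by omega⟩⟩ = 1 := by
        rw [matF, if_pos ⟨rfl, rfl⟩]
      rw [hF, mul_one, one_mul] at h
      exact h
    · intro v _ hv
      have : ring r φ v ⟨a, ⟨i, by omega⟩⟩ = 0 := by
        by_contra hc; exact hv (ring_ne r φ hc)
      rw [this, mul_zero]
    · intro h; exact absurd (Finset.mem_univ _) h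
    · intro v _ hv
      have : ring r φ ⟨a, ⟨i + 1, hi⟩⟩ v = 0 := by
        by_contra hc; exact hv (ring_ne r φ hc).symm
      rw [this, zero_mul]
    · intro h; exact absurd (Finset.mem_univ _) h

theorem ring_eq (hr : 2 ≤ r) (φ : Fin (r - 1) → ℂ) :
    ring r φ = Matrix.diagonal (fun s => ringVal r φ ((s.1 : ℕ) + 1)) := by
  ext u s
  rw [Matrix.diagonal_apply]
  by_cases h : u = s
  · subst h
    rw [if_pos rfl]
    obtain ⟨a, ⟨i, hi⟩⟩ := u
    exact ring_diag r hr φ a i hi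
  · rw [if_neg h]
    by_contra hc
    exact h (ring_ne r φ hc)

end

end

end Pool.Agent.Helper64.WRT
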