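import Pool.Agent.Helper64.WRT.Cohom

namespace Pool.Agent.Helper64.WRT

noncomputable section

open groupCohomology Module Matrix

/-- 2 x 2 matrices -/
abbrev M2 : Type := Matrix (Fin 2) (Fin 2) ℂ

/-! ### dimension of su(2) -/

/-- coordinates on su(2) -/
def su2Mk (x : ℝ) (z : ℂ) : su2 :=
  ⟨!![Complex.I * x, z; -(starRingEnd ℂ) z, -(Complex.I * x)], by
    constructor
    · ext i j
      fin_cases i <;> fin_cases j <;> simp [Matrix.conjTranspose_apply]
    · simp [Matrix.trace_fin_two]⟩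

theorem su2_entries (X : su2) : (X : M2) 0 0 = Complex.I * ((X : M2) 0 0).im ∧
    (X : M2) 1 0 = -(starRingEnd ℂ) ((X : M2) 0 1) ∧ (X : M2) 1 1 = -(X : M2) 0 0 := by
  obtain ⟨X, h1, h2⟩ := X
  have e : ∀ i j, (starRingEnd ℂ) (X j i) = - X i j := fun i j => by
    have := congrFun (congrFun h1 i) j
    simpa [Matrix.conjTranspose_apply] using this
  refine ⟨?_, ?_, ?_⟩
  · have h := e 0 0
    have hre : (X 0 0).re = 0 := by
      have := congrArg Complex.re h
      simp at this
      linarith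
    apply Complex.ext <;> simp [hre]
  · have h := e 1 0
    change X 1 0 = -(starRingEnd ℂ) (X 0 1)
    rw [h, neg_neg]
  · rw [Matrix.trace_fin_two] at h2
    exact (neg_eq_of_add_eq_zero_right h2).symm

/-- coordinates on su(2) -/
def su2Equiv : su2 ≃ₗ[ℝ] ℝ × ℂ where
  toFun X := (((X : M2) 0 0).im, (X : M2) 0 1)
  map_add' X Y := by simp
  map_smul' c X := by simp
  invFun p := su2Mk p.1 p.2
  left_inv X := by
    obtain ⟨h0, h1, h2⟩ := su2_entries X
    apply Subtype.ext
    ext i j
    fin_cases i <;> fin_cases j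
    · simp [su2Mk]; exact h0.symm
    · simp [su2Mk]
    · simp [su2Mk]; exact h1.symm
    · simp [su2Mk]; rw [h2]; rw [← h0]
  right_inv p := by
    simp [su2Mk]

instance : FiniteDimensional ℝ su2 := su2Equiv.symm.finiteDimensional

theorem finrank_su2 : finrank ℝ su2 = 3 := by
  rw [su2Equiv.finrank_eq, finrank_prod, finrank_self, Complex.finrank_real_complex]

theorem finrank_su2_prod : finrank ℝ (su2 × su2) = 6 := by
  rw [finrank_prod, finrank_su2]

/-- the kernel of two independent functionals on `su(2) x su(2)` has dimension four -/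
theorem finrank_ker_two (L₁ L₂ : su2 × su2 →ₗ[ℝ] ℝ) (v₁ v₂ : su2 × su2) (h11 : L₁ v₁ ≠ 0)
    (h12 : L₁ v₂ = 0) (h22 : L₂ v₂ ≠ 0) : finrank ℝ (LinearMap.ker (L₁.prod L₂)) = 4 := by
  have surj : Function.Surjective (L₁.prod L₂) := by
    rintro ⟨x, y⟩
    refine ⟨(x / L₁ v₁) • v₁ + ((y - x / L₁ v₁ * L₂ v₁) / L₂ v₂) • v₂, ?_⟩
    simp only [LinearMap.prod_apply, Function.prod, map_add, map_smul, h12]
    apply Prod.ext
    · simp; field_simp
    · simp; field_simp; ring
  have h := LinearMap.finrank_range_add_finrank_ker (L₁.prod L₂)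
  rw [LinearMap.range_eq_top.mpr surj, finrank_top, finrank_su2_prod, finrank_prod,
    finrank_self] at h
  omega

/-! ### matrices -/

/-- polarised Cayley-Hamilton identity -/
theorem pol {X : M2} (hX : X.trace = 0) (a : M2) :
    X * a + a * X = a.trace • X + (X * a).trace • (1 : M2) := by
  rw [Matrix.trace_fin_two] at hX
  have h1 : X 1 1 = - X 0 0 := (neg_eq_of_add_eq_zero_right hX).symm
  ext i j
  fin_cases i <;> fin_cases j <;>
    simp [Matrix.mul_apply, Fin.sum_univ_two, Matrix.trace_fin_two, h1] <;> ring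

theorem SU2.mul_conj (g : SU2) : (g : M2) * (g : M2)ᴴ = 1 := by
  rw [← SU2.coe_inv, ← Submonoid.coe_mul, mul_inv_cancel]; rfl

theorem SU2.det (g : SU2) : (g : M2).det = 1 := (Matrix.mem_specialUnitaryGroup_iff.mp g.2).2

theorem adj_eq (a : M2) : a.adjugate = a.trace • (1 : M2) - a := by
  rw [Matrix.adjugate_fin_two]
  ext i j
  fin_cases i <;> fin_cases j <;> simp [Matrix.trace_fin_two]

theorem SU2.adj (g : SU2) : (g : M2)ᴴ = (g : M2).trace • (1 : M2) - (g : M2) := by
  rw [← adj_eq]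
  have h1 : (g : M2) * (g : M2).adjugate = 1 := by
    rw [Matrix.mul_adjugate, SU2.det, one_smul]
  calc (g : M2)ᴴ = (g : M2)ᴴ * ((g : M2) * (g : M2).adjugate) := by rw [h1, Matrix.mul_one]
    _ = (g : M2).adjugate := by rw [← Matrix.mul_assoc, SU2.coe_inv_mul, Matrix.one_mul]

theorem SU2.sq (g : SU2) : (g : M2) * (g : M2) = (g : M2).trace • (g : M2) - 1 := by
  have h := SU2.mul_conj g
  rw [SU2.adj, Matrix.mul_sub, Matrix.mul_smul, Matrix.mul_one] at h
  rw [← h]; abel

theorem SU2.trace_real (g : SU2) : (starRingEnd ℂ) (g : M2).trace = (g : M2).trace := by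
  have h := congrArg Matrix.trace (SU2.adj g)
  rw [Matrix.trace_conjTranspose, Matrix.trace_sub, Matrix.trace_smul, Matrix.trace_one] at h
  simp at h
  rw [h]; ring

theorem SU2.trace_im (g : SU2) : ((g : M2).trace).im = 0 :=
  Complex.conj_eq_iff_im.mp (SU2.trace_real g)

theorem su2_trace (X : su2) : (X : M2).trace = 0 := X.2.2

theorem su2_mul_trace_im (X : su2) (g : SU2) : (((X : M2) * (g : M2)).trace).im = 0 := by
  apply Complex.conj_eq_iff_im.mp
  have h : (starRingEnd ℂ) ((X : M2) * (g : M2)).trace = (((X : M2) * (g : M2))ᴴ).trace := by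
    rw [Matrix.trace_conjTranspose]; rfl
  rw [h, Matrix.conjTranspose_mul, SU2.adj, X.2.1, Matrix.mul_neg, Matrix.sub_mul,
    Matrix.trace_neg, Matrix.trace_sub, Matrix.smul_mul, Matrix.one_mul, Matrix.trace_smul,
    su2_trace, smul_zero, zero_sub, neg_neg, Matrix.trace_mul_comm]

/-- a traceless element of SU(2) is in su(2) -/
theorem SU2.mem_su2 {g : SU2} (h : (g : M2).trace = 0) : (g : M2) ∈ su2 := by
  refine ⟨?_, h⟩
  rw [SU2.adj, h, zero_smul, zero_sub]

theorem key_zero {b W : M2} {t : ℂ} (hb : b * b = t • b - 1) (h : b * W * b + W = 0)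
    (ht : t ≠ 0) : W = 0 := by
  have e1 : b * (b * W * b + W) + (b * W * b + W) * b =
      (b * b) * W * b + b * W * (b * b) + (b * W + W * b) := by noncomm_ring
  rw [h, Matrix.mul_zero, Matrix.zero_mul, add_zero, hb, Matrix.sub_mul, Matrix.mul_sub,
    Matrix.sub_mul, Matrix.one_mul, Matrix.mul_one, Matrix.smul_mul, Matrix.mul_smul,
    Matrix.smul_mul] at e1
  have e2 : b * W * b = - W := eq_neg_of_add_eq_zero_left h
  rw [e2] at e1
  have e3 : (2 * t) • W = 0 := by
    have : (0 : M2) = - ((2 * t) • W) := by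
      rw [e1]; module
    rw [← neg_eq_zero, ← this]
  have : (2 * t) ≠ 0 := by simpa using ht
  exact (smul_eq_zero.mp e3).resolve_left this

end

end Pool.Agent.Helper64.WRT
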