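import Pool.Agent.Helper64.WRT.Ring

open scoped Matrix Kronecker

namespace Pool.Agent.Helper64.WRT

noncomputable section

section

variable (r : ℕ)

/-- operators on `n + 1` strands -/
abbrev Op (n : ℕ) : Type := Matrix (Fin (n + 1) → Idx r) (Fin (n + 1) → Idx r) ℂ

variable {r}

/-- add a strand on the right -/
def up {n : ℕ} (A : Op r n) : Op r (n + 1) := fun u s =>
  if u (Fin.last _) = s (Fin.last _) then A (Fin.init u) (Fin.init s) else 0

theorem sum_snoc {n : ℕ} {M : Type*} [AddCommMonoid M] (f : (Fin (n + 2) → Idx r) → M) :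
    ∑ v, f v = ∑ v₀ : Fin (n + 1) → Idx r, ∑ y : Idx r,
      f (Fin.snoc (α := fun _ => Idx r) v₀ y) := by
  rw [← (Fin.snocEquiv (fun _ : Fin (n + 2) => Idx r)).sum_comp, Fintype.sum_prod_type_right]
  rfl

theorem up_snoc {n : ℕ} (A : Op r n) (u s : Fin (n + 1) → Idx r) (y z : Idx r) :
    up A (Fin.snoc (α := fun _ => Idx r) u y) (Fin.snoc (α := fun _ => Idx r) s z) =
      if y = z then A u s else 0 := by
  simp [up]

theorem up_snoc_left {n : ℕ} (A : Op r n) (u : Fin (n + 1) → Idx r) (y : Idx r)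
    (v : Fin (n + 2) → Idx r) :
    up A (Fin.snoc (α := fun _ => Idx r) u y) v =
      if y = v (Fin.last _) then A u (Fin.init v) else 0 := by
  simp [up]

theorem up_mul {n : ℕ} (A B : Op r n) : up (A * B) = up A * up B := by
  ext u s
  rw [Matrix.mul_apply, sum_snoc, up]
  have : ∀ v₀ : Fin (n + 1) → Idx r, ∑ y : Idx r,
      up A u (Fin.snoc (α := fun _ => Idx r) v₀ y) *
        up B (Fin.snoc (α := fun _ => Idx r) v₀ y) s =
      if u (Fin.last _) = s (Fin.last _) then A (Fin.init u) v₀ * B v₀ (Fin.init s) else 0 := by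
    intro v₀
    simp only [up, Fin.snoc_last, Fin.init_snoc]
    rw [Finset.sum_eq_single (u (Fin.last _))]
    · by_cases h : u (Fin.last _) = s (Fin.last _) <;> simp [h]
    · intro y _ hy
      rw [if_neg (Ne.symm hy), zero_mul]
    · intro h; exact absurd (Finset.mem_univ _) h
  simp only [this]
  by_cases h : u (Fin.last _) = s (Fin.last _)
  · simp only [h, if_true, Matrix.mul_apply]
  · simp [h]

theorem up_one {n : ℕ} : up (1 : Op r n) = 1 := by
  ext u s
  rw [up, Matrix.one_apply, Matrix.one_apply]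
  by_cases h : u = s
  · subst h; simp
  · rw [if_neg h]
    by_cases h1 : u (Fin.last _) = s (Fin.last _)
    · rw [if_pos h1, if_neg]
      intro h2
      apply h
      rw [← Fin.snoc_init_self u, ← Fin.snoc_init_self s, h1, h2]
    · rw [if_neg h1]

theorem up_actAt {n : ℕ} (k : Fin n) (B : Matrix (Idx r × Idx r) (Idx r × Idx r) ℂ) :
    up (actAt r k B) = actAt r k.castSucc B := by
  ext u s
  rw [up, actAt, actAt]
  have h1 : Fin.init u k.succ = u k.castSucc.succ := by
    rw [Fin.succ_castSucc]; rfl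
  have h2 : Fin.init s k.succ = s k.castSucc.succ := by
    rw [Fin.succ_castSucc]; rfl
  rw [h1, h2]
  have h3 : Fin.init u k.castSucc = u k.castSucc.castSucc := rfl
  have h4 : Fin.init s k.castSucc = s k.castSucc.castSucc := rfl
  rw [h3, h4]
  by_cases h : ∀ j : Fin (n + 2), j ≠ k.castSucc.castSucc → j ≠ k.castSucc.succ → u j = s j
  · rw [if_pos h, if_pos, if_pos]
    · intro j hj1 hj2
      apply h j.castSucc
      · intro hc; exact hj1 (Fin.castSucc_injective _ hc)
      · intro hc
        rw [Fin.succ_castSucc] at hc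
        exact hj2 (Fin.castSucc_injective _ hc)
    · apply h
      · exact (Fin.castSucc_lt_last _).ne'
      · rw [Fin.succ_castSucc]
        exact (Fin.castSucc_lt_last _).ne'
  · rw [if_neg h]
    by_cases h5 : u (Fin.last _) = s (Fin.last _)
    · rw [if_pos h5, if_neg]
      intro h6
      apply h
      intro j
      refine Fin.lastCases ?_ (fun j => ?_) j
      · intro _ _; exact h5
      · intro hj1 hj2
        apply h6 j
        · intro hc; exact hj1 (by rw [hc])
        · intro hc; apply hj2; rw [hc, Fin.succ_castSucc]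
    · rw [if_neg h5]

/-- diagonal operator given by a function of the colour of the strand `i` -/
def diagAt {n : ℕ} (i : Fin (n + 1)) (l : Fin (r - 1) → ℂ) : Op r n :=
  Matrix.diagonal (fun s => l (s i).1)

variable (r) in
/-- weighted quantum trace -/
def wtr {n : ℕ} (φ : Fin (n + 1) → Fin (r - 1) → ℂ) (A : Op r n) : ℂ :=
  ∑ s, (∏ i, (φ i (s i).1 * qq r ^ (s i).wt)) * A s s

/-- partial quantum trace over the last strand -/
def ptr {n : ℕ} (ψ : Fin (r - 1) → ℂ) (A : Op r (n + 1)) : Op r n := fun u s =>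
  ∑ y : Idx r, ψ y.1 * qq r ^ y.wt *
    A (Fin.snoc (α := fun _ => Idx r) u y) (Fin.snoc (α := fun _ => Idx r) s y)

theorem wtr_ptr {n : ℕ} (φ : Fin (n + 2) → Fin (r - 1) → ℂ) (A : Op r (n + 1)) :
    wtr r φ A = wtr r (fun i => φ i.castSucc) (ptr (φ (Fin.last _)) A) := by
  rw [wtr, wtr, sum_snoc]
  refine Finset.sum_congr rfl fun s _ => ?_
  rw [ptr, Finset.mul_sum]
  refine Finset.sum_congr rfl fun y _ => ?_
  rw [Fin.prod_univ_castSucc]
  simp only [Fin.snoc_castSucc, Fin.snoc_last]
  ring

theorem ptr_up_mul {n : ℕ} (ψ : Fin (r - 1) → ℂ) (X : Op r n) (A : Op r (n + 1)) :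
    ptr ψ (up X * A) = X * ptr ψ A := by
  ext u s
  rw [ptr, Matrix.mul_apply]
  have h1 : ∀ y : Idx r, (up X * A) (Fin.snoc (α := fun _ => Idx r) u y)
      (Fin.snoc (α := fun _ => Idx r) s y) =
      ∑ v, X u v * A (Fin.snoc (α := fun _ => Idx r) v y) (Fin.snoc (α := fun _ => Idx r) s y) := by
    intro y
    rw [Matrix.mul_apply, sum_snoc]
    refine Finset.sum_congr rfl fun v _ => ?_
    rw [Finset.sum_eq_single y]
    · rw [up_snoc, if_pos rfl]
    · intro z _ hz
      rw [up_snoc, if_neg (Ne.symm hz), zero_mul]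
    · intro h; exact absurd (Finset.mem_univ _) h
  simp only [h1, ptr, Finset.mul_sum]
  rw [Finset.sum_comm]
  refine Finset.sum_congr rfl fun v _ => Finset.sum_congr rfl fun y _ => ?_
  ring

theorem ptr_mul_up {n : ℕ} (ψ : Fin (r - 1) → ℂ) (Y : Op r n) (A : Op r (n + 1)) :
    ptr ψ (A * up Y) = ptr ψ A * Y := by
  ext u s
  rw [ptr, Matrix.mul_apply]
  have h1 : ∀ y : Idx r, (A * up Y) (Fin.snoc (α := fun _ => Idx r) u y)
      (Fin.snoc (α := fun _ => Idx r) s y) =
      ∑ v, A (Fin.snoc (α := fun _ => Idx r) u y) (Fin.snoc (α := fun _ => Idx r) v y) * Y v s := by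
    intro y
    rw [Matrix.mul_apply, sum_snoc]
    refine Finset.sum_congr rfl fun v _ => ?_
    rw [Finset.sum_eq_single y]
    · rw [up_snoc, if_pos rfl]
    · intro z _ hz
      rw [up_snoc, if_neg hz, mul_zero]
    · intro h; exact absurd (Finset.mem_univ _) h
  simp only [h1, ptr, Finset.mul_sum, Finset.sum_mul]
  rw [Finset.sum_comm]
  refine Finset.sum_congr rfl fun v _ => Finset.sum_congr rfl fun y _ => ?_
  ring

theorem ptr_twist {n : ℕ} (hr : 2 ≤ r) (ψ : Fin (r - 1) → ℂ) :
    ptr ψ (actAt r (Fin.last n) (twist2 r)) =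
      diagAt (Fin.last n) (fun c => ringVal r ψ ((c : ℕ) + 1)) := by
  ext u s
  rw [ptr, diagAt, Matrix.diagonal_apply]
  have h1 : ∀ y : Idx r, actAt r (Fin.last n) (twist2 r) (Fin.snoc (α := fun _ => Idx r) u y)
      (Fin.snoc (α := fun _ => Idx r) s y) =
      if (∀ j, j ≠ Fin.last n → u j = s j) then
        twist2 r (u (Fin.last n), y) (s (Fin.last n), y) else 0 := by
    intro y
    rw [actAt]
    simp only [Fin.snoc_castSucc, Fin.succ_last, Fin.snoc_last]
    by_cases h : ∀ j, j ≠ Fin.last n → u j = s j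
    · rw [if_pos h, if_pos]
      intro j
      refine Fin.lastCases ?_ (fun j => ?_) j
      · intro _ h2; exact absurd rfl h2
      · intro h1 _
        rw [Fin.snoc_castSucc, Fin.snoc_castSucc]
        apply h
        intro hc; apply h1; rw [hc]
    · rw [if_neg h, if_neg]
      intro h2
      apply h
      intro j hj
      have := h2 j.castSucc (fun hc => hj (Fin.castSucc_injective _ hc))
        (Fin.castSucc_lt_last _).ne
      rwa [Fin.snoc_castSucc, Fin.snoc_castSucc] at this
  simp only [h1]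
  have hring := congrFun (congrFun (ring_eq r hr ψ) (u (Fin.last n))) (s (Fin.last n))
  rw [Matrix.diagonal_apply] at hring
  by_cases h : ∀ j, j ≠ Fin.last n → u j = s j
  · simp only [if_pos h]
    have h2 : (∑ y : Idx r, ψ y.1 * qq r ^ y.wt *
        twist2 r (u (Fin.last n), y) (s (Fin.last n), y)) =
        ring r ψ (u (Fin.last n)) (s (Fin.last n)) := rfl
    rw [h2, hring]
    by_cases h3 : u (Fin.last n) = s (Fin.last n)
    · have : u = s := by
        funext j
        by_cases hj : j = Fin.last n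
        · rw [hj, h3]
        · exact h j hj
      rw [if_pos h3, if_pos this]
    · rw [if_neg h3, if_neg]
      intro hc; exact h3 (by rw [hc])
  · simp only [if_neg h, mul_zero, Finset.sum_const_zero]
    rw [if_neg]
    rintro rfl
    exact h (fun _ _ => rfl)

theorem actAt_mul {m : ℕ} (k : Fin m) (A B : Matrix (Idx r × Idx r) (Idx r × Idx r) ℂ) :
    actAt r k A * actAt r k B = actAt r k (A * B) := by
  ext u s
  rw [Matrix.mul_apply, actAt]
  -- reduce the sum over `v` to the last two entries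
  have key : ∀ u v : Fin (m + 1) → Idx r, ∀ C : Matrix (Idx r × Idx r) (Idx r × Idx r) ℂ,
      actAt r k C u v = if (∀ j : Fin (m + 1), j ≠ k.castSucc →
        j ≠ k.succ → u j = v j) then
        C (u k.castSucc, u k.succ) (v k.castSucc, v k.succ) else 0 := fun _ _ _ => rfl
  by_cases h : ∀ j : Fin (m + 1), j ≠ k.castSucc → j ≠ k.succ → u j = s j
  · rw [if_pos h, Matrix.mul_apply]
    have hne : k.castSucc ≠ k.succ := by
      simp [Fin.ext_iff]
    let f : Idx r × Idx r → (Fin (m + 1) → Idx r) := fun p =>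
      Function.update (Function.update u k.castSucc p.1) k.succ p.2
    have hf1 : ∀ p, f p k.castSucc = p.1 := by
      intro p
      simp only [f]
      rw [Function.update_of_ne hne, Function.update_self]
    have hf2 : ∀ p, f p k.succ = p.2 := by
      intro p
      simp only [f]
      rw [Function.update_self]
    have hf3 : ∀ p j, j ≠ k.castSucc → j ≠ k.succ → f p j = u j := by
      intro p j h1 h2
      simp only [f]
      rw [Function.update_of_ne h2, Function.update_of_ne h1]
    have hinj : Function.Injective f := by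
      intro p p' hp
      ext1
      · rw [← hf1 p, ← hf1 p', hp]
      · rw [← hf2 p, ← hf2 p', hp]
    symm
    apply Finset.sum_of_injOn f (fun _ _ _ _ h => hinj h) (fun _ _ => Finset.mem_coe.mpr (Finset.mem_univ _))
    · intro v _ hv
      rw [key, if_neg, zero_mul]
      intro h1
      apply hv
      refine ⟨(v k.castSucc, v k.succ), Finset.mem_coe.mpr (Finset.mem_univ _), ?_⟩
      funext j
      by_cases hj1 : j = k.castSucc
      · rw [hj1, hf1]
      · by_cases hj2 : j = k.succ
        · rw [hj2, hf2]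
        · rw [hf3 _ _ hj1 hj2, h1 j hj1 hj2]
    · intro p _
      rw [key, key, if_pos, if_pos, hf1, hf2]
      · intro j hj1 hj2
        rw [hf3 _ _ hj1 hj2, h j hj1 hj2]
      · intro j hj1 hj2
        rw [hf3 _ _ hj1 hj2]
  · rw [if_neg h]
    refine Finset.sum_eq_zero fun v _ => ?_
    rw [key, key]
    by_cases h1 : ∀ j : Fin (m + 1), j ≠ k.castSucc → j ≠ k.succ → u j = v j
    · rw [if_neg (c := ∀ j : Fin (m + 1), j ≠ k.castSucc → j ≠ k.succ → v j = s j), mul_zero]
      intro h2
      exact h (fun j a b => (h1 j a b).trans (h2 j a b))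
    · rw [if_neg h1, zero_mul]

/-- The action of a positive crossing. -/
def sig {m : ℕ} (k : Fin m) : Op r m := actAt r k (braiding r)

theorem sig_sq {m : ℕ} (k : Fin m) : sig k * sig k = actAt r k (twist2 r) := by
  rw [sig, actAt_mul]; rfl

theorem up_sig {n : ℕ} (k : Fin n) : up (sig (r := r) k) = sig k.castSucc := up_actAt k _

theorem sig_ne {m : ℕ} (k : Fin m) {u s : Fin (m + 1) → Idx r} (h : sig k u s ≠ 0) :
    (u k.castSucc).1 = (s k.succ).1 ∧ (u k.succ).1 = (s k.castSucc).1 ∧
      ∀ j, j ≠ k.castSucc → j ≠ k.succ → u j = s j := by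
  rw [sig, actAt] at h
  by_cases hc : ∀ j, j ≠ k.castSucc → j ≠ k.succ → u j = s j
  · rw [if_pos hc] at h
    have := braiding_ne r h
    exact ⟨this.1, this.2.1, hc⟩
  · rw [if_neg hc] at h
    exact absurd rfl h

theorem diagAt_sig {m : ℕ} (k : Fin m) (i : Fin (m + 1)) (l : Fin (r - 1) → ℂ) :
    diagAt i l * sig k = sig k * diagAt (Equiv.swap k.castSucc k.succ i) l := by
  apply diag_mul_eq
  intro u s h
  obtain ⟨h1, h2, h3⟩ := sig_ne k h
  by_cases hi1 : i = k.castSucc
  · subst hi1
    rw [Equiv.swap_apply_left, h1]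
  · by_cases hi2 : i = k.succ
    · subst hi2
      rw [Equiv.swap_apply_right, h2]
    · rw [Equiv.swap_apply_of_ne_of_ne hi1 hi2, h3 i hi1 hi2]

theorem sig_diagAt {m : ℕ} (k : Fin m) (i : Fin (m + 1)) (l : Fin (r - 1) → ℂ) :
    sig k * diagAt i l = diagAt (Equiv.swap k.castSucc k.succ i) l * sig k := by
  rw [diagAt_sig, Equiv.swap_apply_self]

theorem wtr_diagAt {n : ℕ} (φ : Fin (n + 1) → Fin (r - 1) → ℂ) (i : Fin (n + 1))
    (l : Fin (r - 1) → ℂ) (A : Op r n) :
    wtr r φ (diagAt i l * A) = wtr r (Function.update φ i (fun c => φ i c * l c)) A := by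
  rw [wtr, wtr]
  refine Finset.sum_congr rfl fun s _ => ?_
  rw [diagAt, Matrix.diagonal_mul, ← Finset.mul_prod_erase Finset.univ _ (Finset.mem_univ i),
    ← Finset.mul_prod_erase Finset.univ (fun j => Function.update φ i (fun c => φ i c * l c) j
      (s j).1 * qq r ^ (s j).wt) (Finset.mem_univ i), Function.update_self]
  have : ∏ x ∈ Finset.univ.erase i, Function.update φ i (fun c => φ i c * l c) x (s x).1 *
      qq r ^ (s x).wt = ∏ x ∈ Finset.univ.erase i, φ x (s x).1 * qq r ^ (s x).wt := by
    refine Finset.prod_congr rfl fun x hx => ?_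
    rw [Function.update_of_ne (Finset.ne_of_mem_erase hx)]
  rw [this]
  ring

/-- Peeling off the last strand. -/
theorem peel {n : ℕ} (hr : 2 ≤ r) (φ : Fin (n + 2) → Fin (r - 1) → ℂ) (X Y : Op r n) :
    wtr r φ (up X * (sig (Fin.last n) * sig (Fin.last n)) * up Y) =
      wtr r (fun i => φ i.castSucc)
        (X * diagAt (Fin.last n) (fun c => ringVal r (φ (Fin.last _)) ((c : ℕ) + 1)) * Y) := by
  rw [wtr_ptr, sig_sq, Matrix.mul_assoc, ptr_up_mul, ptr_mul_up, ptr_twist hr, Matrix.mul_assoc]

end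

end

end Pool.Agent.Helper64.WRT
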