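import Pool.Agent.Helper64.WRT.Gauss

open scoped Matrix Kronecker

namespace Pool.Agent.Helper64.WRT

noncomputable section

section

variable {r : ℕ}

variable (r) in
/-- half angle -/
def hf (x : ℤ) : ℝ := Real.pi * x / (2 * r)

theorem hf_pos (x : ℤ) (h0 : 0 < x) (h1 : x < r) : 0 < hf r x ∧ hf r x < Real.pi / 2 := by
  have hr0 : (0 : ℝ) < r := by
    have : (0 : ℤ) < r := by omega
    exact_mod_cast this
  have hx : (0 : ℝ) < x := by exact_mod_cast h0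
  constructor
  · rw [hf]; positivity
  · rw [hf, div_lt_iff₀ (by positivity)]
    have : (x : ℝ) < r := by exact_mod_cast h1
    nlinarith [Real.pi_pos]

theorem sR_hf (hr : r ≠ 0) (x : ℤ) : sR r x = 2 * Real.sin (hf r x) * Real.cos (hf r x) := by
  rw [sR, ← Real.sin_two_mul]
  congr 1
  have : (r : ℝ) ≠ 0 := by exact_mod_cast hr
  rw [hf]; field_simp

variable (r) in
/-- cosine of `π x / r` -/
def cR' (x : ℤ) : ℝ := Real.cos (Real.pi * x / r)

variable (r) in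
def DD (x : ℤ) : ℝ := ∑ c : Fin (r - 1), cR' r (x * ((c : ℕ) + 1))

theorem DD_mul (hr : 2 ≤ r) (x : ℤ) :
    2 * Real.sin (hf r x) * DD r x = -(1 + (-1) ^ x) * Real.sin (hf r x) := by
  have hr0 : (r : ℝ) ≠ 0 := by
    have : r ≠ 0 := by omega
    exact_mod_cast this
  have key : ∀ y : ℕ, 2 * Real.sin (hf r x) * cR' r (x * ((y : ℤ) + 1)) =
      Real.sin (Real.pi * x * (2 * ((y + 1 : ℕ) : ℝ) + 1) / (2 * r)) -
        Real.sin (Real.pi * x * (2 * (y : ℝ) + 1) / (2 * r)) := by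
    intro y
    have e1 : Real.pi * x * (2 * ((y + 1 : ℕ) : ℝ) + 1) / (2 * r) =
        Real.pi * ((x * ((y : ℤ) + 1) : ℤ) : ℝ) / r + hf r x := by
      rw [hf]; push_cast; field_simp; try ring
    have e2 : Real.pi * x * (2 * (y : ℝ) + 1) / (2 * r) =
        Real.pi * ((x * ((y : ℤ) + 1) : ℤ) : ℝ) / r - hf r x := by
      rw [hf]; push_cast; field_simp; ring
    rw [e1, e2, Real.sin_add, Real.sin_sub, cR']
    ring
  rw [DD, Finset.mul_sum]
  rw [Fin.sum_univ_eq_sum_range (fun y => 2 * Real.sin (hf r x) * cR' r (x * ((y : ℤ) + 1)))]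
  simp only [key]
  rw [Finset.sum_range_sub (fun y : ℕ => Real.sin (Real.pi * x * (2 * (y : ℝ) + 1) / (2 * r)))]
  have e3 : Real.pi * x * (2 * ((r - 1 : ℕ) : ℝ) + 1) / (2 * r) = x * Real.pi - hf r x := by
    rw [hf, Nat.cast_sub (by omega)]; push_cast; field_simp; ring
  have e4 : Real.pi * x * (2 * ((0 : ℕ) : ℝ) + 1) / (2 * r) = hf r x := by
    rw [hf]; push_cast; ring
  rw [e3, e4, Real.sin_sub, Real.sin_int_mul_pi, Real.cos_int_mul_pi]
  ring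

theorem DD_eq (hr : 2 ≤ r) (x : ℤ) (h0 : 0 < x) (h1 : x < 2 * r) :
    DD r x = -(1 + (-1) ^ x) / 2 := by
  have h := DD_mul hr x
  have hr0 : (0 : ℝ) < r := by
    have : 0 < r := by omega
    exact_mod_cast this
  have hs : 0 < Real.sin (hf r x) := by
    apply Real.sin_pos_of_pos_of_lt_pi
    · have : (0 : ℝ) < x := by exact_mod_cast h0
      rw [hf]; positivity
    · rw [hf, div_lt_iff₀ (by positivity)]
      have : (x : ℝ) < 2 * r := by exact_mod_cast h1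
      nlinarith [Real.pi_pos]
  have : Real.sin (hf r x) * (2 * DD r x) = Real.sin (hf r x) * (-(1 + (-1) ^ x)) := by
    linarith
  have := mul_left_cancel₀ hs.ne' this
  linarith

variable (r) in
/-- the parity factor `1 + (-1)^{r+x-1}` -/
def par (x : ℤ) : ℝ := 1 + (-1) ^ ((r : ℤ) + (x - 1))

variable (r) in
def CC (x : ℤ) : ℝ := ∑ c : Fin (r - 1), par r ((c : ℕ) + 1) * cR' r (x * ((c : ℕ) + 1))

theorem CC_eq (hr : 2 ≤ r) (x : ℤ) : CC r x = DD r x - (-1) ^ r * DD r (x + r) := by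
  rw [CC, DD, DD, Finset.mul_sum, ← Finset.sum_sub_distrib]
  refine Finset.sum_congr rfl fun c _ => ?_
  have hr0 : (r : ℝ) ≠ 0 := by
    have : r ≠ 0 := by omega
    exact_mod_cast this
  have e1 : cR' r ((x + r) * ((c : ℕ) + 1)) = (-1) ^ ((c : ℕ) + 1) * cR' r (x * ((c : ℕ) + 1)) := by
    rw [cR', cR']
    have : Real.pi * (((x + r) * ((c : ℕ) + 1) : ℤ) : ℝ) / r =
        Real.pi * ((x * ((c : ℕ) + 1) : ℤ) : ℝ) / r + ((c : ℕ) + 1 : ℕ) * Real.pi := by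
      push_cast; field_simp
    rw [this, Real.cos_add_nat_mul_pi]
  have e2 : par r ((c : ℕ) + 1) = 1 - (-1) ^ r * (-1) ^ ((c : ℕ) + 1) := by
    rw [par]
    have : (r : ℤ) + ((((c : ℕ) : ℤ) + 1) - 1) = ((r + (c : ℕ) : ℕ) : ℤ) := by push_cast; ring
    rw [this, zpow_natCast, pow_add, pow_succ]
    ring
  rw [e1, e2]
  ring

theorem neg_one_sq_zpow (x : ℤ) : ((-1 : ℝ) ^ x) * (-1) ^ x = 1 := by
  rw [← mul_zpow]; simp

theorem CC_pos (hr : 2 ≤ r) (x : ℤ) (h0 : 0 < x) (h1 : x < r) :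
    CC r x = ((-1) ^ r - 1) / 2 := by
  rw [CC_eq hr, DD_eq hr x h0 (by omega), DD_eq hr (x + r) (by omega) (by omega),
    zpow_add₀ (by norm_num), zpow_natCast]
  have h2 : ((-1 : ℝ) ^ r) * (-1) ^ r = 1 := by rw [← mul_pow]; simp
  linear_combination ((-1 : ℝ) ^ x / 2) * h2

theorem CC_zero (hr : 2 ≤ r) : CC r 0 = r - 1 + ((-1) ^ r + 1) / 2 := by
  have hD0 : DD r 0 = r - 1 := by
    rw [DD]
    simp [cR', Nat.cast_sub (show 1 ≤ r by omega)]
  rw [CC_eq hr, hD0, zero_add, DD_eq hr r (by omega) (by omega), zpow_natCast]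
  have h2 : ((-1 : ℝ) ^ r) * (-1) ^ r = 1 := by rw [← mul_pow]; simp
  linear_combination (1 / 2 : ℝ) * h2

variable (r) in
def TT (x : ℤ) : ℝ :=
  ∑ c : Fin (r - 1), par r ((c : ℕ) + 1) * Real.tan (hf r ((c : ℕ) + 1)) *
    sR r (x * ((c : ℕ) + 1))

theorem TT_step (hr : 2 ≤ r) (x : ℤ) : TT r (x + 1) + TT r x = CC r x - CC r (x + 1) := by
  rw [TT, TT, CC, CC, ← Finset.sum_add_distrib, ← Finset.sum_sub_distrib]
  refine Finset.sum_congr rfl fun c _ => ?_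
  have hr0 : (r : ℝ) ≠ 0 := by
    have : r ≠ 0 := by omega
    exact_mod_cast this
  set y : ℤ := (c : ℕ) + 1 with hy
  obtain ⟨h1, h2⟩ := hf_pos (r := r) y (by omega) (by have := c.2; omega)
  have hc : Real.cos (hf r y) ≠ 0 := by
    apply (Real.cos_pos_of_mem_Ioo ⟨_, h2⟩).ne'
    linarith [Real.pi_pos]
  have e1 : Real.pi * (((x + 1) * y : ℤ) : ℝ) / r = Real.pi * (2 * x + 1) * y / (2 * r) + hf r y := by
    rw [hf]; push_cast; field_simp; ring
  have e2 : Real.pi * ((x * y : ℤ) : ℝ) / r = Real.pi * (2 * x + 1) * y / (2 * r) - hf r y := by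
    rw [hf]; push_cast; field_simp; ring
  rw [sR, sR, cR', cR', e1, e2, Real.sin_add, Real.sin_sub, Real.cos_add, Real.cos_sub,
    Real.tan_eq_sin_div_cos]
  field_simp
  ring

theorem TT_eq (hr : 2 ≤ r) (x : ℕ) (h1 : x + 1 < r) : TT r ((x : ℤ) + 1) = r * (-1) ^ x := by
  induction x with
  | zero =>
    have h := TT_step hr 0
    have h0 : TT r 0 = 0 := by
      rw [TT]
      refine Finset.sum_eq_zero fun c _ => ?_
      rw [zero_mul, sR_zero, mul_zero]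
    rw [h0, add_zero, CC_zero hr, zero_add, CC_pos hr 1 (by omega) (by omega)] at h
    push_cast
    rw [zero_add] at *
    rw [h]
    ring
  | succ x ih =>
    have h := TT_step hr ((x : ℤ) + 1)
    rw [CC_pos hr _ (by omega) (by omega), CC_pos hr _ (by omega) (by omega), sub_self,
      ih (by omega)] at h
    push_cast
    rw [pow_succ]
    linarith

theorem AA_mul' (hr : 2 ≤ r) (x : ℤ) :
    AA (r := r) 2 x * AA (r := r) (-2) x = ((par r x * Real.sin (hf r x) ^ 2 : ℝ) : ℂ) := by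
  rw [AA_mul hr]; rfl

theorem P_div (hr : 2 ≤ r) (c : Fin (r - 1)) :
    par r ((c : ℕ) + 1) * Real.sin (hf r ((c : ℕ) + 1)) ^ 2 / sR r ((c : ℕ) + 1) =
      par r ((c : ℕ) + 1) * Real.tan (hf r ((c : ℕ) + 1)) / 2 := by
  obtain ⟨h1, h2⟩ := hf_pos (r := r) ((c : ℕ) + 1) (by omega) (by have := c.2; omega)
  have hc : Real.cos (hf r ((c : ℕ) + 1)) ≠ 0 := by
    apply (Real.cos_pos_of_mem_Ioo ⟨_, h2⟩).ne'
    linarith [Real.pi_pos]
  have hs : Real.sin (hf r ((c : ℕ) + 1)) ≠ 0 := by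
    apply (Real.sin_pos_of_pos_of_lt_pi h1 _).ne'
    linarith [Real.pi_pos]
  rw [sR_hf (by omega), Real.tan_eq_sin_div_cos]
  field_simp

theorem phi3_eq (hr : 2 ≤ r) (c : Fin (r - 1)) :
    phi3 r c = ((Real.sqrt (2 / r) * (par r ((c : ℕ) + 1) * Real.tan (hf r ((c : ℕ) + 1)) / 2) : ℝ) : ℂ) := by
  have hs := (sR_color_pos c).ne'
  have hs' : ((sR r ((c : ℕ) + 1) : ℝ) : ℂ) ≠ 0 := by exact_mod_cast hs
  rw [phi3, Lv_vw hr, Lv_vw hr, vw_zero hr, ← P_div hr]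
  have h := AA_mul' hr ((c : ℕ) + 1)
  have : ((Real.sqrt (2 / r) * sR r ((c : ℕ) + 1) : ℝ) : ℂ) *
      (AA (r := r) (-2) ((c : ℕ) + 1) / (sR r ((c : ℕ) + 1) : ℝ)) *
      (AA (r := r) 2 ((c : ℕ) + 1) / (sR r ((c : ℕ) + 1) : ℝ)) =
      (Real.sqrt (2 / r) : ℝ) * (AA (r := r) 2 ((c : ℕ) + 1) * AA (r := r) (-2) ((c : ℕ) + 1)) /
        (sR r ((c : ℕ) + 1) : ℝ) := by
    push_cast
    field_simp
  rw [this, h]
  push_cast
  ring

theorem Lv_phi3 (hr : 2 ≤ r) (c : Fin (r - 1)) :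
    Lv r (phi3 r) c = ((Real.sqrt (2 / r) * (r / 2 * (-1) ^ (c : ℕ)) / sR r ((c : ℕ) + 1) : ℝ) : ℂ) := by
  rw [Lv_eq hr]
  have h1 : (∑ c' : Fin (r - 1), phi3 r c' * (sR r (((c : ℕ) + 1) * ((c' : ℕ) + 1)) : ℝ)) =
      ((Real.sqrt (2 / r) * (1 / 2) * TT r ((c : ℕ) + 1) : ℝ) : ℂ) := by
    rw [TT, Finset.mul_sum, Complex.ofReal_sum]
    refine Finset.sum_congr rfl fun c' _ => ?_
    rw [phi3_eq hr]
    push_cast
    ring
  rw [h1, TT_eq hr _ (by have := c.2; omega)]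
  push_cast
  ring

theorem phi1_eq (hr : 2 ≤ r) (c : Fin (r - 1)) :
    phi1 r c = (-1) ^ (c : ℕ) * AA (r := r) (-2) ((c : ℕ) + 1) / (sR r ((c : ℕ) + 1) : ℝ) := by
  have hs := (sR_color_pos c).ne'
  have hs' : ((sR r ((c : ℕ) + 1) : ℝ) : ℂ) ≠ 0 := by exact_mod_cast hs
  have hr0 : (r : ℂ) ≠ 0 := by
    have : r ≠ 0 := by omega
    exact_mod_cast this
  rw [phi1, Lv_phi3 hr, Lv_vw hr, vw_zero hr]
  have hsq : ((Real.sqrt (2 / r) : ℝ) : ℂ) * ((Real.sqrt (2 / r) : ℝ) : ℂ) = 2 / r := by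
    rw [← Complex.ofReal_mul, Real.mul_self_sqrt (by positivity)]
    push_cast; rfl
  have : ((Real.sqrt (2 / r) * sR r ((c : ℕ) + 1) : ℝ) : ℂ) *
      ((Real.sqrt (2 / r) * (r / 2 * (-1) ^ (c : ℕ)) / sR r ((c : ℕ) + 1) : ℝ) : ℂ) *
      (AA (r := r) (-2) ((c : ℕ) + 1) / (sR r ((c : ℕ) + 1) : ℝ)) =
      (((Real.sqrt (2 / r) : ℝ) : ℂ) * ((Real.sqrt (2 / r) : ℝ) : ℂ)) * (r / 2) * (-1) ^ (c : ℕ) *
      AA (r := r) (-2) ((c : ℕ) + 1) / (sR r ((c : ℕ) + 1) : ℝ) := by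
    push_cast
    field_simp
  rw [this, hsq]
  field_simp

variable (r) in
/-- the cotangent sum -/
def WW : ℝ := ∑ c : Fin (r - 1), par r ((c : ℕ) + 1) * Real.tan (hf r ((c : ℕ) + 1)) / 2

theorem phi0_sum (hr : 2 ≤ r) :
    ringVal r (phi0 r) 1 * (sR r 1 : ℝ) = (-1) ^ r * (WW r : ℂ) := by
  have h1 : ringVal r (phi0 r) 1 * (sR r 1 : ℝ) =
      ∑ c : Fin (r - 1), vw 2 c * ∑ c' : Fin (r - 1), phi1 r c' *
        (sR r (((c : ℕ) + 1) * ((c' : ℕ) + 1)) : ℝ) := by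
    rw [ringVal_mul hr]
    refine Finset.sum_congr rfl fun c _ => ?_
    have hs := (sR_color_pos c).ne'
    have hs' : ((sR r ((c : ℕ) + 1) : ℝ) : ℂ) ≠ 0 := by exact_mod_cast hs
    rw [phi0, Lv_eq hr, one_mul]
    field_simp
  have h2 : ∑ c : Fin (r - 1), vw 2 c * ∑ c' : Fin (r - 1), phi1 r c' *
        (sR r (((c : ℕ) + 1) * ((c' : ℕ) + 1)) : ℝ) =
      ∑ c' : Fin (r - 1), phi1 r c' * AA (r := r) 2 ((c' : ℕ) + 1) := by
    simp only [Finset.mul_sum, AA]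
    rw [Finset.sum_comm]
    refine Finset.sum_congr rfl fun c' _ => Finset.sum_congr rfl fun c _ => ?_
    rw [mul_comm (((c : ℕ) : ℤ) + 1)]
    ring
  rw [h1, h2, WW, Complex.ofReal_sum, Finset.mul_sum]
  refine Finset.sum_congr rfl fun c _ => ?_
  have hs := (sR_color_pos c).ne'
  have hs' : ((sR r ((c : ℕ) + 1) : ℝ) : ℂ) ≠ 0 := by exact_mod_cast hs
  rw [phi1_eq hr]
  have h := AA_mul' hr ((c : ℕ) + 1)
  have h3 : (-1) ^ (c : ℕ) * AA (r := r) (-2) ((c : ℕ) + 1) / (sR r ((c : ℕ) + 1) : ℝ) *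
      AA (r := r) 2 ((c : ℕ) + 1) =
      (-1) ^ (c : ℕ) * ((AA (r := r) 2 ((c : ℕ) + 1) * AA (r := r) (-2) ((c : ℕ) + 1)) /
        (sR r ((c : ℕ) + 1) : ℝ)) := by ring
  rw [h3, h, ← Complex.ofReal_div, P_div hr]
  have h4 : ((-1 : ℝ)) ^ (c : ℕ) * par r ((c : ℕ) + 1) = (-1) ^ r * par r ((c : ℕ) + 1) := by
    rw [par]
    have : (r : ℤ) + ((((c : ℕ) : ℤ) + 1) - 1) = ((r + (c : ℕ) : ℕ) : ℤ) := by push_cast; ring
    rw [this, zpow_natCast, pow_add]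
    have h2 : ((-1 : ℝ) ^ r) * (-1) ^ r = 1 := by rw [← mul_pow]; simp
    have h3 : ((-1 : ℝ) ^ (c : ℕ)) * (-1) ^ (c : ℕ) = 1 := by rw [← mul_pow]; simp
    linear_combination (-1 : ℝ) ^ r * h3 - (-1 : ℝ) ^ (c : ℕ) * h2
  have h5 : ((-1 : ℂ)) ^ (c : ℕ) * (par r ((c : ℕ) + 1) : ℝ) = (-1) ^ r * (par r ((c : ℕ) + 1) : ℝ) := by
    exact_mod_cast h4
  push_cast
  linear_combination (Complex.tan (hf r ((c : ℕ) + 1)) / 2) * h5

theorem WW_nonneg : 0 ≤ WW r := by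
  refine Finset.sum_nonneg fun c _ => ?_
  obtain ⟨h1, h2⟩ := hf_pos (r := r) ((c : ℕ) + 1) (by omega) (by have := c.2; omega)
  have h3 : 0 ≤ par r ((c : ℕ) + 1) := by
    rw [par]
    have : (r : ℤ) + ((((c : ℕ) : ℤ) + 1) - 1) = ((r + (c : ℕ) : ℕ) : ℤ) := by push_cast; ring
    rw [this, zpow_natCast]
    rcases neg_one_pow_eq_or ℝ (r + (c : ℕ)) with h | h <;> rw [h] <;> norm_num
  have h4 := Real.tan_nonneg_of_nonneg_of_le_pi_div_two h1.le h2.le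
  positivity

theorem vw_zero_sum (hr : 2 ≤ r) :
    ringVal r (vw 0) 1 * (sR r 1 : ℝ) = ((Real.sqrt (2 / r) * (r / 2) : ℝ) : ℂ) := by
  have hr0 : (r : ℝ) ≠ 0 := by
    have : r ≠ 0 := by omega
    exact_mod_cast this
  rw [ringVal_mul hr]
  have h1 : ∀ c : Fin (r - 1), vw 0 c * (sR r (1 * ((c : ℕ) + 1)) : ℝ) =
      ((Real.sqrt (2 / r) * ((1 - cR' r (2 * ((c : ℕ) + 1))) / 2) : ℝ) : ℂ) := by
    intro c
    rw [vw_zero hr, one_mul, ← Complex.ofReal_mul]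
    congr 1
    have : cR' r (2 * ((c : ℕ) + 1)) = 1 - 2 * sR r ((c : ℕ) + 1) ^ 2 := by
      rw [cR', sR]
      have e : Real.pi * ((2 * ((c : ℕ) + 1) : ℤ) : ℝ) / r =
          2 * (Real.pi * (((c : ℕ) + 1 : ℤ) : ℝ) / r) := by push_cast; ring
      rw [e, Real.cos_two_mul]
      have := Real.sin_sq_add_cos_sq (Real.pi * (((c : ℕ) + 1 : ℤ) : ℝ) / r)
      linarith
    rw [this]
    ring
  rw [Finset.sum_congr rfl (fun c _ => h1 c), ← Complex.ofReal_sum]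
  congr 1
  rw [← Finset.mul_sum, ← Finset.sum_div, Finset.sum_sub_distrib]
  have h2 : ∑ c : Fin (r - 1), cR' r (2 * ((c : ℕ) + 1)) = DD r 2 := rfl
  have h3 : DD r 2 = -1 := by
    rcases lt_or_ge 2 (2 * r) with h | h
    · rw [DD_eq hr 2 (by norm_num) (by omega)]; norm_num
    · omega
  rw [h2, h3]
  simp [Nat.cast_sub (show 1 ≤ r by omega)]

end

section

theorem sum_S1S2 (r : ℕ) :
    ∑ s : Fin (S1S2.m + 1) → Idx r,
      (∏ i, strandWeight r (S1S2.framing i) (s i)) * braidAct r S1S2.word s s =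
      ringVal r (vw 0) 1 := by
  rw [← step0, wtr]
  refine Finset.sum_congr rfl fun s _ => ?_
  congr 1
  refine Finset.prod_congr rfl fun i _ => ?_
  rw [strandWeight_eq]
  have : i = (0 : Fin 1) := Subsingleton.elim (α := Fin 1) _ _
  subst this
  rfl

theorem norm_phase (r : ℕ) (n : ℤ) :
    ‖Complex.exp (-(3 * Real.pi * Complex.I * (r - 2) / (4 * r)) * n)‖ = 1 := by
  have : -(3 * Real.pi * Complex.I * ((r : ℂ) - 2) / (4 * r)) * n =
      ((-(3 * Real.pi * ((r : ℝ) - 2) / (4 * r)) * n : ℝ) : ℂ) * Complex.I := by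
    push_cast; ring
  rw [this, Complex.norm_exp_ofReal_mul_I]

/-- Exact value of the absolute value of the normalised invariant of the Hantzsche-Wendt
manifold. -/
theorem norm_ZZ_HW (k : ℕ) :
    ‖ZZ k HW‖ = Real.sqrt (2 / ((k + 2 : ℕ) : ℝ)) * WW (k + 2) := by
  have hr : 2 ≤ k + 2 := by omega
  set r := k + 2 with hrdef
  have hr0 : (0 : ℝ) < r := by
    have : 0 < r := by omega
    exact_mod_cast this
  have hs : 0 < sR r 1 := sR_pos 1 (by norm_num) (by omega)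
  have h1 := phi0_sum hr
  have h2 := vw_zero_sum hr
  rw [ZZ, tau, tau, norm_div, norm_mul, norm_mul, ← hrdef, norm_phase, norm_phase, one_mul, one_mul,
    HW_sum hr, sum_S1S2]
  have n1 : ‖ringVal r (phi0 r) 1‖ * sR r 1 = WW r := by
    have := congrArg norm h1
    rw [norm_mul, norm_mul, norm_pow, norm_neg, norm_one, one_pow, one_mul, Complex.norm_real,
      Complex.norm_real, Real.norm_of_nonneg hs.le, Real.norm_of_nonneg WW_nonneg] at this
    exact this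
  have n2 : ‖ringVal r (vw 0) 1‖ * sR r 1 = Real.sqrt (2 / r) * (r / 2) := by
    have := congrArg norm h2
    rw [norm_mul, Complex.norm_real, Complex.norm_real, Real.norm_of_nonneg hs.le,
      Real.norm_of_nonneg (by positivity)] at this
    exact this
  have n3 : ‖ringVal r (phi0 r) 1‖ = WW r / sR r 1 := by
    rw [← n1]; field_simp
  have n4 : ‖ringVal r (vw 0) 1‖ = Real.sqrt (2 / r) * (r / 2) / sR r 1 := by
    rw [← n2]; field_simp
  rw [n3, n4]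
  have hsq : 0 < Real.sqrt (2 / r) := Real.sqrt_pos.mpr (by positivity)
  have h3 : Real.sqrt (2 / r) ^ 2 = 2 / r := Real.sq_sqrt (by positivity)
  rw [div_div_div_cancel_right₀ hs.ne', div_eq_iff (by positivity)]
  have : Real.sqrt (2 / r) * WW r * (Real.sqrt (2 / r) * (r / 2)) =
      Real.sqrt (2 / r) ^ 2 * (r / 2) * WW r := by ring
  rw [this, h3]
  field_simp

end

end

end Pool.Agent.Helper64.WRT
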